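import Mathlib
import Pool.Agent.Lib.B92.Defs
import Pool.Agent.Lib.B92.Alg
import Pool.Agent.Lib.B92.Arc

/-!
# MP_b92fc8_an, case kappa < -1 : parameters and rotated variables

`c = -kappa > 1`, `l = e mu lam`, `e = 1` or `e = -1`.
`R = (Y + c U) / 2`, `S = (U + c Y) / r2`, `v = mu w / r2`, `a = S cb + e v sb`,
`b = v cb - e S sb`; `a ^ 2 + b ^ 2 = 2 R ^ 2`.
-/

set_option autoImplicit false

open Set Filter Topology

noncomputable section

namespace B92.KC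

/-- Parameters. -/
structure Par (c mu lam N sb cb r2 : ℝ) : Prop where
  c1 : 1 < c
  mu0 : 0 < mu
  mu2 : mu ^ 2 = c ^ 2 - 1
  lam0 : 0 < lam
  N1 : 1 < N
  N2 : N ^ 2 = 1 + lam ^ 2
  sb0 : 0 < sb
  sbcb : sb < cb
  cs : cb ^ 2 + sb ^ 2 = 1
  Ncs : N * (cb ^ 2 - sb ^ 2) = 1
  lam' : lam = 2 * N * sb * cb
  r20 : 0 < r2
  r22 : r2 ^ 2 = 2

theorem exists_par {k l : ℝ} (hk : k < -1) (hl : 0 < l) :
    ∃ mu lam N sb cb r2, Par (-k) mu lam N sb cb r2 ∧ l = mu * lam := by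
  have hk2 : 0 < k ^ 2 - 1 := by nlinarith
  set mu := Real.sqrt (k ^ 2 - 1) with hmu
  have hmu0 : 0 < mu := Real.sqrt_pos.2 hk2
  have hmu2 : mu ^ 2 = k ^ 2 - 1 := Real.sq_sqrt hk2.le
  set lam := l / mu with hlam
  have hlam0 : 0 < lam := div_pos hl hmu0
  set N := Real.sqrt (1 + lam ^ 2) with hN
  have hN2 : N ^ 2 = 1 + lam ^ 2 := Real.sq_sqrt (by positivity)
  have hN0 : 0 < N := Real.sqrt_pos.2 (by positivity)
  have hN1 : 1 < N := by nlinarith [sq_nonneg (N - 1)]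
  set cb := Real.sqrt ((N + 1) / (2 * N)) with hcb
  set sb := Real.sqrt ((N - 1) / (2 * N)) with hsb
  have hcb2 : cb ^ 2 = (N + 1) / (2 * N) := Real.sq_sqrt (by positivity)
  have hsb2 : sb ^ 2 = (N - 1) / (2 * N) := Real.sq_sqrt (div_nonneg (by linarith) (by positivity))
  have hcb0 : 0 < cb := Real.sqrt_pos.2 (by positivity)
  have hsb0 : 0 < sb := Real.sqrt_pos.2 (div_pos (by linarith) (by positivity))
  have hlt : sb < cb := by
    apply Real.sqrt_lt_sqrt (div_nonneg (by linarith) (by positivity))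
    apply div_lt_div_of_pos_right _ (by positivity)
    linarith
  refine ⟨mu, lam, N, sb, cb, Real.sqrt 2, ⟨by linarith, hmu0, by rw [hmu2]; ring, hlam0, hN1, hN2,
    hsb0, hlt, ?_, ?_, ?_, Real.sqrt_pos.2 (by norm_num), Real.sq_sqrt (by norm_num)⟩, ?_⟩
  · rw [hcb2, hsb2]; field_simp; ring
  · rw [hcb2, hsb2]; field_simp; ring
  · have h1 : (2 * N * sb * cb) ^ 2 = lam ^ 2 := by
      have : (2 * N * sb * cb) ^ 2 = 4 * N ^ 2 * sb ^ 2 * cb ^ 2 := by ring
      rw [this, hsb2, hcb2]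
      field_simp
      nlinarith
    have h2 : 0 < 2 * N * sb * cb := by positivity
    exact ((pow_left_inj₀ h2.le hlam0.le (by norm_num)).1 h1).symm
  · rw [hlam]; field_simp

section

variable {c mu lam N sb cb r2 : ℝ}

theorem Par.cb0 (P : Par c mu lam N sb cb r2) : 0 < cb := P.sb0.trans P.sbcb

theorem Par.N0 (P : Par c mu lam N sb cb r2) : 0 < N := by linarith [P.N1]

theorem Par.lamN (P : Par c mu lam N sb cb r2) : lam < N := by
  have h1 := P.N2
  have h2 := P.lam0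
  have h3 := P.N0
  nlinarith

theorem Par.lamsb (P : Par c mu lam N sb cb r2) : lam * sb = (N - 1) * cb := by
  have h1 := P.lam'
  have h2 := P.cs
  have h3 := P.Ncs
  rw [h1]
  have : N * (2 * sb ^ 2) = N - 1 := by linear_combination N * h2 - h3
  linear_combination cb * this

theorem Par.lamcb (P : Par c mu lam N sb cb r2) : lam * cb = (N + 1) * sb := by
  have h1 := P.lam'
  have h2 := P.cs
  have h3 := P.Ncs
  rw [h1]
  have : N * (2 * cb ^ 2) = N + 1 := by linear_combination N * h2 + h3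
  linear_combination sb * this

theorem Par.cb2 (P : Par c mu lam N sb cb r2) : 2 * N * cb ^ 2 = N + 1 := by
  linear_combination N * P.cs + P.Ncs

theorem Par.sb2 (P : Par c mu lam N sb cb r2) : 2 * N * sb ^ 2 = N - 1 := by
  linear_combination N * P.cs - P.Ncs

theorem Par.r2lt (P : Par c mu lam N sb cb r2) : r2 < 3 / 2 := by
  have h1 := P.r20
  have h2 := P.r22
  nlinarith

theorem Par.r2gt (P : Par c mu lam N sb cb r2) : 7 / 5 < r2 := by
  have h1 := P.r20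
  have h2 := P.r22
  nlinarith

end

/-- `R`. -/
def vR (c U Y : ℝ) : ℝ := (Y + c * U) / 2
/-- `S`. -/
def vS (c r2 U Y : ℝ) : ℝ := (U + c * Y) / r2
/-- `v`. -/
def vv (mu r2 w : ℝ) : ℝ := mu * w / r2
/-- `a`. -/
def va (c mu sb cb r2 e U Y w : ℝ) : ℝ := vS c r2 U Y * cb + e * vv mu r2 w * sb
/-- `b`. -/
def vb (c mu sb cb r2 e U Y w : ℝ) : ℝ := vv mu r2 w * cb - e * vS c r2 U Y * sb

section

variable {c mu lam N sb cb r2 e U Y w : ℝ}

theorem cone_Sv (P : Par c mu lam N sb cb r2) (hc : U ^ 2 = Y ^ 2 + w ^ 2) :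
    vS c r2 U Y ^ 2 + vv mu r2 w ^ 2 = 2 * vR c U Y ^ 2 := by
  have h1 := P.r22
  have h2 := P.mu2
  have h3 := P.r20.ne'
  simp only [vS, vv, vR]
  rw [div_pow, div_pow, div_pow, h1]
  linear_combination (w ^ 2 / 2) * h2 + ((1 - c ^ 2) / 2) * hc

theorem cone_ab (P : Par c mu lam N sb cb r2) (he : e ^ 2 = 1) (hc : U ^ 2 = Y ^ 2 + w ^ 2) :
    va c mu sb cb r2 e U Y w ^ 2 + vb c mu sb cb r2 e U Y w ^ 2 = 2 * vR c U Y ^ 2 := by
  have h1 := cone_Sv P hc
  have h2 := P.cs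
  simp only [va, vb]
  linear_combination (cb ^ 2 + sb ^ 2) * h1 + (2 * vR c U Y ^ 2) * h2
    + (sb ^ 2 * vv mu r2 w ^ 2 + sb ^ 2 * vS c r2 U Y ^ 2) * he

theorem v_ab (P : Par c mu lam N sb cb r2) (he : e ^ 2 = 1) :
    vv mu r2 w = vb c mu sb cb r2 e U Y w * cb + e * va c mu sb cb r2 e U Y w * sb := by
  have h2 := P.cs
  simp only [va, vb]
  linear_combination (-(vv mu r2 w)) * h2 - (sb ^ 2 * vv mu r2 w) * he

theorem S_ab (P : Par c mu lam N sb cb r2) (he : e ^ 2 = 1) :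
    vS c r2 U Y = va c mu sb cb r2 e U Y w * cb - e * vb c mu sb cb r2 e U Y w * sb := by
  have h2 := P.cs
  simp only [va, vb]
  linear_combination (-(vS c r2 U Y)) * h2 - (sb ^ 2 * vS c r2 U Y) * he

/-- `h` in the variables `R, S, v`. -/
theorem h_Sv (P : Par c mu lam N sb cb r2) :
    fh (-c) (e * (mu * lam)) U Y w =
      (1 + vR c U Y) ^ 2 - vv mu r2 w ^ 2 + e * lam * vS c r2 U Y * vv mu r2 w := by
  have h1 := P.r22
  have h2 := P.mu2
  have h3 := P.r20.ne'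
  have h4 : vv mu r2 w ^ 2 = (c ^ 2 - 1) * w ^ 2 / 2 := by
    simp only [vv]; rw [div_pow, h1, mul_pow, h2]
  have h5 : vS c r2 U Y * vv mu r2 w = (U + c * Y) * (mu * w) / 2 := by
    simp only [vS, vv]
    rw [div_mul_div_comm, ← sq, h1]
  simp only [fh, fA, fS, vR]
  linear_combination h4 - (e * lam) * h5

/-- `h` in the variables `R, a`. -/
theorem h_ab (P : Par c mu lam N sb cb r2) (he : e ^ 2 = 1) (hc : U ^ 2 = Y ^ 2 + w ^ 2) :
    fh (-c) (e * (mu * lam)) U Y w =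
      1 + 2 * vR c U Y - N * vR c U Y ^ 2 + N * va c mu sb cb r2 e U Y w ^ 2 := by
  rw [h_Sv P]
  have h1 := cone_Sv P hc
  have h2 := P.cs
  have h3 := P.Ncs
  have h4 := P.lam'
  have h5 := P.cb2
  have h6 := P.sb2
  simp only [va]
  linear_combination (-(1 / 2) - N / 2 : ℝ) * h1 + e * vS c r2 U Y * vv mu r2 w * h4
    - (vS c r2 U Y ^ 2 / 2) * h5 - (e ^ 2 * vv mu r2 w ^ 2 / 2) * h6
    - (vv mu r2 w ^ 2 * (N - 1) / 2) * he

end

end B92.KC
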