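import Mathlib
import Pool.Agent.Lib.B92KC.Par

/-!
# MP_b92fc8_an, case kappa < -1 : the K-lemma (matched pairs)

Section 5 of the text of helper97: two points `P1` (sector plus) and `P2` (sector minus) on the
same level, at the same `T`.  Written by helper66.
-/

set_option autoImplicit false

open Set Filter Topology

noncomputable section

namespace B92.KC

theorem pos_of_mul_pos_of_pos_right {x y : ℝ} (h : 0 < x * y) (hy : 0 < y) : 0 < x := by
  by_contra hx
  rw [not_lt] at hx
  have := mul_nonpos_of_nonpos_of_nonneg hx hy.le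
  linarith

/-- `q cosh (q u) sinh u - cosh u sinh (q u) > 0` for `u > 0`, `q > 1`
(that is: `x coth x` is strictly increasing). -/
theorem coth_aux {q u : ℝ} (hq : 1 < q) (hu : 0 < u) :
    0 < q * Real.cosh (q * u) * Real.sinh u - Real.cosh u * Real.sinh (q * u) := by
  set g : ℝ → ℝ := fun t => q * Real.cosh (q * t) * Real.sinh t - Real.cosh t * Real.sinh (q * t)
    with hg
  have hder : ∀ t : ℝ, HasDerivAt g ((q ^ 2 - 1) * Real.sinh t * Real.sinh (q * t)) t := by
    intro t
    have h1 : HasDerivAt (fun s : ℝ => q * s) q t := by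
      simpa using (hasDerivAt_id t).const_mul q
    have h2 : HasDerivAt (fun s : ℝ => Real.cosh (q * s)) (Real.sinh (q * t) * q) t :=
      (Real.hasDerivAt_cosh (q * t)).comp t h1
    have h3 : HasDerivAt (fun s : ℝ => Real.sinh (q * s)) (Real.cosh (q * t) * q) t :=
      (Real.hasDerivAt_sinh (q * t)).comp t h1
    have h4 := ((h2.const_mul q).mul (Real.hasDerivAt_sinh t)).sub
      ((Real.hasDerivAt_cosh t).mul h3)
    refine h4.congr_deriv ?_
    ring
  have hcont : Continuous g := continuous_iff_continuousAt.2 fun t => (hder t).continuousAt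
  have hmono : StrictMonoOn g (Ici 0) := by
    apply strictMonoOn_of_deriv_pos (convex_Ici 0) hcont.continuousOn
    intro t ht
    rw [interior_Ici] at ht
    have ht0 : 0 < t := ht
    rw [(hder t).deriv]
    have h1 : 0 < Real.sinh t := Real.sinh_pos_iff.2 ht0
    have h2 : 0 < Real.sinh (q * t) := Real.sinh_pos_iff.2 (mul_pos (by linarith) ht0)
    have h3 : 0 < q ^ 2 - 1 := by nlinarith
    positivity
  have h0 : g 0 = 0 := by simp [hg]
  have := hmono (by simp : (0 : ℝ) ∈ Ici 0) (by simpa using hu.le : u ∈ Ici (0 : ℝ)) hu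
  rw [h0] at this
  exact this

/-- Auxiliary: from `A (E - 1) = B (E + 1)` with `E = exp (2 u)`. -/
theorem exp_aux {A B E u : ℝ} (hE : E = Real.exp (2 * u)) (h : A * (E - 1) = B * (E + 1)) :
    A * Real.sinh u = B * Real.cosh u := by
  have h1 : E = Real.exp u * Real.exp u := by
    rw [hE, ← Real.exp_add]; congr 1; ring
  have h2 : Real.exp u * Real.exp (-u) = 1 := by rw [← Real.exp_add]; simp
  have h3 : Real.exp (-u) ≠ 0 := (Real.exp_pos _).ne'
  rw [Real.sinh_eq, Real.cosh_eq]
  have h4 : Real.exp u = Real.exp (-u) * E := by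
    rw [h1]; linear_combination (-Real.exp u) * h2
  have h5 : Real.exp u - Real.exp (-u) = Real.exp (-u) * (E - 1) := by
    rw [mul_sub, ← h4]; ring
  have h6 : Real.exp u + Real.exp (-u) = Real.exp (-u) * (E + 1) := by
    rw [mul_add, ← h4]; ring
  rw [h5, h6]
  linear_combination (Real.exp (-u) / 2) * h

variable {c mu lam N sb cb r2 : ℝ}

theorem pair (P : Par c mu lam N sb cb r2) {R1 a1 b1 R2 a2 b2 h : ℝ} (hR1 : 0 < R1)
    (hR2 : 0 < R2) (c1 : a1 ^ 2 + b1 ^ 2 = 2 * R1 ^ 2) (c2 : a2 ^ 2 + b2 ^ 2 = 2 * R2 ^ 2)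
    (h1 : h = 1 + 2 * R1 - N * R1 ^ 2 + N * a1 ^ 2)
    (h2 : h = 1 + 2 * R2 - N * R2 ^ 2 + N * a2 ^ 2) (hh : 1 < h)
    (F1 : 0 < 1 - N * R1 + N * a1) (F2 : 0 < 1 - N * R2 + N * a2)
    (v1 : 0 < b1 * cb + a1 * sb) (v2 : 0 < b2 * cb - a2 * sb)
    (hm : sb * (Real.log (1 + N * R1 + N * b1) - Real.log (1 + N * R2 - N * b2)) =
      cb * (Real.log (1 - N * R1 + N * a1) - Real.log (1 - N * R2 + N * a2))) :
    (0 < a1 + a2 → b1 * cb + a1 * sb < b2 * cb - a2 * sb) ∧
    (a1 + a2 < 0 → b2 * cb - a2 * sb < b1 * cb + a1 * sb) ∧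
    (a1 + a2 = 0 → R2 = R1 ∧ a2 = -a1 ∧ b2 = b1) ∧
    (b1 * cb + a1 * sb = b2 * cb - a2 * sb → a1 + a2 = 0) := by
  have hN := P.N0
  have hsb := P.sb0
  have hcb := P.cb0
  have hsc := P.sbcb
  -- the functions `G`
  have g1 : h = 1 + 2 * R1 + N * R1 ^ 2 - N * b1 ^ 2 := by linear_combination h1 + N * c1
  have g2 : h = 1 + 2 * R2 + N * R2 ^ 2 - N * b2 ^ 2 := by linear_combination h2 + N * c2
  have gg1 : (1 + N * R1 + N * b1) * (1 + N * R1 - N * b1) = 1 + N * (h - 1) := by
    rw [g1]; ring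
  have gg2 : (1 + N * R2 - N * b2) * (1 + N * R2 + N * b2) = 1 + N * (h - 1) := by
    rw [g2]; ring
  have hG : 0 < 1 + N * (h - 1) := by
    have := mul_pos hN (sub_pos.2 hh); linarith
  have pos_of (x y : ℝ) (hxy : 0 < x * y) (hs : 0 < x + y) : 0 < x := by
    by_contra hx
    rw [not_lt] at hx
    have hy : 0 < y := by linarith
    nlinarith
  have hNR1 : 0 < N * R1 := mul_pos hN hR1
  have hNR2 : 0 < N * R2 := mul_pos hN hR2
  have G1 : 0 < 1 + N * R1 + N * b1 :=
    pos_of _ (1 + N * R1 - N * b1) (by rw [gg1]; exact hG) (by linarith)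
  have G2 : 0 < 1 + N * R2 - N * b2 :=
    pos_of _ (1 + N * R2 + N * b2) (by rw [gg2]; exact hG) (by linarith)
  have ff : (1 - N * R1 + N * a1) * (1 - N * R1 - N * a1) =
      (1 - N * R2 + N * a2) * (1 - N * R2 - N * a2) := by
    have e1 : (1 - N * R1 + N * a1) * (1 - N * R1 - N * a1) = 1 - N * (h - 1) := by
      rw [h1]; ring
    have e2 : (1 - N * R2 + N * a2) * (1 - N * R2 - N * a2) = 1 - N * (h - 1) := by
      rw [h2]; ring
    rw [e1, e2]
  -- the quotients
  set f1 := 1 - N * R1 + N * a1 with hf1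
  set f2 := 1 - N * R2 + N * a2 with hf2
  set g1' := 1 + N * R1 + N * b1 with hg1'
  set g2' := 1 + N * R2 - N * b2 with hg2'
  obtain ⟨u, hu⟩ : ∃ u, 2 * u = Real.log f1 - Real.log f2 := ⟨(Real.log f1 - Real.log f2) / 2,
    by ring⟩
  obtain ⟨w, hw⟩ : ∃ w, 2 * w = Real.log g1' - Real.log g2' :=
    ⟨(Real.log g1' - Real.log g2') / 2, by ring⟩
  have hsw : sb * w = cb * u := by
    have : sb * (2 * w) = cb * (2 * u) := by rw [hu, hw]; exact hm
    linarith
  have hE : f1 = f2 * Real.exp (2 * u) := by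
    rw [hu, Real.exp_sub, Real.exp_log F1, Real.exp_log F2]
    field_simp
  have hEG : g1' = g2' * Real.exp (2 * w) := by
    rw [hw, Real.exp_sub, Real.exp_log G1, Real.exp_log G2]
    field_simp
  set E := Real.exp (2 * u) with hEdef
  set EG := Real.exp (2 * w) with hEGdef
  have hE0 : 0 < E := Real.exp_pos _
  have hEG0 : 0 < EG := Real.exp_pos _
  -- second factors
  have hf2t : 1 - N * R2 - N * a2 = E * (1 - N * R1 - N * a1) := by
    have : f2 * (1 - N * R2 - N * a2) = f2 * (E * (1 - N * R1 - N * a1)) := by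
      rw [← ff, hE]; ring
    exact mul_left_cancel₀ F2.ne' this
  have hg2t : 1 + N * R2 + N * b2 = EG * (1 + N * R1 - N * b1) := by
    have : g2' * (1 + N * R2 + N * b2) = g2' * (EG * (1 + N * R1 - N * b1)) := by
      rw [gg2, ← gg1, hEG]; ring
    exact mul_left_cancel₀ G2.ne' this
  -- the four relations
  have hE' := hE
  have hEG' := hEG
  rw [hf1, hf2] at hE'
  rw [hg1', hg2'] at hEG'
  have I : (N * (a1 + a2)) * (E - 1) = (-(N * (R1 - R2))) * (E + 1) := by
    linear_combination (-1 : ℝ) * hE' + hf2t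
  have II : (2 - N * (R1 + R2)) * (E - 1) = (N * (a1 - a2)) * (E + 1) := by
    linear_combination (-1 : ℝ) * hE' - hf2t
  have III : (N * (b1 - b2)) * (EG - 1) = (N * (R1 - R2)) * (EG + 1) := by
    linear_combination (-1 : ℝ) * hEG' + hg2t
  have IV : (2 + N * (R1 + R2)) * (EG - 1) = (N * (b1 + b2)) * (EG + 1) := by
    linear_combination (-1 : ℝ) * hEG' - hg2t
  have J1 := exp_aux hEdef I
  have J2 := exp_aux hEdef II
  have J3 := exp_aux hEGdef III
  have J4 := exp_aux hEGdef IV
  clear_value E EG f1 f2 g1' g2'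
  have cu : 0 < Real.cosh u := Real.cosh_pos u
  have cw : 0 < Real.cosh w := Real.cosh_pos w
  set q := cb / sb with hq
  have hq1 : 1 < q := (one_lt_div hsb).2 hsc
  have hcbq : cb = q * sb := by rw [hq]; field_simp
  have hwq : w = q * u := by
    have : sb * w = sb * (q * u) := by rw [hsw, hcbq]; ring
    exact mul_left_cancel₀ hsb.ne' this
  -- `u > 0`
  have hu0 : 0 < u := by
    by_contra hu'
    rw [not_lt] at hu'
    have hw' : w ≤ u := by rw [hwq]; nlinarith
    have su : Real.sinh u ≤ 0 := Real.sinh_nonpos_iff.2 hu'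
    have sw : Real.sinh w ≤ 0 := Real.sinh_nonpos_iff.2 (hw'.trans hu')
    have s1 : Real.sinh w * Real.cosh u - Real.cosh w * Real.sinh u ≤ 0 := by
      rw [← Real.sinh_sub]; exact Real.sinh_nonpos_iff.2 (by linarith)
    have k1 : (N * ((b1 * cb + a1 * sb) + (b2 * cb - a2 * sb))) * (Real.cosh u * Real.cosh w) =
        (2 - N * (R1 + R2)) * sb * (Real.sinh u * Real.cosh w) +
        (2 + N * (R1 + R2)) * cb * (Real.sinh w * Real.cosh u) := by
      linear_combination (-(sb * Real.cosh w)) * J2 - (cb * Real.cosh u) * J4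
    have k2 : 0 < (N * ((b1 * cb + a1 * sb) + (b2 * cb - a2 * sb))) *
        (Real.cosh u * Real.cosh w) :=
      mul_pos (mul_pos hN (add_pos v1 v2)) (mul_pos cu cw)
    have p1 : Real.sinh u * Real.cosh w ≤ 0 := mul_nonpos_of_nonpos_of_nonneg su cw.le
    have p2 : Real.sinh w * Real.cosh u ≤ 0 := mul_nonpos_of_nonpos_of_nonneg sw cu.le
    have p3 : sb * (Real.sinh u * Real.cosh w) ≤ 0 := mul_nonpos_of_nonneg_of_nonpos hsb.le p1
    have p4 : cb * (Real.sinh w * Real.cosh u) ≤ 0 := mul_nonpos_of_nonneg_of_nonpos hcb.le p2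
    have p5 : cb * (Real.sinh w * Real.cosh u) - sb * (Real.sinh u * Real.cosh w) ≤ 0 := by
      have e1 : (cb - sb) * (Real.sinh w * Real.cosh u) ≤ 0 :=
        mul_nonpos_of_nonneg_of_nonpos (sub_pos.2 hsc).le p2
      have e2 : sb * (Real.sinh w * Real.cosh u - Real.cosh w * Real.sinh u) ≤ 0 :=
        mul_nonpos_of_nonneg_of_nonpos hsb.le s1
      linarith
    have p6 : N * (R1 + R2) * (cb * (Real.sinh w * Real.cosh u) -
        sb * (Real.sinh u * Real.cosh w)) ≤ 0 :=
      mul_nonpos_of_nonneg_of_nonpos (mul_pos hN (add_pos hR1 hR2)).le p5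
    have k3 : (2 - N * (R1 + R2)) * sb * (Real.sinh u * Real.cosh w) +
        (2 + N * (R1 + R2)) * cb * (Real.sinh w * Real.cosh u) =
        2 * (sb * (Real.sinh u * Real.cosh w)) + 2 * (cb * (Real.sinh w * Real.cosh u)) +
        N * (R1 + R2) * (cb * (Real.sinh w * Real.cosh u) -
        sb * (Real.sinh u * Real.cosh w)) := by ring
    linarith
  have su : 0 < Real.sinh u := Real.sinh_pos_iff.2 hu0
  have hw0 : 0 < w := by rw [hwq]; exact mul_pos (by linarith) hu0
  have sw : 0 < Real.sinh w := Real.sinh_pos_iff.2 hw0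
  have hg := coth_aux hq1 hu0
  rw [← hwq] at hg
  have M1 : (a1 + a2) * Real.sinh u = (R2 - R1) * Real.cosh u := by
    have : N * ((a1 + a2) * Real.sinh u) = N * ((R2 - R1) * Real.cosh u) := by
      linear_combination J1
    exact mul_left_cancel₀ hN.ne' this
  have M3 : (b1 - b2) * Real.sinh w = (R1 - R2) * Real.cosh w := by
    have : N * ((b1 - b2) * Real.sinh w) = N * ((R1 - R2) * Real.cosh w) := by
      linear_combination J3
    exact mul_left_cancel₀ hN.ne' this
  set G := q * Real.cosh w * Real.sinh u - Real.cosh u * Real.sinh w with hGdef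
  have M : ((b1 * cb + a1 * sb) - (b2 * cb - a2 * sb)) * (Real.sinh u * Real.sinh w) =
      (R1 - R2) * (sb * G) := by
    rw [hGdef]
    linear_combination (cb * Real.sinh u) * M3 + (sb * Real.sinh w) * M1
      + ((R1 - R2) * Real.cosh w * Real.sinh u) * hcbq
  have hsG : 0 < sb * G := mul_pos hsb hg
  have hss : 0 < Real.sinh u * Real.sinh w := mul_pos su sw
  refine ⟨fun ha => ?_, fun ha => ?_, fun ha => ?_, fun hv => ?_⟩
  · have r : 0 < R2 - R1 := by
      have : 0 < (R2 - R1) * Real.cosh u := by rw [← M1]; exact mul_pos ha su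
      exact pos_of_mul_pos_of_pos_right this cu
    have : ((b1 * cb + a1 * sb) - (b2 * cb - a2 * sb)) * (Real.sinh u * Real.sinh w) < 0 := by
      rw [M]; nlinarith
    have := neg_of_mul_neg_left this hss.le
    linarith
  · have r : R2 - R1 < 0 := by
      have : (R2 - R1) * Real.cosh u < 0 := by rw [← M1]; exact mul_neg_of_neg_of_pos ha su
      exact neg_of_mul_neg_left this cu.le
    have : 0 < ((b1 * cb + a1 * sb) - (b2 * cb - a2 * sb)) * (Real.sinh u * Real.sinh w) := by
      rw [M]; nlinarith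
    have := pos_of_mul_pos_of_pos_right this hss
    linarith
  · have r : R2 - R1 = 0 := by
      have : (R2 - R1) * Real.cosh u = 0 := by rw [← M1, ha, zero_mul]
      exact (mul_eq_zero.1 this).resolve_right cu.ne'
    have r' : b1 - b2 = 0 := by
      have : (b1 - b2) * Real.sinh w = 0 := by
        rw [M3]; linear_combination (-Real.cosh w) * r
      exact (mul_eq_zero.1 this).resolve_right sw.ne'
    exact ⟨by linarith, by linarith, by linarith⟩
  · have r : R1 - R2 = 0 := by
      have : (R1 - R2) * (sb * G) = 0 := by rw [← M, hv]; ring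
      exact (mul_eq_zero.1 this).resolve_right hsG.ne'
    have : (a1 + a2) * Real.sinh u = 0 := by
      rw [M1]; linear_combination (-Real.cosh u) * r
    exact (mul_eq_zero.1 this).resolve_right su.ne'

end B92.KC
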