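import Mathlib
import Pool.Agent.Lib.B92KC.Par

/-!
# MP_b92fc8_an, case kappa < -1 : inequalities for `u`, the curve `u = 0`
-/

set_option autoImplicit false

open Set Filter Topology

noncomputable section

namespace B92.KC

variable {c mu lam N sb cb r2 e : ℝ}

theorem abs_e (he : e ^ 2 = 1) : |e| = 1 := by
  rw [← sq_eq_sq₀ (abs_nonneg e) (by norm_num), sq_abs, he]; norm_num

theorem e_cases (he : e ^ 2 = 1) : e = 1 ∨ e = -1 := by
  have : (e - 1) * (e + 1) = 0 := by linear_combination he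
  rcases mul_eq_zero.1 this with h | h
  · left; linarith
  · right; linarith

/-- `u` as a function of `R, a, b`. -/
theorem u_ab (P : Par c mu lam N sb cb r2) (he : e ^ 2 = 1) {R a b v h : ℝ}
    (hab : a ^ 2 + b ^ 2 = 2 * R ^ 2) (hv : v = b * cb + e * a * sb)
    (hh : h = 1 + 2 * R - N * R ^ 2 + N * a ^ 2) :
    2 * h - 2 * N ^ 2 * v ^ 2
      = 2 * (1 - N * R) * (1 + (N + 2) * R) + 4 * N * a ^ 2 - 2 * e * N * lam * a * b := by
  have h1 := P.cb2
  have h2 := P.sb2
  have h3 := P.lam'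
  rw [hh, hv]
  linear_combination (-(N * b ^ 2)) * h1 - (N * a ^ 2) * e ^ 2 * h2 + (2 * e * N * a * b) * h3
    - (N * (N + 1)) * hab - (N * (N - 1) * a ^ 2) * he

theorem G1 (P : Par c mu lam N sb cb r2) (he : e ^ 2 = 1) {R a b : ℝ}
    (hab : a ^ 2 + b ^ 2 = 2 * R ^ 2) (hR : 0 < R) (hp : 0 ≤ 1 - N * R + N * a)
    (hm : 0 ≤ 1 - N * R - N * a) (h1 : 0 < 1 - N * R) :
    0 < 2 * (1 - N * R) * (1 + (N + 2) * R) + 4 * N * a ^ 2 - 2 * e * N * lam * a * b := by
  have hN := P.N0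
  have hl := P.lam0
  have hlN := P.lamN
  have hNa : N * |a| ≤ 1 - N * R := by
    rcases abs_cases a with ⟨h, _⟩ | ⟨h, _⟩ <;> rw [h] <;> linarith
  have hb : |b| ≤ 3 / 2 * R := by
    apply abs_le_of_sq_le_sq _ (by positivity)
    nlinarith [sq_nonneg a]
  have hterm : 2 * e * N * lam * a * b ≤ 2 * lam * (1 - N * R) * (3 / 2 * R) := by
    calc 2 * e * N * lam * a * b ≤ |2 * e * N * lam * a * b| := le_abs_self _
      _ = 2 * lam * (N * |a|) * |b| := by
          rw [abs_mul, abs_mul, abs_mul, abs_mul, abs_mul, abs_e he, abs_of_pos hN, abs_of_pos hl,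
            abs_two]
          ring
      _ ≤ 2 * lam * (1 - N * R) * (3 / 2 * R) := by
          apply mul_le_mul _ hb (abs_nonneg _) (by positivity)
          exact mul_le_mul_of_nonneg_left hNa (by positivity)
  have h2 : 0 < 2 * (1 + (N + 2) * R) - 2 * lam * (3 / 2 * R) := by nlinarith
  nlinarith [mul_pos h1 h2, mul_nonneg hN.le (sq_nonneg a)]

theorem G2 (P : Par c mu lam N sb cb r2) (he : e ^ 2 = 1) {R a b : ℝ}
    (hab : a ^ 2 + b ^ 2 = 2 * R ^ 2) (hp : 1 - N * R + N * a = 0)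
    (hm : 1 - N * R - N * a < 0) :
    2 * (1 - N * R) * (1 + (N + 2) * R) + 4 * N * a ^ 2 - 2 * e * N * lam * a * b < 0 := by
  have hN := P.N0
  have hN1 := P.N1
  have hl := P.lam0
  have hlN := P.lamN
  have ha : 0 < a := by nlinarith
  have hNR : N * R = 1 + N * a := by linarith
  have hR : R = 1 / N + a := by field_simp; linarith
  have h1 : 2 * (1 - N * R) * (1 + (N + 2) * R) + 4 * N * a ^ 2 - 2 * e * N * lam * a * b
      = -(2 * N * a) * (1 + (N + 2) * R - 2 * a + e * lam * b) := by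
    rw [show 1 - N * R = -(N * a) by linarith]; ring
  have hb2 : (N * b) ^ 2 ≤ (1 + N * R) ^ 2 := by
    have : (N * b) ^ 2 = 2 * (N * R) ^ 2 - (N * a) ^ 2 := by linear_combination N ^ 2 * hab
    rw [this]
    have : N * a = N * R - 1 := by linarith
    rw [this]; nlinarith
  have hNR0 : 0 < N * R := by nlinarith
  have hb : |N * b| ≤ 1 + N * R := abs_le_of_sq_le_sq hb2 (by linarith)
  have hlb : |lam * b| ≤ 1 + N * R := by
    refine le_trans ?_ hb
    rw [abs_mul, abs_mul, abs_of_pos hl, abs_of_pos hN]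
    exact mul_le_mul_of_nonneg_right hlN.le (abs_nonneg _)
  have hel : -(1 + N * R) ≤ e * lam * b := by
    have : |e * lam * b| = |lam * b| := by rw [mul_assoc, abs_mul, abs_e he, one_mul]
    have := neg_abs_le (e * lam * b)
    linarith
  have h2 : 0 < 1 + (N + 2) * R - 2 * a + e * lam * b := by
    have : 1 + (N + 2) * R - 2 * a = 1 + N * R + 2 / N := by rw [hR]; field_simp; ring
    rw [this]
    have : 0 < 2 / N := by positivity
    linarith
  rw [h1]
  have : 0 < 2 * N * a * (1 + (N + 2) * R - 2 * a + e * lam * b) := by positivity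
  linarith

/-- The cubic. -/
theorem cubic_t (P : Par c mu lam N sb cb r2) :
    2 * lam * (sb / cb) ^ 3 + (4 + lam ^ 2) * (sb / cb) ^ 2 - lam ^ 2 = 0 := by
  have h1 := P.lamsb
  have h2 := P.lamcb
  have h3 := P.N2
  have hcb := P.cb0.ne'
  have h4 : lam ^ 2 * cb ^ 2 = (N + 1) ^ 2 * sb ^ 2 := by
    have : (lam * cb) ^ 2 = ((N + 1) * sb) ^ 2 := by rw [h2]
    linear_combination this
  field_simp
  linear_combination (2 * sb ^ 2) * h1 - cb * h4 + (sb ^ 2 * cb) * (-1) * h3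

theorem cubic_pos (P : Par c mu lam N sb cb r2) {y : ℝ} (hy : sb / cb < y) :
    0 < 2 * lam * y ^ 3 + (4 + lam ^ 2) * y ^ 2 - lam ^ 2 := by
  have h := cubic_t P
  have ht : 0 < sb / cb := div_pos P.sb0 P.cb0
  have hl := P.lam0
  set t := sb / cb
  have : 2 * lam * y ^ 3 + (4 + lam ^ 2) * y ^ 2 - lam ^ 2
      = (y - t) * (2 * lam * (y ^ 2 + y * t + t ^ 2) + (4 + lam ^ 2) * (y + t)) := by
    linear_combination h
  rw [this]
  have hy0 : 0 < y := ht.trans hy
  have : 0 < y - t := by linarith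
  positivity

theorem cubic_neg (P : Par c mu lam N sb cb r2) {y : ℝ} (hy0 : 0 ≤ y) (hy : y < sb / cb) :
    2 * lam * y ^ 3 + (4 + lam ^ 2) * y ^ 2 - lam ^ 2 < 0 := by
  have h := cubic_t P
  have ht : 0 < sb / cb := div_pos P.sb0 P.cb0
  have hl := P.lam0
  set t := sb / cb
  have : 2 * lam * y ^ 3 + (4 + lam ^ 2) * y ^ 2 - lam ^ 2
      = -((t - y) * (2 * lam * (y ^ 2 + y * t + t ^ 2) + (4 + lam ^ 2) * (y + t))) := by
    linear_combination h
  rw [this]
  have : 0 < t - y := by linarith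
  have : 0 < (t - y) * (2 * lam * (y ^ 2 + y * t + t ^ 2) + (4 + lam ^ 2) * (y + t)) := by
    positivity
  linarith

/-- The sign of `tau r + e lam n` for `tau > - e t`. -/
theorem gam_pos (P : Par c mu lam N sb cb r2) (he : e ^ 2 = 1) {tau r n : ℝ} (hr : 0 < r)
    (hn : 0 < n) (hr2 : r ^ 2 = 2 + lam ^ 2 - e * lam * tau) (hn2 : 2 * n ^ 2 = 1 + tau ^ 2)
    (htau : -(e * (sb / cb)) < tau) : 0 < tau * r + e * lam * n := by
  have hl := P.lam0
  rcases e_cases he with h | h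
  · subst h
    rcases le_or_gt 0 tau with h0 | h0
    · have : 0 ≤ tau * r := mul_nonneg h0 hr.le
      have : 0 < lam * n := mul_pos hl hn
      linarith
    · have hc := cubic_neg P (y := -tau) (by linarith) (by linarith)
      have h1 : (-tau * r) ^ 2 < (lam * n) ^ 2 := by
        have e1 : (-tau * r) ^ 2 = tau ^ 2 * r ^ 2 := by ring
        have e2 : (lam * n) ^ 2 = lam ^ 2 * (1 + tau ^ 2) / 2 := by
          linear_combination (lam ^ 2 / 2) * hn2
        rw [e1, e2, hr2]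
        nlinarith
      have h2 : -tau * r < lam * n := by
        apply lt_of_pow_lt_pow_left₀ 2 (by positivity) h1
      linarith
  · subst h
    have ht : sb / cb < tau := by linarith
    have ht0 : 0 < sb / cb := div_pos P.sb0 P.cb0
    have htau0 : 0 < tau := ht0.trans ht
    have hc := cubic_pos P ht
    have h1 : (lam * n) ^ 2 < (tau * r) ^ 2 := by
      have e1 : (tau * r) ^ 2 = tau ^ 2 * r ^ 2 := by ring
      have e2 : (lam * n) ^ 2 = lam ^ 2 * (1 + tau ^ 2) / 2 := by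
        linear_combination (lam ^ 2 / 2) * hn2
      rw [e1, e2, hr2]
      nlinarith
    have h2 : lam * n < tau * r := by
      apply lt_of_pow_lt_pow_left₀ 2 (by positivity) h1
    linarith

/-- On `u = 0` : the data `r = (1 + R) / v`, `n = R / v`, `tau = S / v`. -/
theorem gamma_data {R S v h : ℝ} (hv : 0 < v) (hc : S ^ 2 + v ^ 2 = 2 * R ^ 2)
    (hh : h = (1 + R) ^ 2 - v ^ 2 + e * lam * S * v) (hN : N ^ 2 = 1 + lam ^ 2)
    (hu : 2 * h - 2 * N ^ 2 * v ^ 2 = 0) :
    ((1 + R) / v) ^ 2 = 2 + lam ^ 2 - e * lam * (S / v) ∧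
      2 * (R / v) ^ 2 = 1 + (S / v) ^ 2 := by
  have hv' := hv.ne'
  constructor
  · field_simp
    linear_combination (-1 : ℝ) * hh + (1 / 2 : ℝ) * hu + v ^ 2 * hN
  · field_simp
    linear_combination (-1 : ℝ) * hc

/-- `g > 0` on `u = 0`, `a > 0`. -/
theorem gamma_g_pos (P : Par c mu lam N sb cb r2) (he : e ^ 2 = 1) {R S v h : ℝ} (hR : 0 < R)
    (hv : 0 < v) (hc : S ^ 2 + v ^ 2 = 2 * R ^ 2)
    (hh : h = (1 + R) ^ 2 - v ^ 2 + e * lam * S * v)
    (hu : 2 * h - 2 * N ^ 2 * v ^ 2 = 0) (ha : 0 < S * cb + e * v * sb) :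
    0 < S * (1 + R) + e * lam * R * v := by
  obtain ⟨h1, h2⟩ := gamma_data hv hc hh P.N2 hu
  have hcb := P.cb0
  have htau : -(e * (sb / cb)) < S / v := by
    rw [lt_div_iff₀ hv]
    have : -(e * (sb / cb)) * v = -(e * v * sb) / cb := by field_simp
    rw [this, div_lt_iff₀ hcb]
    linarith
  have := gam_pos P he (by positivity : 0 < (1 + R) / v) (by positivity : 0 < R / v) h1 h2 htau
  have h3 : S * (1 + R) + e * lam * R * v
      = v ^ 2 * (S / v * ((1 + R) / v) + e * lam * (R / v)) := by field_simp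
  rw [h3]; positivity

/-- `h` decreases along `u = 0`, `a > 0` (towards the saddle). -/
theorem gamma_mono (P : Par c mu lam N sb cb r2) (he : e ^ 2 = 1) {R1 S1 v1 h1 R2 S2 v2 h2 : ℝ}
    (hR1 : 0 < R1) (hv1 : 0 < v1) (hc1 : S1 ^ 2 + v1 ^ 2 = 2 * R1 ^ 2)
    (hh1 : h1 = (1 + R1) ^ 2 - v1 ^ 2 + e * lam * S1 * v1)
    (hu1 : 2 * h1 - 2 * N ^ 2 * v1 ^ 2 = 0)
    (hR2 : 0 < R2) (hv2 : 0 < v2) (hc2 : S2 ^ 2 + v2 ^ 2 = 2 * R2 ^ 2)
    (hh2 : h2 = (1 + R2) ^ 2 - v2 ^ 2 + e * lam * S2 * v2)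
    (hu2 : 2 * h2 - 2 * N ^ 2 * v2 ^ 2 = 0) (ha2 : 0 < S2 * cb + e * v2 * sb)
    (hle : S2 / v2 ≤ S1 / v1) : h2 ≤ h1 := by
  obtain ⟨p1, q1⟩ := gamma_data hv1 hc1 hh1 P.N2 hu1
  obtain ⟨p2, q2⟩ := gamma_data hv2 hc2 hh2 P.N2 hu2
  have hcb := P.cb0
  have htau2 : -(e * (sb / cb)) < S2 / v2 := by
    rw [lt_div_iff₀ hv2]
    have : -(e * (sb / cb)) * v2 = -(e * v2 * sb) / cb := by field_simp
    rw [this, div_lt_iff₀ hcb]
    linarith
  set t1 := S1 / v1 with ht1
  set t2 := S2 / v2 with ht2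
  -- the function f
  set f : ℝ → ℝ := fun y => Real.sqrt (2 + lam ^ 2 - e * lam * y) - Real.sqrt ((1 + y ^ 2) / 2)
    with hf
  have hpos1 : 0 < 2 + lam ^ 2 - e * lam * t1 := by rw [← p1]; positivity
  have hpos2 : 0 < 2 + lam ^ 2 - e * lam * t2 := by rw [← p2]; positivity
  have hposI : ∀ y ∈ Icc t2 t1, 0 < 2 + lam ^ 2 - e * lam * y := by
    intro y hy
    rcases e_cases he with h | h
    · subst h
      have := mul_le_mul_of_nonneg_left hy.2 P.lam0.le
      linarith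
    · subst h
      have := mul_le_mul_of_nonneg_left hy.1 P.lam0.le
      linarith
  have hd : ∀ y ∈ Icc t2 t1, HasDerivAt f (-(e * lam) / (2 * Real.sqrt (2 + lam ^ 2 - e * lam * y))
      - y / (2 * Real.sqrt ((1 + y ^ 2) / 2))) y := by
    intro y hy
    have ha : HasDerivAt (fun y => 2 + lam ^ 2 - e * lam * y) (-(e * lam)) y := by
      have := ((hasDerivAt_id y).const_mul (e * lam)).const_sub (2 + lam ^ 2)
      simpa using this
    have hb : HasDerivAt (fun y : ℝ => (1 + y ^ 2) / 2) y y := by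
      have := (((hasDerivAt_id y).pow 2).const_add 1).div_const 2
      refine this.congr_deriv ?_
      simp
    have h3 := (ha.sqrt (hposI y hy).ne').sub (hb.sqrt (by positivity))
    exact h3
  have hanti : AntitoneOn f (Icc t2 t1) := by
    apply antitoneOn_of_deriv_nonpos (convex_Icc _ _)
      (fun y hy => (hd y hy).continuousAt.continuousWithinAt)
      (fun y hy => (hd y (interior_subset hy)).differentiableAt.differentiableWithinAt)
    intro y hy
    rw [interior_Icc] at hy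
    have hyI : y ∈ Icc t2 t1 := Ioo_subset_Icc_self hy
    rw [(hd y hyI).deriv]
    set r := Real.sqrt (2 + lam ^ 2 - e * lam * y) with hr
    set n := Real.sqrt ((1 + y ^ 2) / 2) with hn
    have hr0 : 0 < r := Real.sqrt_pos.2 (hposI y hyI)
    have hn0 : 0 < n := Real.sqrt_pos.2 (by positivity)
    have hr2 : r ^ 2 = 2 + lam ^ 2 - e * lam * y := Real.sq_sqrt (hposI y hyI).le
    have hn2 : 2 * n ^ 2 = 1 + y ^ 2 := by
      rw [hn, Real.sq_sqrt (by positivity)]; ring
    have := gam_pos P he hr0 hn0 hr2 hn2 (htau2.trans_le hyI.1)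
    have h4 : -(e * lam) / (2 * r) - y / (2 * n) = -((y * r + e * lam * n) / (2 * r * n)) := by
      field_simp; ring
    rw [h4]
    have : 0 < (y * r + e * lam * n) / (2 * r * n) := by positivity
    linarith
  have hfle : f t1 ≤ f t2 := hanti ⟨le_rfl, hle⟩ ⟨hle, le_rfl⟩ hle
  have hf1 : f t1 = 1 / v1 := by
    simp only [hf]
    rw [← p1, Real.sqrt_sq (by positivity), show (1 + t1 ^ 2) / 2 = (R1 / v1) ^ 2 by linarith,
      Real.sqrt_sq (by positivity)]
    ring
  have hf2 : f t2 = 1 / v2 := by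
    simp only [hf]
    rw [← p2, Real.sqrt_sq (by positivity), show (1 + t2 ^ 2) / 2 = (R2 / v2) ^ 2 by linarith,
      Real.sqrt_sq (by positivity)]
    ring
  rw [hf1, hf2, one_div_le_one_div hv1 hv2] at hfle
  have e1 : h1 = N ^ 2 * v1 ^ 2 := by linarith
  have e2 : h2 = N ^ 2 * v2 ^ 2 := by linarith
  rw [e1, e2]
  have := pow_le_pow_left₀ hv2.le hfle 2
  exact mul_le_mul_of_nonneg_left this (sq_nonneg N)

end B92.KC
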