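import Mathlib
import Pool.Agent.Lib.B92KC.Par

/-!
# MP_b92fc8_an, case kappa < -1 : the primitives `T` and `Z` (closed form) along any curve
-/

set_option autoImplicit false

open Set Filter Topology

noncomputable section

namespace B92.KC

/-- `T` up to a function of `h`. -/
def Th (N sb cb e R a b : ℝ) : ℝ :=
  1 / (2 * N) * (e * sb * Real.log (1 + N * R + N * b) - cb * Real.log (1 - N * R + N * a))

/-- `Z`. -/
def Zh (N lam sb cb e h R S v a b : ℝ) : ℝ :=
  5 / (2 * N ^ 2) * (e * sb * (1 + N * (h - 1)) * Real.log (1 + N * R + N * b)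
    + cb * (1 - N * (h - 1)) * Real.log (1 - N * R + N * a))
  - R * S / 2 - e * lam * R * v - (1 + 5 / (2 * N ^ 2)) * S - 5 * e * lam / (2 * N ^ 2) * v

variable {c mu lam N sb cb r2 : ℝ}

/-- Derivative of `Th` along a curve. -/
theorem hasDerivAt_Th {e : ℝ} {R a b : ℝ → ℝ} {R' a' b' t : ℝ}
    (hR : HasDerivAt R R' t) (ha : HasDerivAt a a' t) (hb : HasDerivAt b b' t)
    (hF : 0 < 1 - N * R t + N * a t) (hG : 0 < 1 + N * R t + N * b t) :
    HasDerivAt (fun s => Th N sb cb e (R s) (a s) (b s))
      (1 / (2 * N) * (e * sb * ((N * R' + N * b') / (1 + N * R t + N * b t))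
        - cb * ((-(N * R') + N * a') / (1 - N * R t + N * a t)))) t := by
  have h1 : HasDerivAt (fun s => 1 + N * R s + N * b s) (N * R' + N * b') t := by
    have := ((hR.const_mul N).const_add 1).add (hb.const_mul N)
    exact this
  have h2 : HasDerivAt (fun s => 1 - N * R s + N * a s) (-(N * R') + N * a') t := by
    have := ((hR.const_mul N).const_sub 1).add (ha.const_mul N)
    exact this
  have h3 := h1.log hG.ne'
  have h4 := h2.log hF.ne'
  have h5 := ((h3.const_mul (e * sb)).sub (h4.const_mul cb)).const_mul (1 / (2 * N))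
  exact h5

/-- Derivative of `Zh` along a curve on the cone. -/
theorem hasDerivAt_Zh (P : Par c mu lam N sb cb r2) {e : ℝ} (he : e ^ 2 = 1)
    {h R S v a b : ℝ → ℝ} {h' R' S' v' a' b' t : ℝ}
    (hh : HasDerivAt h h' t)
    (hR : HasDerivAt R R' t) (hS : HasDerivAt S S' t) (hv : HasDerivAt v v' t)
    (ha : HasDerivAt a a' t) (hb : HasDerivAt b b' t)
    (ea : a' = S' * cb + e * v' * sb) (eb : b' = v' * cb - e * S' * sb)
    (ea0 : a t = S t * cb + e * v t * sb) (eb0 : b t = v t * cb - e * S t * sb)
    (e1 : h t = 1 + 2 * R t - N * R t ^ 2 + N * a t ^ 2)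
    (e2 : a t ^ 2 + b t ^ 2 = 2 * R t ^ 2)
    (e3 : h' = 2 * R' - 2 * N * R t * R' + 2 * N * a t * a')
    (e4 : a t * a' + b t * b' = 2 * R t * R')
    (hF : 0 < 1 - N * R t + N * a t) (hG : 0 < 1 + N * R t + N * b t) :
    HasDerivAt (fun s => Zh N lam sb cb e (h s) (R s) (S s) (v s) (a s) (b s))
      ((5 * Th N sb cb e (R t) (a t) (b t) - 5 / (4 * N) * (cb - e * sb)) * h'
        + (2 * R' * S t - 3 * R t * S' - e * lam * (R' * v t + R t * v') - S')) t := by
  have hN := P.N0
  have h1 : HasDerivAt (fun s => 1 + N * R s + N * b s) (N * R' + N * b') t := by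
    have := ((hR.const_mul N).const_add 1).add (hb.const_mul N)
    exact this
  have h2 : HasDerivAt (fun s => 1 - N * R s + N * a s) (-(N * R') + N * a') t := by
    have := ((hR.const_mul N).const_sub 1).add (ha.const_mul N)
    exact this
  have h3 := h1.log hG.ne'
  have h4 := h2.log hF.ne'
  have h5 : HasDerivAt (fun s => e * sb * (1 + N * (h s - 1))) (e * sb * (N * h')) t :=
    (((hh.sub_const 1).const_mul N).const_add 1).const_mul (e * sb)
  have h6 : HasDerivAt (fun s => cb * (1 - N * (h s - 1))) (cb * (-(N * h'))) t :=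
    (((hh.sub_const 1).const_mul N).const_sub 1).const_mul cb
  have h7 := ((h5.mul h3).add (h6.mul h4)).const_mul (5 / (2 * N ^ 2))
  have h8 := (((h7.sub ((hR.mul hS).div_const 2)).sub ((hR.const_mul (e * lam)).mul hv)).sub
    (hS.const_mul (1 + 5 / (2 * N ^ 2)))).sub (hv.const_mul (5 * e * lam / (2 * N ^ 2)))
  refine h8.congr_deriv ?_
  -- products
  have p1 : 1 + N * (h t - 1) = (1 + N * R t + N * b t) * (1 + N * R t - N * b t) := by
    rw [e1]; linear_combination (N ^ 2) * e2
  have p2 : 1 - N * (h t - 1) = (1 - N * R t + N * a t) * (1 - N * R t - N * a t) := by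
    rw [e1]; ring
  have q1 : (1 + N * (h t - 1)) * ((N * R' + N * b') / (1 + N * R t + N * b t))
      = (1 + N * R t - N * b t) * (N * R' + N * b') := by
    rw [p1]; field_simp
  have q2 : (1 - N * (h t - 1)) * ((-(N * R') + N * a') / (1 - N * R t + N * a t))
      = (1 - N * R t - N * a t) * (-(N * R') + N * a') := by
    rw [p2]; field_simp
  simp only [Th]
  set LG := Real.log (1 + N * R t + N * b t) with hLG
  set LF := Real.log (1 - N * R t + N * a t) with hLF
  set dG := (N * R' + N * b') / (1 + N * R t + N * b t) with hdG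
  set dF := (-(N * R') + N * a') / (1 - N * R t + N * a t) with hdF
  -- the polynomial identity
  have hS0 : S t = a t * cb - e * b t * sb := by
    rw [ea0, eb0]; linear_combination (-(S t)) * P.cs - (sb ^ 2 * S t) * he
  have hM : N * (cb * a' + e * sb * b') = S' + e * lam * v' := by
    rw [ea, eb, P.lam']
    linear_combination (S') * P.Ncs - (N * sb ^ 2 * S') * he
  have hS1 : S' = a' * cb - e * b' * sb := by
    rw [ea, eb]; linear_combination (-(S')) * P.cs - (sb ^ 2 * S') * he
  have key : 5 / (2 * N ^ 2) * (e * sb * ((1 + N * R t - N * b t) * (N * R' + N * b'))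
      + cb * ((1 - N * R t - N * a t) * (-(N * R') + N * a')))
      = 5 / (2 * N ^ 2) * (S' + e * lam * v') + 5 / 2 * (R' * S t - R t * S')
        - 5 / (4 * N) * (cb - e * sb) * h' := by
    rw [← hM, hS1, hS0, e3]
    field_simp
    linear_combination (-(4 * N * e * sb)) * e4
  have expand : 5 / (2 * N ^ 2) * (e * sb * (N * h') * LG + e * sb * (1 + N * (h t - 1)) * dG
      + (cb * (-(N * h')) * LF + cb * (1 - N * (h t - 1)) * dF))
      = 5 * (1 / (2 * N) * (e * sb * LG - cb * LF)) * h'
        + 5 / (2 * N ^ 2) * (e * sb * ((1 + N * R t - N * b t) * (N * R' + N * b'))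
          + cb * ((1 - N * R t - N * a t) * (-(N * R') + N * a'))) := by
    rw [← q1, ← q2]
    field_simp
    ring
  rw [expand, key]
  field_simp
  ring

end B92.KC
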