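import Mathlib
import Pool.Agent.Lib.B92KC.Par
import Pool.Agent.Lib.B92KC.Prim

/-!
# MP_b92fc8_an, case kappa < -1 : the base point on ray a
-/

set_option autoImplicit false

open Set Filter Topology

noncomputable section

namespace B92.KC

variable {c mu lam N sb cb r2 : ℝ}

/-- `R` at the base. -/
def ra (h : ℝ) : ℝ := Real.sqrt h - 1

/-- `T` at the base. -/
def Tb (N sb cb r2 e h : ℝ) : ℝ := Th N sb cb e (ra h) (r2 * ra h * cb) (-(e * (r2 * ra h) * sb))

/-- `Z` at the base. -/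
def Zb (N lam sb cb r2 e h : ℝ) : ℝ :=
  Zh N lam sb cb e h (ra h) (r2 * ra h) 0 (r2 * ra h * cb) (-(e * (r2 * ra h) * sb))

/-- `T` of a point. -/
def TT (N sb cb r2 e h R a b : ℝ) : ℝ := Th N sb cb e R a b - Tb N sb cb r2 e h

/-- `z` of a point. -/
def ZZ (N lam sb cb r2 e h R a b : ℝ) : ℝ :=
  Zh N lam sb cb e h R (a * cb - e * b * sb) (b * cb + e * a * sb) a b - Zb N lam sb cb r2 e h

theorem ra_pos {h : ℝ} (hh : 1 < h) : 0 < ra h := by
  have : Real.sqrt 1 < Real.sqrt h := Real.sqrt_lt_sqrt (by norm_num) hh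
  rw [Real.sqrt_one] at this
  unfold ra; linarith

theorem ra_sq {h : ℝ} (hh : 1 < h) : (1 + ra h) ^ 2 = h := by
  unfold ra
  rw [show 1 + (Real.sqrt h - 1) = Real.sqrt h by ring]
  exact Real.sq_sqrt (by linarith)

theorem Par.r2cb (P : Par c mu lam N sb cb r2) : 1 < r2 * cb := by
  have h1 := P.cb2
  have h2 := P.r22
  have h3 := P.N0
  have h4 : 0 < r2 * cb := mul_pos P.r20 P.cb0
  have h5 : (r2 * cb) ^ 2 * N = N + 1 := by
    linear_combination (cb ^ 2 * N) * h2 + h1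
  by_contra hcon
  push Not at hcon
  have h6 : (r2 * cb) ^ 2 ≤ 1 := by nlinarith
  nlinarith

theorem Par.r2sb (P : Par c mu lam N sb cb r2) : r2 * sb < 1 := by
  have h1 := P.sb2
  have h2 := P.r22
  have h3 := P.N0
  have h4 : 0 < r2 * sb := mul_pos P.r20 P.sb0
  have h5 : (r2 * sb) ^ 2 * N = N - 1 := by
    linear_combination (sb ^ 2 * N) * h2 + h1
  by_contra hcon
  push Not at hcon
  nlinarith [mul_self_nonneg (r2 * sb - 1)]

theorem base_F (P : Par c mu lam N sb cb r2) {x : ℝ} (hx : 0 ≤ x) :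
    0 < 1 - N * x + N * (r2 * x * cb) := by
  have h1 := P.r2cb
  have h2 := P.N0
  have : 1 - N * x + N * (r2 * x * cb) = 1 + N * x * (r2 * cb - 1) := by ring
  rw [this]
  have : 0 ≤ N * x * (r2 * cb - 1) := by
    apply mul_nonneg (by positivity); linarith
  linarith

theorem base_G (P : Par c mu lam N sb cb r2) {e : ℝ} (he : e ^ 2 = 1) {x : ℝ} (hx : 0 ≤ x) :
    0 < 1 + N * x + N * (-(e * (r2 * x) * sb)) := by
  have h1 := P.r2sb
  have h2 := P.N0
  have h4 : 0 < r2 * sb := mul_pos P.r20 P.sb0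
  have h5 : e ≤ 1 := by nlinarith [sq_nonneg (e - 1)]
  have : 1 + N * x + N * (-(e * (r2 * x) * sb)) = 1 + N * x * (1 - e * (r2 * sb)) := by ring
  rw [this]
  have : 0 ≤ N * x * (1 - e * (r2 * sb)) := by
    apply mul_nonneg (by positivity)
    nlinarith
  linarith

/-- The base point is on the cone. -/
theorem base_cone (P : Par c mu lam N sb cb r2) {e : ℝ} (he : e ^ 2 = 1) (x : ℝ) :
    (r2 * x * cb) ^ 2 + (-(e * (r2 * x) * sb)) ^ 2 = 2 * x ^ 2 := by
  linear_combination (2 * x ^ 2) * P.cs + (x ^ 2 * (cb ^ 2 + e ^ 2 * sb ^ 2)) * P.r22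
    + (2 * x ^ 2 * sb ^ 2) * he

/-- The level of the base point. -/
theorem base_lev (P : Par c mu lam N sb cb r2) (x : ℝ) :
    (1 + x) ^ 2 = 1 + 2 * x - N * x ^ 2 + N * (r2 * x * cb) ^ 2 := by
  linear_combination (-(x ^ 2 * N * cb ^ 2)) * P.r22 - (x ^ 2) * P.cb2

theorem base_S (P : Par c mu lam N sb cb r2) {e : ℝ} (he : e ^ 2 = 1) (x : ℝ) :
    (r2 * x * cb) * cb - e * (-(e * (r2 * x) * sb)) * sb = r2 * x := by
  linear_combination (r2 * x) * P.cs + (r2 * x * sb ^ 2) * he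

theorem base_v (x e : ℝ) :
    (-(e * (r2 * x) * sb)) * cb + e * (r2 * x * cb) * sb = 0 := by ring

theorem hasDerivAt_ra {h : ℝ} (hh : 1 < h) : HasDerivAt ra (1 / (2 * (1 + ra h))) h := by
  have h1 : HasDerivAt (fun h => Real.sqrt h - 1) (1 / (2 * Real.sqrt h)) h :=
    (Real.hasDerivAt_sqrt (by linarith)).sub_const 1
  have h2 : 1 + ra h = Real.sqrt h := by unfold ra; ring
  rw [h2]; exact h1

theorem continuousAt_ra (h : ℝ) : ContinuousAt ra h := by
  unfold ra
  fun_prop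

/-- Continuity of `Tb`. -/
theorem hasDerivAt_Tb (P : Par c mu lam N sb cb r2) {e : ℝ} (he : e ^ 2 = 1) {h : ℝ} (hh : 1 < h) :
    ∃ d, HasDerivAt (Tb N sb cb r2 e) d h := by
  have h1 := hasDerivAt_ra hh
  have h2 := ((h1.const_mul r2).mul_const cb)
  have h3 := (((h1.const_mul r2).const_mul e).mul_const sb).neg
  exact ⟨_, hasDerivAt_Th h1 h2 h3 (base_F P (ra_pos hh).le) (base_G P he (ra_pos hh).le)⟩

theorem continuousAt_Tb (P : Par c mu lam N sb cb r2) {e : ℝ} (he : e ^ 2 = 1) {h : ℝ}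
    (hh : 1 < h) : ContinuousAt (Tb N sb cb r2 e) h := by
  obtain ⟨d, hd⟩ := hasDerivAt_Tb P he hh
  exact hd.continuousAt

/-- Derivative of `Zb`. -/
theorem hasDerivAt_Zb (P : Par c mu lam N sb cb r2) {e : ℝ} (he : e ^ 2 = 1) {h : ℝ} (hh : 1 < h) :
    HasDerivAt (Zb N lam sb cb r2 e)
      (5 * Tb N sb cb r2 e h - 5 / (4 * N) * (cb - e * sb) - 1 / r2) h := by
  have h1 := hasDerivAt_ra hh
  have h2 := ((h1.const_mul r2).mul_const cb)
  have h3 := (((h1.const_mul r2).const_mul e).mul_const sb).neg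
  have hp := ra_pos hh
  have hsq := ra_sq hh
  have hr2 := P.r20.ne'
  have hr22 := P.r22
  have hd : (1 + ra h) ≠ 0 := by positivity
  have key := hasDerivAt_Zh P he (h := fun x => x) (R := ra) (S := fun x => r2 * ra x)
    (v := fun _ => 0) (a := fun x => r2 * ra x * cb) (b := fun x => -(e * (r2 * ra x) * sb))
    (hasDerivAt_id h) h1 (h1.const_mul r2) (hasDerivAt_const h 0) h2 h3
    (by ring) (by ring) (by ring) (by ring)
    (by linear_combination base_lev P (ra h) - hsq)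
    (base_cone P he _)
    (by
      field_simp
      linear_combination (-N * cb ^ 2 * ra h) * hr22 - (ra h) * P.cb2)
    (by
      field_simp
      linear_combination 2 * P.cs + (cb ^ 2 + e ^ 2 * sb ^ 2) * hr22
        + (2 * sb ^ 2) * he)
    (base_F P hp.le) (base_G P he hp.le)
  refine key.congr_deriv ?_
  simp only [Tb]
  have e1 : 2 * (1 / (2 * (1 + ra h))) * (r2 * ra h) - 3 * ra h * (r2 * (1 / (2 * (1 + ra h))))
      - e * lam * (1 / (2 * (1 + ra h)) * 0 + ra h * 0) - r2 * (1 / (2 * (1 + ra h)))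
      = -(1 / r2) := by
    field_simp
    linear_combination (-(1 + ra h)) * hr22
  rw [e1]; ring

end B92.KC
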