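import Mathlib
import Pool.Agent.Lib.B92KC.Par
import Pool.Agent.Lib.B92KC.Prim

/-!
# MP_b92fc8_an, case kappa < -1 : `T` and `Z` along a level curve
-/

set_option autoImplicit false

open Set Filter Topology

noncomputable section

namespace B92.KC

variable {c mu lam N sb cb r2 : ℝ}

/-- Along a curve tangent to the Hamiltonian field, with factor `rho`, `Th' = rho v`. -/
theorem tan_Th (P : Par c mu lam N sb cb r2) {e rho : ℝ} {R a b : ℝ → ℝ} {t : ℝ}
    (hR : HasDerivAt R (rho * (2 * N * a t * b t)) t)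
    (ha : HasDerivAt a (rho * (-2 * b t * (1 - N * R t))) t)
    (hb : HasDerivAt b (rho * (2 * a t * (1 + N * R t))) t)
    (hF : 0 < 1 - N * R t + N * a t) (hG : 0 < 1 + N * R t + N * b t) :
    HasDerivAt (fun s => Th N sb cb e (R s) (a s) (b s)) (rho * (b t * cb + e * a t * sb)) t := by
  have hN := P.N0.ne'
  refine (hasDerivAt_Th (N := N) (sb := sb) (cb := cb) (e := e) hR ha hb hF hG).congr_deriv ?_
  have h1 : N * (rho * (2 * N * a t * b t)) + N * (rho * (2 * a t * (1 + N * R t)))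
      = 2 * N * rho * a t * (1 + N * R t + N * b t) := by ring
  have h2 : -(N * (rho * (2 * N * a t * b t))) + N * (rho * (-2 * b t * (1 - N * R t)))
      = -(2 * N * rho * b t) * (1 - N * R t + N * a t) := by ring
  rw [h1, h2, mul_div_assoc, div_self hG.ne', mul_div_assoc, div_self hF.ne']
  field_simp
  ring

/-- Along a curve tangent to the Hamiltonian field, `Zh' = rho v u`. -/
theorem tan_Zh (P : Par c mu lam N sb cb r2) {e rho h : ℝ} (he : e ^ 2 = 1) {R a b : ℝ → ℝ} {t : ℝ}
    (hR : HasDerivAt R (rho * (2 * N * a t * b t)) t)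
    (ha : HasDerivAt a (rho * (-2 * b t * (1 - N * R t))) t)
    (hb : HasDerivAt b (rho * (2 * a t * (1 + N * R t))) t)
    (e1 : h = 1 + 2 * R t - N * R t ^ 2 + N * a t ^ 2)
    (e2 : a t ^ 2 + b t ^ 2 = 2 * R t ^ 2)
    (hF : 0 < 1 - N * R t + N * a t) (hG : 0 < 1 + N * R t + N * b t) :
    HasDerivAt (fun s => Zh N lam sb cb e h (R s) (a s * cb - e * b s * sb)
        (b s * cb + e * a s * sb) (a s) (b s))
      (rho * (b t * cb + e * a t * sb)
        * (2 * h - 2 * N ^ 2 * (b t * cb + e * a t * sb) ^ 2)) t := by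
  have hN := P.N0.ne'
  have hS := (ha.mul_const cb).sub ((hb.const_mul e).mul_const sb)
  have hv := (hb.mul_const cb).add ((ha.const_mul e).mul_const sb)
  have hcs := P.cs
  have key := hasDerivAt_Zh P he (h := fun _ => h) (S := fun s => a s * cb - e * b s * sb)
    (v := fun s => b s * cb + e * a s * sb) (hasDerivAt_const t h) hR hS hv ha hb
    (by linear_combination (-(rho * (-2 * b t * (1 - N * R t)))) * hcs
          - (rho * (-2 * b t * (1 - N * R t))) * sb ^ 2 * he)
    (by linear_combination (-(rho * (2 * a t * (1 + N * R t)))) * hcs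
          - (rho * (2 * a t * (1 + N * R t))) * sb ^ 2 * he)
    (by linear_combination (-(a t)) * hcs - (a t) * sb ^ 2 * he)
    (by linear_combination (-(b t)) * hcs - (b t) * sb ^ 2 * he)
    e1 e2 (by ring) (by ring) hF hG
  refine key.congr_deriv ?_
  have h1 := P.cb2
  have h2 := P.sb2
  have h3 := P.lamsb
  have h4 := P.lamcb
  have h5 := P.lam'
  have hN1 := P.Ncs
  have hN2 := P.N2
  obtain ⟨S, hSd⟩ : ∃ S, S = a t * cb - e * b t * sb := ⟨_, rfl⟩
  obtain ⟨v, hvd⟩ : ∃ v, v = b t * cb + e * a t * sb := ⟨_, rfl⟩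
  have k1 : N * (a t * cb + e * b t * sb) = S + e * lam * v := by
    rw [hSd, hvd]
    linear_combination (-(a t)) * h3 - (e * b t) * h4 - (a t * lam * sb) * he
  have k2 : N * (b t * cb - e * a t * sb) = v - e * lam * S := by
    rw [hSd, hvd]
    linear_combination (-(b t)) * h3 + (e * a t) * h4 - (b t * lam * sb) * he
  have k3 : 2 * N * a t * b t = 2 * S * v + e * lam * (v ^ 2 - S ^ 2) := by
    linear_combination v * k1 + S * k2 - (N * (a t * cb + e * b t * sb)) * hvd
      - (N * (b t * cb - e * a t * sb)) * hSd - (2 * N * a t * b t) * hcs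
      - (2 * N * a t * b t * sb ^ 2) * he
  have k4 : 2 * R t ^ 2 = S ^ 2 + v ^ 2 := by
    rw [hSd, hvd]
    linear_combination (-1 : ℝ) * e2 - (a t ^ 2 + b t ^ 2) * hcs
      - ((a t ^ 2 + b t ^ 2) * sb ^ 2) * he
  have k5 : h = (1 + R t) ^ 2 - v ^ 2 + e * lam * S * v := by
    linear_combination e1 - v * k2 + (N * (b t * cb - e * a t * sb)) * hvd
      + (b t ^ 2 / 2) * h1 - (a t ^ 2 / 2) * h2 + ((N + 1) / 2) * e2
      - (N * a t ^ 2 * sb ^ 2) * he
  have k6 : rho * (-2 * b t * (1 - N * R t)) * cb - e * (rho * (2 * a t * (1 + N * R t))) * sb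
      = rho * (-2 * v + 2 * R t * (v - e * lam * S)) := by
    rw [← k2, hvd]; ring
  have k7 : rho * (2 * a t * (1 + N * R t)) * cb + e * (rho * (-2 * b t * (1 - N * R t))) * sb
      = rho * (2 * S + 2 * R t * (S + e * lam * v)) := by
    rw [← k1, hSd]; ring
  rw [← hSd, ← hvd, k6, k7, k5, hN2]
  have k8 : rho * (2 * N * a t * b t) = rho * (2 * S * v + e * lam * (v ^ 2 - S ^ 2)) := by
    rw [k3]
  rw [k8]
  linear_combination (rho * (-4 * v + 2 * e * lam * S - e ^ 2 * lam ^ 2 * v)) * k4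
    - (rho * 2 * lam ^ 2 * v ^ 3) * he

end B92.KC
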