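import Mathlib
import Pool.Agent.Lib.B92KC.Base
import Pool.Agent.Lib.B92KC.Tan
import Pool.Agent.Lib.B92.Slice

/-!
# MP_b92fc8_an, case kappa < -1 : slices (parts of level curves of `h`)
-/

set_option autoImplicit false

open Set Filter Topology

noncomputable section

namespace B92.KC

variable {c mu lam N sb cb r2 : ℝ}

/-- A parametrised piece of a level curve of `h`, in the sector `e`, from ray a. -/
structure Slc (N sb cb r2 e h x0 x1 : ℝ) (R a b rho : ℝ → ℝ) : Prop where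
  lt : x0 < x1
  cR : ContinuousOn R (Icc x0 x1)
  ca : ContinuousOn a (Icc x0 x1)
  cb' : ContinuousOn b (Icc x0 x1)
  dR : ∀ x ∈ Ioo x0 x1, HasDerivAt R (rho x * (2 * N * a x * b x)) x
  da : ∀ x ∈ Ioo x0 x1, HasDerivAt a (rho x * (-2 * b x * (1 - N * R x))) x
  db : ∀ x ∈ Ioo x0 x1, HasDerivAt b (rho x * (2 * a x * (1 + N * R x))) x
  rho0 : ∀ x ∈ Ioo x0 x1, 0 < rho x
  cone : ∀ x ∈ Icc x0 x1, a x ^ 2 + b x ^ 2 = 2 * R x ^ 2
  lev : ∀ x ∈ Icc x0 x1, h = 1 + 2 * R x - N * R x ^ 2 + N * a x ^ 2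
  R0 : ∀ x ∈ Icc x0 x1, 0 < R x
  F0 : ∀ x ∈ Icc x0 x1, 0 < 1 - N * R x + N * a x
  v0 : ∀ x ∈ Ioo x0 x1, 0 < b x * cb + e * a x * sb
  sR : R x0 = ra h
  sa : a x0 = r2 * ra h * cb
  sb' : b x0 = -(e * (r2 * ra h) * sb)

theorem G_pos {N R a b h : ℝ} (hN : 0 < N) (hR : 0 < R) (hh : 1 < h)
    (hc : a ^ 2 + b ^ 2 = 2 * R ^ 2)
    (hl : h = 1 + 2 * R - N * R ^ 2 + N * a ^ 2) : 0 < 1 + N * R + N * b := by
  have h1 : (1 + N * R + N * b) * (1 + N * R - N * b) = 1 + N * (h - 1) := by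
    rw [hl]; linear_combination (-(N ^ 2)) * hc
  have h2 : 0 < 1 + N * (h - 1) := by
    have : 0 < N * (h - 1) := mul_pos hN (by linarith)
    linarith
  have h3 : 0 < (1 + N * R + N * b) + (1 + N * R - N * b) := by
    have : 0 < N * R := mul_pos hN hR
    linarith
  by_contra hcon
  push Not at hcon
  have h4 : 0 < 1 + N * R - N * b := by linarith
  nlinarith

section

variable {e h x0 x1 : ℝ} {R a b rho : ℝ → ℝ}

/-- Restriction of a slice. -/
theorem Slc.restrict (s : Slc N sb cb r2 e h x0 x1 R a b rho) {x : ℝ} (hx : x ∈ Ioc x0 x1) :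
    Slc N sb cb r2 e h x0 x R a b rho := by
  have hs : Icc x0 x ⊆ Icc x0 x1 := Icc_subset_Icc_right hx.2
  have ho : Ioo x0 x ⊆ Ioo x0 x1 := Ioo_subset_Ioo_right hx.2
  exact ⟨hx.1, s.cR.mono hs, s.ca.mono hs, s.cb'.mono hs, fun y hy => s.dR y (ho hy),
    fun y hy => s.da y (ho hy), fun y hy => s.db y (ho hy), fun y hy => s.rho0 y (ho hy),
    fun y hy => s.cone y (hs hy), fun y hy => s.lev y (hs hy), fun y hy => s.R0 y (hs hy),
    fun y hy => s.F0 y (hs hy), fun y hy => s.v0 y (ho hy), s.sR, s.sa, s.sb'⟩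

theorem Slc.G0 (s : Slc N sb cb r2 e h x0 x1 R a b rho) (P : Par c mu lam N sb cb r2)
    (hh : 1 < h) : ∀ x ∈ Icc x0 x1, 0 < 1 + N * R x + N * b x := fun x hx =>
  G_pos P.N0 (s.R0 x hx) hh (s.cone x hx) (s.lev x hx)

/-- `T` along a slice. -/
def sT (N sb cb r2 e h : ℝ) (R a b : ℝ → ℝ) (x : ℝ) : ℝ := TT N sb cb r2 e h (R x) (a x) (b x)

/-- `z` along a slice. -/
def sZ (N lam sb cb r2 e h : ℝ) (R a b : ℝ → ℝ) (x : ℝ) : ℝ :=
  ZZ N lam sb cb r2 e h (R x) (a x) (b x)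

/-- `v` along a slice. -/
def sv (sb cb e : ℝ) (a b : ℝ → ℝ) (x : ℝ) : ℝ := b x * cb + e * a x * sb

theorem Slc.T_start (s : Slc N sb cb r2 e h x0 x1 R a b rho) :
    sT N sb cb r2 e h R a b x0 = 0 := by
  simp only [sT, TT, Tb, s.sR, s.sa, s.sb', sub_self]

theorem Slc.Z_start (s : Slc N sb cb r2 e h x0 x1 R a b rho) (P : Par c mu lam N sb cb r2)
    (he : e ^ 2 = 1) : sZ N lam sb cb r2 e h R a b x0 = 0 := by
  simp only [sZ, ZZ, Zb, s.sR, s.sa, s.sb']
  rw [base_S P he, base_v, sub_self]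

theorem Slc.T_cont (s : Slc N sb cb r2 e h x0 x1 R a b rho) (P : Par c mu lam N sb cb r2)
    (hh : 1 < h) : ContinuousOn (sT N sb cb r2 e h R a b) (Icc x0 x1) := by
  have hG := s.G0 P hh
  have hF := s.F0
  have c1 := s.cR
  have c2 := s.ca
  have c3 := s.cb'
  have hlogG : ContinuousOn (fun x => Real.log (1 + N * R x + N * b x)) (Icc x0 x1) :=
    ContinuousOn.log (by fun_prop) fun x hx => (hG x hx).ne'
  have hlogF : ContinuousOn (fun x => Real.log (1 - N * R x + N * a x)) (Icc x0 x1) :=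
    ContinuousOn.log (by fun_prop) fun x hx => (hF x hx).ne'
  show ContinuousOn (fun x => 1 / (2 * N) * (e * sb * Real.log (1 + N * R x + N * b x)
    - cb * Real.log (1 - N * R x + N * a x)) - Tb N sb cb r2 e h) (Icc x0 x1)
  fun_prop

theorem Slc.Z_cont (s : Slc N sb cb r2 e h x0 x1 R a b rho) (P : Par c mu lam N sb cb r2)
    (hh : 1 < h) : ContinuousOn (sZ N lam sb cb r2 e h R a b) (Icc x0 x1) := by
  have hG := s.G0 P hh
  have hF := s.F0
  have c1 := s.cR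
  have c2 := s.ca
  have c3 := s.cb'
  have hlogG : ContinuousOn (fun x => Real.log (1 + N * R x + N * b x)) (Icc x0 x1) :=
    ContinuousOn.log (by fun_prop) fun x hx => (hG x hx).ne'
  have hlogF : ContinuousOn (fun x => Real.log (1 - N * R x + N * a x)) (Icc x0 x1) :=
    ContinuousOn.log (by fun_prop) fun x hx => (hF x hx).ne'
  unfold sZ ZZ Zh
  fun_prop

theorem Slc.T_deriv (s : Slc N sb cb r2 e h x0 x1 R a b rho) (P : Par c mu lam N sb cb r2)
    (hh : 1 < h) : ∀ x ∈ Ioo x0 x1,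
      HasDerivAt (sT N sb cb r2 e h R a b) (rho x * sv sb cb e a b x) x := by
  intro x hx
  have hx' := Ioo_subset_Icc_self hx
  exact (tan_Th P (s.dR x hx) (s.da x hx) (s.db x hx) (s.F0 x hx')
    (s.G0 P hh x hx')).sub_const _

theorem Slc.Z_deriv (s : Slc N sb cb r2 e h x0 x1 R a b rho) (P : Par c mu lam N sb cb r2)
    (he : e ^ 2 = 1) (hh : 1 < h) : ∀ x ∈ Ioo x0 x1,
      HasDerivAt (sZ N lam sb cb r2 e h R a b)
        ((2 * h - 2 * N ^ 2 * sv sb cb e a b x ^ 2) * (rho x * sv sb cb e a b x)) x := by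
  intro x hx
  have hx' := Ioo_subset_Icc_self hx
  refine ((tan_Zh P he (s.dR x hx) (s.da x hx) (s.db x hx) (s.lev x hx') (s.cone x hx')
    (s.F0 x hx') (s.G0 P hh x hx')).sub_const (Zb N lam sb cb r2 e h)).congr_deriv ?_
  simp only [sv]; ring

theorem Slc.T_rate (s : Slc N sb cb r2 e h x0 x1 R a b rho) : ∀ x ∈ Ioo x0 x1,
    0 < rho x * sv sb cb e a b x := fun x hx => mul_pos (s.rho0 x hx) (s.v0 x hx)

theorem Slc.T_mono (s : Slc N sb cb r2 e h x0 x1 R a b rho) (P : Par c mu lam N sb cb r2)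
    (hh : 1 < h) : StrictMonoOn (sT N sb cb r2 e h R a b) (Icc x0 x1) := by
  apply strictMonoOn_of_deriv_pos (convex_Icc _ _) (s.T_cont P hh)
  intro x hx
  rw [interior_Icc] at hx
  rw [(s.T_deriv P hh x hx).deriv]
  exact s.T_rate x hx

/-- If `u ≥ u0` on a part of the slice, then `z - u0 T` does not decrease. -/
theorem Slc.Z_mono (s : Slc N sb cb r2 e h x0 x1 R a b rho) (P : Par c mu lam N sb cb r2)
    (he : e ^ 2 = 1) (hh : 1 < h) {u0 : ℝ}
    (hu : ∀ x ∈ Ioo x0 x1, u0 ≤ 2 * h - 2 * N ^ 2 * sv sb cb e a b x ^ 2) {x y : ℝ}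
    (hx : x ∈ Icc x0 x1) (hy : y ∈ Icc x0 x1) (hxy : x ≤ y) :
    u0 * (sT N sb cb r2 e h R a b y - sT N sb cb r2 e h R a b x)
      ≤ sZ N lam sb cb r2 e h R a b y - sZ N lam sb cb r2 e h R a b x := by
  have hm : MonotoneOn (fun x => sZ N lam sb cb r2 e h R a b x - u0 * sT N sb cb r2 e h R a b x)
      (Icc x0 x1) := by
    apply monotoneOn_of_deriv_nonneg (convex_Icc _ _)
      ((s.Z_cont P hh).sub ((s.T_cont P hh).const_mul u0))
    · intro x hx
      rw [interior_Icc] at hx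
      exact ((s.Z_deriv P he hh x hx).sub
        ((s.T_deriv P hh x hx).const_mul u0)).differentiableAt.differentiableWithinAt
    · intro x hx
      rw [interior_Icc] at hx
      have h1 := ((s.Z_deriv P he hh x hx).sub ((s.T_deriv P hh x hx).const_mul u0)).deriv
      refine le_of_le_of_eq ?_ h1.symm
      rw [← sub_mul]
      exact mul_nonneg (by linarith [hu x hx]) (s.T_rate x hx).le
  have := hm hx hy hxy
  simp only at this
  linarith

end

end B92.KC
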