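import Mathlib
import Pool.Agent.Lib.B92KC.Slc
import Pool.Agent.Lib.B92KC.Geo

/-!
# MP_b92fc8_an, case kappa < -1 : slices for `h ≥ 1 + 1 / N`, parametrised by `b`
-/

set_option autoImplicit false

open Set Filter Topology

noncomputable section

namespace B92.KC

variable {c mu lam N sb cb r2 : ℝ}

/-- `1 + N R` as a function of `b`. -/
def bD (N h x : ℝ) : ℝ := Real.sqrt (1 + N * (h - 1) + N ^ 2 * x ^ 2)
def bR (N h x : ℝ) : ℝ := (bD N h x - 1) / N
def ba (N h x : ℝ) : ℝ := Real.sqrt (2 * bR N h x ^ 2 - x ^ 2)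

theorem bD_arg {N h x : ℝ} (hN : 0 < N) (hh : 1 < h) : 1 < 1 + N * (h - 1) + N ^ 2 * x ^ 2 := by
  have : 0 < N * (h - 1) := mul_pos hN (by linarith)
  have := sq_nonneg (N * x)
  nlinarith

theorem bD_sq {N h : ℝ} (x : ℝ) (hN : 0 < N) (hh : 1 < h) :
    bD N h x ^ 2 = 1 + N * (h - 1) + N ^ 2 * x ^ 2 :=
  Real.sq_sqrt (by linarith [bD_arg (x := x) hN hh])

theorem bD_gt {N h : ℝ} (x : ℝ) (hN : 0 < N) (hh : 1 < h) : 1 < bD N h x := by
  have h1 := bD_sq x hN hh
  have h2 := bD_arg (x := x) hN hh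
  have h3 : 0 ≤ bD N h x := Real.sqrt_nonneg _
  nlinarith

theorem bR_pos {N h : ℝ} (x : ℝ) (hN : 0 < N) (hh : 1 < h) : 0 < bR N h x :=
  div_pos (by linarith [bD_gt x hN hh]) hN

theorem bNR {N h : ℝ} (x : ℝ) (hN : 0 < N) : 1 + N * bR N h x = bD N h x := by
  unfold bR; field_simp; ring

theorem ba_arg {N h : ℝ} (x : ℝ) (hN : 0 < N) (hh : 1 < h) :
    N ^ 2 * (2 * bR N h x ^ 2 - x ^ 2) = (bD N h x - 2) ^ 2 + (N * (h - 1) - 1) := by
  have h1 := bD_sq x hN hh
  have h2 : N * bR N h x = bD N h x - 1 := by linarith [bNR (h := h) x hN]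
  have h3 : N ^ 2 * (2 * bR N h x ^ 2 - x ^ 2) = 2 * (N * bR N h x) ^ 2 - N ^ 2 * x ^ 2 := by ring
  rw [h3, h2]; linear_combination h1

/-- A point of the level curve with `a > 0` in the parametrisation. -/
theorem bpar_point {N h R a b : ℝ} (hN : 0 < N) (hR : 0 < R) (ha : 0 < a)
    (hc : a ^ 2 + b ^ 2 = 2 * R ^ 2) (hl : h = 1 + 2 * R - N * R ^ 2 + N * a ^ 2) :
    bR N h b = R ∧ ba N h b = a := by
  have h1 : 1 + N * (h - 1) + N ^ 2 * b ^ 2 = (1 + N * R) ^ 2 := by
    rw [hl]; linear_combination (N ^ 2) * hc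
  have h2 : 0 < N * R := mul_pos hN hR
  have h3 : bD N h b = 1 + N * R := by
    unfold bD; rw [h1]; exact Real.sqrt_sq (by linarith)
  have h4 : bR N h b = R := by unfold bR; rw [h3]; field_simp; ring
  refine ⟨h4, ?_⟩
  unfold ba
  rw [h4, show 2 * R ^ 2 - b ^ 2 = a ^ 2 by linarith]
  exact Real.sqrt_sq ha.le

theorem base_par (P : Par c mu lam N sb cb r2) {e : ℝ} (he : e ^ 2 = 1) {h : ℝ} (hh : 1 < h) :
    bR N h (-(e * (r2 * ra h) * sb)) = ra h ∧ ba N h (-(e * (r2 * ra h) * sb)) = r2 * ra h * cb := by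
  have h1 := ra_pos hh
  have h2 := P.cb0
  have h3 := P.r20
  refine bpar_point P.N0 h1 (by positivity) (base_cone P he _) ?_
  rw [← base_lev P, ra_sq hh]

/-- The sign of `v`. -/
theorem v_iff (P : Par c mu lam N sb cb r2) {e : ℝ} (he : e ^ 2 = 1) {h R a b : ℝ} (hh : 1 < h)
    (hR : 0 < R) (ha : 0 < a)
    (hc : a ^ 2 + b ^ 2 = 2 * R ^ 2) (hl : h = 1 + 2 * R - N * R ^ 2 + N * a ^ 2) :
    0 < b * cb + e * a * sb ↔ -(e * (r2 * ra h) * sb) < b := by
  have hp := ra_pos hh
  have hsq := ra_sq hh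
  have hN := P.N0
  have hcb := P.cb0
  have hsb := P.sb0
  have hr2 := P.r20
  set x0 := -(e * (r2 * ra h) * sb) with hx0
  have k1 : N * ((b * cb + e * a * sb) * (b * cb - e * a * sb)) = (R - ra h) * (2 + R + ra h) := by
    have : N * ((b * cb + e * a * sb) * (b * cb - e * a * sb)) = (1 + R) ^ 2 - h := by
      rw [hl]
      linear_combination (b ^ 2 / 2) * P.cb2 - (e ^ 2 * a ^ 2 / 2) * P.sb2
        - (a ^ 2 * (N - 1) / 2) * he + ((N + 1) / 2) * hc
    rw [this]; linear_combination hsq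
  have k2 : (R - ra h) * (2 + N * R + N * ra h) = N * (b ^ 2 - x0 ^ 2) := by
    have e1 : h = 1 + 2 * R + N * R ^ 2 - N * b ^ 2 := by rw [hl]; linear_combination N * hc
    have e2 : h = 1 + 2 * ra h + N * (ra h) ^ 2 - N * x0 ^ 2 := by
      have := base_lev P (ra h)
      have h3 := base_cone P he (ra h)
      rw [← hx0] at h3
      rw [hsq] at this
      linear_combination this + N * h3
    linear_combination e2 - e1
  have k3 : 0 < 2 + R + ra h := by linarith
  have k4 : 0 < 2 + N * R + N * ra h := by positivity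
  rcases e_cases he with h1 | h1
  · subst h1
    have hx0n : x0 < 0 := by
      rw [hx0]; have : 0 < 1 * (r2 * ra h) * sb := by positivity
      linarith
    constructor
    · intro hv
      rcases le_or_gt 0 b with hb | hb
      · linarith
      · have hv' : b * cb - 1 * a * sb < 0 := by nlinarith [mul_pos ha hsb, mul_neg_of_neg_of_pos hb hcb]
        have h2 : (R - ra h) * (2 + R + ra h) < 0 := by
          rw [← k1]; exact mul_neg_of_pos_of_neg hN (mul_neg_of_pos_of_neg hv hv')
        have h3 : R - ra h < 0 := by nlinarith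
        have h4 : N * (b ^ 2 - x0 ^ 2) < 0 := by
          rw [← k2]; exact mul_neg_of_neg_of_pos h3 k4
        have h5 : b ^ 2 < x0 ^ 2 := by nlinarith
        nlinarith
    · intro hb
      rcases le_or_gt 0 b with hb0 | hb0
      · have : 0 ≤ b * cb := mul_nonneg hb0 hcb.le
        have : 0 < 1 * a * sb := by positivity
        linarith
      · have hv' : b * cb - 1 * a * sb < 0 := by nlinarith [mul_pos ha hsb, mul_neg_of_neg_of_pos hb0 hcb]
        have h5 : b ^ 2 < x0 ^ 2 := by nlinarith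
        have h4 : (R - ra h) * (2 + N * R + N * ra h) < 0 := by rw [k2]; nlinarith
        have h3 : R - ra h < 0 := by nlinarith
        have h2 : N * ((b * cb + 1 * a * sb) * (b * cb - 1 * a * sb)) < 0 := by
          rw [k1]; exact mul_neg_of_neg_of_pos h3 k3
        by_contra hcon
        push Not at hcon
        have : 0 ≤ (b * cb + 1 * a * sb) * (b * cb - 1 * a * sb) :=
          mul_nonneg_of_nonpos_of_nonpos hcon hv'.le
        have := mul_nonneg hN.le this
        linarith
  · subst h1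
    have hx0p : 0 < x0 := by
      rw [hx0]; have : 0 < (r2 * ra h) * sb := by positivity
      linarith
    constructor
    · intro hv
      have hb : 0 < b := by
        have : 0 < a * sb := by positivity
        have : 0 < b * cb := by linarith
        exact (pos_iff_pos_of_mul_pos this).2 hcb
      have hv' : 0 < b * cb - -1 * a * sb := by
        have : 0 < a * sb := by positivity
        have : 0 < b * cb := by positivity
        linarith
      have h2 : 0 < (R - ra h) * (2 + R + ra h) := by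
        rw [← k1]; positivity
      have h3 : 0 < R - ra h := pos_of_mul_pos_left h2 k3.le
      have h4 : 0 < N * (b ^ 2 - x0 ^ 2) := by rw [← k2]; positivity
      have h5 : x0 ^ 2 < b ^ 2 := by
        have := pos_of_mul_pos_right h4 hN.le
        linarith
      exact lt_of_pow_lt_pow_left₀ 2 hb.le h5
    · intro hb
      have hb0 : 0 < b := hx0p.trans hb
      have hv' : 0 < b * cb - -1 * a * sb := by
        have : 0 < a * sb := by positivity
        have : 0 < b * cb := by positivity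
        linarith
      have h5 : x0 ^ 2 < b ^ 2 := pow_lt_pow_left₀ hb hx0p.le (by norm_num)
      have h4 : 0 < (R - ra h) * (2 + N * R + N * ra h) := by
        rw [k2]; exact mul_pos hN (by linarith)
      have h3 : 0 < R - ra h := pos_of_mul_pos_left h4 k4.le
      have h2 : 0 < N * ((b * cb + -1 * a * sb) * (b * cb - -1 * a * sb)) := by
        rw [k1]; positivity
      have := pos_of_mul_pos_right h2 hN.le
      exact pos_of_mul_pos_left this hv'.le

theorem hasDerivAt_bD {N h : ℝ} (x : ℝ) (hN : 0 < N) (hh : 1 < h) :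
    HasDerivAt (bD N h) (N ^ 2 * x / bD N h x) x := by
  have h1 : HasDerivAt (fun x => 1 + N * (h - 1) + N ^ 2 * x ^ 2) (N ^ 2 * (2 * x)) x := by
    have := ((hasDerivAt_pow 2 x).const_mul (N ^ 2)).const_add (1 + N * (h - 1))
    simpa using this
  have h2 := h1.sqrt (by linarith [bD_arg (x := x) hN hh])
  refine h2.congr_deriv ?_
  unfold bD
  field_simp

theorem hasDerivAt_bR {N h : ℝ} (x : ℝ) (hN : 0 < N) (hh : 1 < h) :
    HasDerivAt (bR N h) (N * x / bD N h x) x := by
  have h2 := ((hasDerivAt_bD x hN hh).sub_const 1).div_const N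
  refine h2.congr_deriv ?_
  field_simp

theorem hasDerivAt_ba {N h : ℝ} (x : ℝ) (hN : 0 < N) (hh : 1 < h)
    (hp : 0 < 2 * bR N h x ^ 2 - x ^ 2) :
    HasDerivAt (ba N h) ((2 * bR N h x * (N * x / bD N h x) - x) / ba N h x) x := by
  have h1 : HasDerivAt (fun x => 2 * bR N h x ^ 2 - x ^ 2)
      (2 * (2 * bR N h x * (N * x / bD N h x)) - 2 * x) x := by
    refine ((((hasDerivAt_bR x hN hh).pow 2).const_mul 2).sub (hasDerivAt_pow 2 x)).congr_deriv ?_
    simp
  have h2 := h1.sqrt hp.ne'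
  refine h2.congr_deriv ?_
  have h3 : 0 < ba N h x := Real.sqrt_pos.2 hp
  show (2 * (2 * bR N h x * (N * x / bD N h x)) - 2 * x) / (2 * ba N h x) = _
  field_simp

/-- **Slices for `h ≥ 1 + 1 / N`.** -/
theorem exists_slcB (P : Par c mu lam N sb cb r2) {e : ℝ} (he : e ^ 2 = 1) {h R0 a0 b0 : ℝ}
    (hh : 1 < h) (hs : 1 ≤ N * (h - 1)) (hR : 0 < R0) (hc : a0 ^ 2 + b0 ^ 2 = 2 * R0 ^ 2)
    (hl : h = 1 + 2 * R0 - N * R0 ^ 2 + N * a0 ^ 2) (hF : 0 < 1 - N * R0 + N * a0)
    (hv : 0 < b0 * cb + e * a0 * sb) :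
    ∃ x0 x1 : ℝ, ∃ R a b rho : ℝ → ℝ, Slc N sb cb r2 e h x0 x1 R a b rho ∧ R x1 = R0 ∧
      a x1 = a0 ∧ b x1 = b0 ∧ ∀ x ∈ Icc x0 x1, 0 < a x := by
  have hN := P.N0
  have hcb := P.cb0
  have hr2 := P.r20
  have hp := ra_pos hh
  have hsq := ra_sq hh
  -- a0 > 0
  have hFF : (1 - N * R0 + N * a0) * (1 - N * R0 - N * a0) = 1 - N * (h - 1) := by
    rw [hl]; ring
  have hFm : 1 - N * R0 - N * a0 ≤ 0 := by
    by_contra hcon
    push Not at hcon
    have := mul_pos hF hcon
    linarith
  have ha0 : 0 < a0 := by nlinarith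
  set x0 := -(e * (r2 * ra h) * sb) with hx0
  have hlt : x0 < b0 := (v_iff P he hh hR ha0 hc hl).1 hv
  obtain ⟨p1, p2⟩ := bpar_point hN hR ha0 hc hl
  obtain ⟨q1, q2⟩ := base_par P he hh
  rw [← hx0] at q1 q2
  have haB : 0 < r2 * ra h * cb := by positivity
  -- positivity of a
  have hD2 : 1 = N * (h - 1) → ∀ x ∈ Icc x0 b0, bD N h x < 2 := by
    intro h2 x hx
    have hb : bD N h b0 < 2 := by
      rw [← bNR b0 hN, p1]
      have h4 : (1 - N * R0 + N * a0) * (1 - N * R0 - N * a0) = 0 := by rw [hFF]; linarith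
      rcases mul_eq_zero.1 h4 with h5 | h5
      · linarith
      · have : 0 < N * a0 := by positivity
        linarith
    have hxa : bD N h x0 < 2 := by
      rw [← bNR x0 hN, q1]
      have h4 : N * (2 * ra h + ra h ^ 2) = 1 := by linear_combination N * hsq - h2
      have h5 : 0 < N * ra h := by positivity
      nlinarith [sq_nonneg (ra h), mul_pos hN (pow_pos hp 2)]
    have hbs := bD_sq b0 hN hh
    have hxs := bD_sq x0 hN hh
    have hs' := bD_sq x hN hh
    have hb0 := bD_gt b0 hN hh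
    have hx0' := bD_gt x0 hN hh
    have hxx := bD_gt x hN hh
    have hcases : x ^ 2 ≤ b0 ^ 2 ∨ x ^ 2 ≤ x0 ^ 2 := by
      have i1 := hx.1
      have i2 := hx.2
      rcases le_or_gt 0 x with h6 | h6
      · left; nlinarith
      · right; nlinarith
    rcases hcases with h6 | h6
    · have : bD N h x ^ 2 ≤ bD N h b0 ^ 2 := by
        rw [hs', hbs]; nlinarith [mul_le_mul_of_nonneg_left h6 (sq_nonneg N)]
      nlinarith
    · have : bD N h x ^ 2 ≤ bD N h x0 ^ 2 := by
        rw [hs', hxs]; nlinarith [mul_le_mul_of_nonneg_left h6 (sq_nonneg N)]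
      nlinarith
  have hpos : ∀ x ∈ Icc x0 b0, 0 < 2 * bR N h x ^ 2 - x ^ 2 := by
    intro x hx
    have h1 := ba_arg x hN hh
    rcases hs.eq_or_lt with h2 | h2
    · have h3 := hD2 h2 x hx
      have h4 : 0 < N ^ 2 * (2 * bR N h x ^ 2 - x ^ 2) := by
        rw [h1]
        have : 0 < (bD N h x - 2) ^ 2 := by
          have : bD N h x - 2 ≠ 0 := by linarith
          positivity
        linarith
      exact pos_of_mul_pos_right h4 (by positivity)
    · have h4 : 0 < N ^ 2 * (2 * bR N h x ^ 2 - x ^ 2) := by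
        rw [h1]; nlinarith [sq_nonneg (bD N h x - 2)]
      exact pos_of_mul_pos_right h4 (by positivity)
  have hba : ∀ x ∈ Icc x0 b0, 0 < ba N h x := fun x hx => Real.sqrt_pos.2 (hpos x hx)
  have hbasq : ∀ x ∈ Icc x0 b0, ba N h x ^ 2 = 2 * bR N h x ^ 2 - x ^ 2 := fun x hx =>
    Real.sq_sqrt (hpos x hx).le
  have hcone : ∀ x ∈ Icc x0 b0, ba N h x ^ 2 + x ^ 2 = 2 * bR N h x ^ 2 := fun x hx => by
    rw [hbasq x hx]; ring
  have hlev : ∀ x ∈ Icc x0 b0, h = 1 + 2 * bR N h x - N * bR N h x ^ 2 + N * ba N h x ^ 2 := by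
    intro x hx
    have h1 := bD_sq x hN hh
    rw [← bNR x hN] at h1
    have h3 := hcone x hx
    have h4 : N * h = N * (1 + 2 * bR N h x - N * bR N h x ^ 2 + N * ba N h x ^ 2) := by
      linear_combination (-1 : ℝ) * h1 - N ^ 2 * h3
    exact mul_left_cancel₀ hN.ne' h4
  refine ⟨x0, b0, bR N h, ba N h, fun x => x, fun x => 1 / (2 * ba N h x * bD N h x),
    ⟨hlt, fun x _ => (hasDerivAt_bR x hN hh).continuousAt.continuousWithinAt,
      fun x hx => (hasDerivAt_ba x hN hh (hpos x hx)).continuousAt.continuousWithinAt,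
      continuousOn_id, fun x hx => ?_, fun x hx => ?_, fun x hx => ?_, fun x hx => ?_,
      hcone, hlev, fun x _ => bR_pos x hN hh, fun x hx => ?_, fun x hx => ?_, q1, q2, rfl⟩,
    p1, p2, rfl, hba⟩
  · have h1 := hba x (Ioo_subset_Icc_self hx)
    have h2 := bD_gt x hN hh
    refine (hasDerivAt_bR x hN hh).congr_deriv ?_
    field_simp
  · have h1 := hba x (Ioo_subset_Icc_self hx)
    have h2 := bD_gt x hN hh
    refine (hasDerivAt_ba x hN hh (hpos x (Ioo_subset_Icc_self hx))).congr_deriv ?_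
    have h3 := bNR (h := h) x hN
    have h4 : bD N h x ≠ 0 := by positivity
    field_simp
    linear_combination x * h3
  · have h1 := hba x (Ioo_subset_Icc_self hx)
    have h2 := bD_gt x hN hh
    refine (hasDerivAt_id x).congr_deriv ?_
    rw [bNR x hN]
    have h4 : bD N h x ≠ 0 := by positivity
    field_simp
  · have h1 := hba x (Ioo_subset_Icc_self hx)
    have h2 := bD_gt x hN hh
    positivity
  · have h1 := hba x hx
    have h2 := hlev x hx
    have h3 : (1 - N * bR N h x + N * ba N h x) * (1 - N * bR N h x - N * ba N h x)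
        = 1 - N * (h - 1) := by
      linear_combination N * h2
    have h4 : 0 < N * ba N h x := by positivity
    rcases hs.eq_or_lt with h5 | h5
    · have h6 := hD2 h5 x hx
      rw [← bNR x hN] at h6
      linarith
    · by_contra hcon
      push Not at hcon
      have : 1 - N * bR N h x - N * ba N h x ≤ 0 := by linarith
      have := mul_nonneg_of_nonpos_of_nonpos hcon this
      linarith
  · have h1 := hba x (Ioo_subset_Icc_self hx)
    exact (v_iff P he hh (bR_pos x hN hh) h1 (hcone x (Ioo_subset_Icc_self hx))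
      (hlev x (Ioo_subset_Icc_self hx))).2 hx.1

end B92.KC
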