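import Mathlib
import Pool.Agent.Lib.B92KC.Slc
import Pool.Agent.Lib.B92KC.SlB
import Pool.Agent.Lib.B92KC.Pair
import Pool.Agent.Lib.B92.Slice

/-!
# MP_b92fc8_an, case kappa < -1 : comparison of the two sectors at a level `h`, `N (h - 1) ≥ 1`
-/

set_option autoImplicit false

open Set Filter Topology

noncomputable section

namespace B92.KC

variable {c mu lam N sb cb r2 : ℝ}

/-- The bases of the two sectors. -/
theorem Tb_diff (P : Par c mu lam N sb cb r2) {h : ℝ} (hh : 1 < h) :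
    Tb N sb cb r2 1 h - Tb N sb cb r2 (-1) h = sb / (2 * N) * Real.log (1 + N * (h - 1)) := by
  have hN := P.N0
  have hp := ra_pos hh
  have h1 := base_G P (e := 1) (by norm_num) hp.le
  have h2 := base_G P (e := -1) (by norm_num) hp.le
  have h3 : (1 + N * ra h + N * (-(1 * (r2 * ra h) * sb)))
      * (1 + N * ra h + N * (-(-1 * (r2 * ra h) * sb))) = 1 + N * (h - 1) := by
    linear_combination (-(N ^ 2 * (ra h) ^ 2 * sb ^ 2)) * P.r22 - (N * (ra h) ^ 2) * P.sb2
      + N * ra_sq hh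
  have h4 : Real.log (1 + N * (h - 1)) = Real.log (1 + N * ra h + N * (-(1 * (r2 * ra h) * sb)))
      + Real.log (1 + N * ra h + N * (-(-1 * (r2 * ra h) * sb))) := by
    rw [← h3, Real.log_mul h1.ne' h2.ne']
  rw [h4]
  simp only [Tb, Th]
  field_simp
  ring

/-- Equality of `T` in the two sectors, in the form used for pairs. -/
theorem match_log (P : Par c mu lam N sb cb r2) {h R1 a1 b1 R2 a2 b2 : ℝ} (hh : 1 < h)
    (hR2 : 0 < R2) (c2 : a2 ^ 2 + b2 ^ 2 = 2 * R2 ^ 2)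
    (l2 : h = 1 + 2 * R2 - N * R2 ^ 2 + N * a2 ^ 2)
    (hT : TT N sb cb r2 1 h R1 a1 b1 = TT N sb cb r2 (-1) h R2 a2 b2) :
    sb * (Real.log (1 + N * R1 + N * b1) - Real.log (1 + N * R2 - N * b2))
      = cb * (Real.log (1 - N * R1 + N * a1) - Real.log (1 - N * R2 + N * a2)) := by
  have hN := P.N0
  have hd := Tb_diff P hh
  have g1 := G_pos hN hR2 hh c2 l2
  have g2 := G_pos (b := -b2) hN hR2 hh (by rw [neg_sq]; exact c2) l2
  have h3 : (1 + N * R2 + N * b2) * (1 + N * R2 + N * -b2) = 1 + N * (h - 1) := by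
    rw [l2]; linear_combination (-(N ^ 2)) * c2
  have h4 : Real.log (1 + N * (h - 1)) = Real.log (1 + N * R2 + N * b2)
      + Real.log (1 + N * R2 + N * -b2) := by
    rw [← h3, Real.log_mul g1.ne' g2.ne']
  have e5 : 1 + N * R2 - N * b2 = 1 + N * R2 + N * -b2 := by ring
  rw [e5]
  simp only [TT, Th] at hT
  rw [h4] at hd
  generalize Real.log (1 + N * R2 + N * -b2) = L at *
  have h6 : 1 / (2 * N) * (1 * sb * Real.log (1 + N * R1 + N * b1)
      - cb * Real.log (1 - N * R1 + N * a1))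
      - 1 / (2 * N) * (-1 * sb * Real.log (1 + N * R2 + N * b2)
      - cb * Real.log (1 - N * R2 + N * a2))
      = sb / (2 * N) * (Real.log (1 + N * R2 + N * b2) + L) := by
    linarith
  field_simp at h6
  linarith

/-- `v1 < v2` for matched pairs implies `z_- < z_+`. -/
theorem slices_lt (P : Par c mu lam N sb cb r2) {h x0 x1 y0 y1 : ℝ} (hh : 1 < h)
    {R a b rho R' a' b' rho' : ℝ → ℝ}
    (s : Slc N sb cb r2 1 h x0 x1 R a b rho) (s' : Slc N sb cb r2 (-1) h y0 y1 R' a' b' rho')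
    (hT : sT N sb cb r2 1 h R a b x1 = sT N sb cb r2 (-1) h R' a' b' y1)
    (hv : ∀ x ∈ Ioo x0 x1, ∀ y ∈ Ioo y0 y1,
      sT N sb cb r2 (-1) h R' a' b' y = sT N sb cb r2 1 h R a b x →
        sv sb cb 1 a b x < sv sb cb (-1) a' b' y) :
    sZ N lam sb cb r2 (-1) h R' a' b' y1 < sZ N lam sb cb r2 1 h R a b x1 := by
  refine slice_lt s'.lt s.lt (s'.T_cont P hh) (s'.T_deriv P hh) s'.T_rate (s'.Z_cont P hh)
    (s'.Z_deriv P (by norm_num) hh) (s.T_cont P hh) (s.T_deriv P hh) s.T_rate (s.Z_cont P hh)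
    (s.Z_deriv P (by norm_num) hh) ?_ hT.symm ?_ ?_
  · rw [s.T_start, s'.T_start]
  · rw [s.Z_start P (by norm_num), s'.Z_start P (by norm_num)]
  · intro y hy x hx he
    have h1 := hv x hx y hy he
    have h2 := s.v0 x hx
    have h3 : 0 < sv sb cb 1 a b x := h2
    have h4 : sv sb cb 1 a b x ^ 2 < sv sb cb (-1) a' b' y ^ 2 :=
      pow_lt_pow_left₀ h1 h3.le (by norm_num)
    have h5 : 0 < N ^ 2 := by have := P.N0; positivity
    have := mul_lt_mul_of_pos_left h4 h5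
    linarith

/-- `u ≥ 0` at a point with larger `v` : monotonicity of `v` along the slice in the sector `1`
for `N (h - 1) ≥ 1`. -/
theorem g_pos (P : Par c mu lam N sb cb r2) {h R a b : ℝ} (hs : 1 ≤ N * (h - 1)) (hR : 0 < R)
    (ha : 0 < a) (hc : a ^ 2 + b ^ 2 = 2 * R ^ 2)
    (hl : h = 1 + 2 * R - N * R ^ 2 + N * a ^ 2) (hF : 0 < 1 - N * R + N * a)
    (hv : 0 < b * cb + 1 * a * sb) :
    0 < a * (1 + N * R) * cb - b * (1 - N * R) * sb := by
  have hN := P.N0
  have hcb := P.cb0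
  have hsb := P.sb0
  have hlt := P.sbcb
  have hNR : 0 < N * R := by positivity
  have hFF : (1 - N * R + N * a) * (1 - N * R - N * a) = 1 - N * (h - 1) := by
    rw [hl]; ring
  have hFm : 1 - N * R - N * a ≤ 0 := by
    by_contra hcon
    push Not at hcon
    have := mul_pos hF hcon
    linarith
  rcases le_or_gt 0 b with hb | hb
  · rcases le_or_gt (1 - N * R) 0 with h1 | h1
    · have : 0 < a * (1 + N * R) * cb := by positivity
      have : 0 ≤ -(b * (1 - N * R) * sb) := by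
        have := mul_nonneg (mul_nonneg hb (by linarith : 0 ≤ -(1 - N * R))) hsb.le
        linarith
      linarith
    · -- b < (3/2) R
      have hb2 : b < 3 / 2 * R := by
        have : b ^ 2 < (3 / 2 * R) ^ 2 := by nlinarith [mul_pos ha ha, mul_pos hR hR]
        exact lt_of_pow_lt_pow_left₀ 2 (by positivity) this
      have e1 : b * (1 - N * R) ≤ b * (N * a) := mul_le_mul_of_nonneg_left (by linarith) hb
      have e2 : b * (1 - N * R) * sb ≤ b * (N * a) * sb := mul_le_mul_of_nonneg_right e1 hsb.le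
      have e3 : b * (N * a) * sb ≤ 3 / 2 * R * (N * a) * sb :=
        mul_le_mul_of_nonneg_right (mul_le_mul_of_nonneg_right hb2.le (by positivity)) hsb.le
      have e4 : 3 / 2 * R * (N * a) * sb < 3 / 2 * R * (N * a) * cb :=
        mul_lt_mul_of_pos_left hlt (by positivity)
      have e5 : 3 / 2 * R * (N * a) * cb = a * (3 / 2 * (N * R)) * cb := by ring
      have e6 : a * (3 / 2 * (N * R)) * cb ≤ a * (1 + N * R) * cb :=
        mul_le_mul_of_nonneg_right (mul_le_mul_of_nonneg_left (by linarith) ha.le) hcb.le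
      linarith
  · have e0 : -b * cb < a * sb := by linarith
    rcases le_or_gt (1 - N * R) 0 with h1 | h1
    · have e1 : -b < a := by
        by_contra hcon
        push Not at hcon
        have : a * cb ≤ -b * cb := mul_le_mul_of_nonneg_right hcon hcb.le
        have : a * sb < a * cb := mul_lt_mul_of_pos_left hlt ha
        linarith
      have e2 : -b * (N * R - 1) * sb ≤ a * (N * R - 1) * sb :=
        mul_le_mul_of_nonneg_right (mul_le_mul_of_nonneg_right e1.le (by linarith)) hsb.le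
      have e3 : a * (N * R - 1) * sb ≤ a * (N * R + 1) * sb :=
        mul_le_mul_of_nonneg_right (mul_le_mul_of_nonneg_left (by linarith) ha.le) hsb.le
      have e4 : a * (N * R + 1) * sb < a * (N * R + 1) * cb :=
        mul_lt_mul_of_pos_left hlt (by positivity)
      linarith
    · have : 0 < a * (1 + N * R) * cb := by positivity
      have : 0 < -b * (1 - N * R) * sb := mul_pos (mul_pos (by linarith) h1) hsb
      linarith

/-- `v` increases along the slice in the sector `1`, `N (h - 1) ≥ 1`. -/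
theorem sv_mono (P : Par c mu lam N sb cb r2) {h x0 x1 : ℝ} {R a b rho : ℝ → ℝ}
    (hs : 1 ≤ N * (h - 1)) (s : Slc N sb cb r2 1 h x0 x1 R a b rho)
    (ha : ∀ x ∈ Icc x0 x1, 0 < a x) : StrictMonoOn (sv sb cb 1 a b) (Icc x0 x1) := by
  have c2 := s.ca
  have c3 := s.cb'
  have hd : ∀ x ∈ Ioo x0 x1, HasDerivAt (sv sb cb 1 a b)
      (2 * rho x * (a x * (1 + N * R x) * cb - b x * (1 - N * R x) * sb)) x := by
    intro x hx
    have := ((s.db x hx).mul_const cb).add (((s.da x hx).const_mul 1).mul_const sb)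
    refine this.congr_deriv ?_
    ring
  apply strictMonoOn_of_deriv_pos (convex_Icc _ _)
  · unfold sv; fun_prop
  · intro x hx
    rw [interior_Icc] at hx
    have hx' := Ioo_subset_Icc_self hx
    rw [(hd x hx).deriv]
    exact mul_pos (mul_pos two_pos (s.rho0 x hx))
      (g_pos P hs (s.R0 x hx') (ha x hx') (s.cone x hx') (s.lev x hx') (s.F0 x hx') (s.v0 x hx))

/-- **Comparison at a level `h` with `N (h - 1) ≥ 1`.** -/
theorem comp_hi (P : Par c mu lam N sb cb r2) {h : ℝ} (hh : 1 < h) (hs : 1 ≤ N * (h - 1))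
    {R1 a1 b1 R2 a2 b2 : ℝ} (hR1 : 0 < R1) (c1 : a1 ^ 2 + b1 ^ 2 = 2 * R1 ^ 2)
    (l1 : h = 1 + 2 * R1 - N * R1 ^ 2 + N * a1 ^ 2) (F1 : 0 < 1 - N * R1 + N * a1)
    (v1 : 0 < b1 * cb + 1 * a1 * sb) (u1 : 0 < 2 * h - 2 * N ^ 2 * (b1 * cb + 1 * a1 * sb) ^ 2)
    (hR2 : 0 < R2) (c2 : a2 ^ 2 + b2 ^ 2 = 2 * R2 ^ 2)
    (l2 : h = 1 + 2 * R2 - N * R2 ^ 2 + N * a2 ^ 2) (F2 : 0 < 1 - N * R2 + N * a2)
    (v2 : 0 < b2 * cb + -1 * a2 * sb)
    (hT : TT N sb cb r2 (-1) h R2 a2 b2 ≤ TT N sb cb r2 1 h R1 a1 b1) :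
    ZZ N lam sb cb r2 (-1) h R2 a2 b2 < ZZ N lam sb cb r2 1 h R1 a1 b1 := by
  obtain ⟨x0, x1, R, a, b, rho, s, e1, e2, e3, ha⟩ :=
    exists_slcB P (e := 1) (by norm_num) hh hs hR1 c1 l1 F1 v1
  obtain ⟨y0, y1, R', a', b', rho', s', e1', e2', e3', ha'⟩ :=
    exists_slcB P (e := -1) (by norm_num) hh hs hR2 c2 l2 F2 v2
  have hx0 : x0 ∈ Icc x0 x1 := ⟨le_rfl, s.lt.le⟩
  have hx1 : x1 ∈ Icc x0 x1 := ⟨s.lt.le, le_rfl⟩
  have hy0 : y0 ∈ Icc y0 y1 := ⟨le_rfl, s'.lt.le⟩
  have hy1 : y1 ∈ Icc y0 y1 := ⟨s'.lt.le, le_rfl⟩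
  have t1 : sT N sb cb r2 1 h R a b x1 = TT N sb cb r2 1 h R1 a1 b1 := by
    simp only [sT, e1, e2, e3]
  have t2 : sT N sb cb r2 (-1) h R' a' b' y1 = TT N sb cb r2 (-1) h R2 a2 b2 := by
    simp only [sT, e1', e2', e3']
  have z1 : sZ N lam sb cb r2 1 h R a b x1 = ZZ N lam sb cb r2 1 h R1 a1 b1 := by
    simp only [sZ, e1, e2, e3]
  have z2 : sZ N lam sb cb r2 (-1) h R' a' b' y1 = ZZ N lam sb cb r2 (-1) h R2 a2 b2 := by
    simp only [sZ, e1', e2', e3']
  rw [← t1, ← t2] at hT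
  rw [← z1, ← z2]
  have hpos : 0 < sT N sb cb r2 (-1) h R' a' b' y1 := by
    rw [← s'.T_start]; exact s'.T_mono P hh hy0 hy1 s'.lt
  -- the matched point
  obtain ⟨x, hx, hxT⟩ : ∃ x ∈ Icc x0 x1, sT N sb cb r2 1 h R a b x
      = sT N sb cb r2 (-1) h R' a' b' y1 := by
    have := intermediate_value_Icc s.lt.le (s.T_cont P hh)
    have h3 : sT N sb cb r2 (-1) h R' a' b' y1 ∈ Icc (sT N sb cb r2 1 h R a b x0)
        (sT N sb cb r2 1 h R a b x1) := ⟨by rw [s.T_start]; exact hpos.le, hT⟩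
    obtain ⟨x, hx, hx2⟩ := this h3
    exact ⟨x, hx, hx2⟩
  have hxgt : x0 < x := by
    rcases hx.1.eq_or_lt with h3 | h3
    · rw [← h3, s.T_start] at hxT
      linarith
    · exact h3
  have sr := s.restrict (x := x) ⟨hxgt, hx.2⟩
  have key : sZ N lam sb cb r2 (-1) h R' a' b' y1 < sZ N lam sb cb r2 1 h R a b x := by
    refine slices_lt P hh sr s' hxT ?_
    intro p hp q hq hpq
    have hp' := Ioo_subset_Icc_self hp
    have hq' := Ioo_subset_Icc_self hq
    have hpp : p ∈ Icc x0 x1 := ⟨hp'.1, hp'.2.trans hx.2⟩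
    have h4 := match_log P hh (s'.R0 q hq') (s'.cone q hq') (s'.lev q hq') hpq.symm
    have v1' := sr.v0 p hp
    have v2' := s'.v0 q hq
    have h5 := (pair P (s.R0 p hpp) (s'.R0 q hq') (s.cone p hpp) (s'.cone q hq') (s.lev p hpp)
      (s'.lev q hq') hh (s.F0 p hpp) (s'.F0 q hq') (by linarith) (by linarith) h4).1
      (add_pos (ha p hpp) (ha' q hq'))
    simp only [sv]
    linarith
  have hmono := sv_mono P hs s ha
  have hZ := s.Z_mono (lam := lam) P (by norm_num) hh (u0 := 0) (fun y hy => by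
    have hy' := Ioo_subset_Icc_self hy
    have h6 : sv sb cb 1 a b y < sv sb cb 1 a b x1 := hmono hy' hx1 hy.2
    have h7 : 0 < sv sb cb 1 a b y := s.v0 y hy
    have h8 : sv sb cb 1 a b x1 = b1 * cb + 1 * a1 * sb := by simp only [sv, e2, e3]
    rw [h8] at h6
    have h9 : sv sb cb 1 a b y ^ 2 ≤ (b1 * cb + 1 * a1 * sb) ^ 2 :=
      pow_le_pow_left₀ h7.le h6.le 2
    have h10 : 0 ≤ N ^ 2 := sq_nonneg N
    have := mul_le_mul_of_nonneg_left h9 h10
    linarith) hx hx1 hx.2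
  linarith

end B92.KC
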