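import Mathlib
import Pool.Agent.Lib.B92KC.Slc
import Pool.Agent.Lib.B92KC.Geo

/-!
# MP_b92fc8_an, case kappa < -1 : slices for `h < 1 + 1 / N`, parametrised by the angle
-/

set_option autoImplicit false

open Set Filter Topology

noncomputable section

namespace B92.KC

variable {c mu lam N sb cb r2 : ℝ}

def fC (lam e x : ℝ) : ℝ := Real.cos (2 * x) + e * lam * Real.sin (2 * x)
def fD (lam e h x : ℝ) : ℝ := Real.sqrt (1 + (h - 1) * fC lam e x)
def fR (lam e h x : ℝ) : ℝ := (h - 1) / (1 + fD lam e h x)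
def fa (lam sb cb r2 e h x : ℝ) : ℝ := r2 * fR lam e h x * (Real.cos x * cb + e * Real.sin x * sb)
def fb (lam sb cb r2 e h x : ℝ) : ℝ := r2 * fR lam e h x * (Real.sin x * cb - e * Real.cos x * sb)

namespace SlF

theorem C_bd (P : Par c mu lam N sb cb r2) {e : ℝ} (he : e ^ 2 = 1) (x : ℝ) : -N ≤ fC lam e x := by
  have h1 : fC lam e x ^ 2 + (Real.sin (2 * x) - e * lam * Real.cos (2 * x)) ^ 2 = N ^ 2 := by
    unfold fC
    linear_combination (1 + e ^ 2 * lam ^ 2) * Real.sin_sq_add_cos_sq (2 * x) - P.N2 + lam ^ 2 * he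
  have h2 := P.N0
  nlinarith [sq_nonneg (Real.sin (2 * x) - e * lam * Real.cos (2 * x))]

theorem D_arg (P : Par c mu lam N sb cb r2) {e : ℝ} (he : e ^ 2 = 1) {h : ℝ} (hh : 1 < h)
    (hs : N * (h - 1) < 1) (x : ℝ) : 0 < 1 + (h - 1) * fC lam e x := by
  have h1 := C_bd P he x
  nlinarith [mul_le_mul_of_nonneg_left h1 (by linarith : (0 : ℝ) ≤ h - 1)]

theorem D_sq (P : Par c mu lam N sb cb r2) {e : ℝ} (he : e ^ 2 = 1) {h : ℝ} (hh : 1 < h)
    (hs : N * (h - 1) < 1) (x : ℝ) : fD lam e h x ^ 2 = 1 + (h - 1) * fC lam e x :=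
  Real.sq_sqrt (D_arg P he hh hs x).le

theorem D_pos (P : Par c mu lam N sb cb r2) {e : ℝ} (he : e ^ 2 = 1) {h : ℝ} (hh : 1 < h)
    (hs : N * (h - 1) < 1) (x : ℝ) : 0 < fD lam e h x := Real.sqrt_pos.2 (D_arg P he hh hs x)

theorem R_mul (P : Par c mu lam N sb cb r2) {e : ℝ} (he : e ^ 2 = 1) {h : ℝ} (hh : 1 < h)
    (hs : N * (h - 1) < 1) (x : ℝ) : fR lam e h x * (1 + fD lam e h x) = h - 1 := by
  have h1 := D_pos P he hh hs x
  unfold fR
  field_simp

theorem R_pos (P : Par c mu lam N sb cb r2) {e : ℝ} (he : e ^ 2 = 1) {h : ℝ} (hh : 1 < h)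
    (hs : N * (h - 1) < 1) (x : ℝ) : 0 < fR lam e h x := by
  have h1 := D_pos P he hh hs x
  exact div_pos (by linarith) (by linarith)

/-- `R C = D - 1` -/
theorem RC (P : Par c mu lam N sb cb r2) {e : ℝ} (he : e ^ 2 = 1) {h : ℝ} (hh : 1 < h)
    (hs : N * (h - 1) < 1) (x : ℝ) : fR lam e h x * fC lam e x = fD lam e h x - 1 := by
  have h1 := D_pos P he hh hs x
  have h2 := R_mul P he hh hs x
  have h3 := D_sq P he hh hs x
  have h4 : (fR lam e h x * fC lam e x) * (1 + fD lam e h x) =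
      (fD lam e h x - 1) * (1 + fD lam e h x) := by
    linear_combination fC lam e x * h2 - h3
  exact mul_right_cancel₀ (by positivity) h4

theorem al_be (P : Par c mu lam N sb cb r2) {e : ℝ} (he : e ^ 2 = 1) (x : ℝ) :
    (Real.cos x * cb + e * Real.sin x * sb) ^ 2 + (Real.sin x * cb - e * Real.cos x * sb) ^ 2 = 1 := by
  linear_combination (cb ^ 2 + e ^ 2 * sb ^ 2) * Real.sin_sq_add_cos_sq x + P.cs + sb ^ 2 * he

theorem NC (P : Par c mu lam N sb cb r2) {e : ℝ} (he : e ^ 2 = 1) (x : ℝ) :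
    N * (2 * (Real.cos x * cb + e * Real.sin x * sb) ^ 2 - 1) = fC lam e x := by
  unfold fC
  rw [Real.cos_two_mul, Real.sin_two_mul]
  have h1 := P.cb2
  have h2 := P.sb2
  have h3 := P.lam'
  have h4 := Real.sin_sq_add_cos_sq x
  linear_combination Real.cos x ^ 2 * h1 + e ^ 2 * Real.sin x ^ 2 * h2
    - 2 * e * Real.sin x * Real.cos x * h3 + (N - 1) * Real.sin x ^ 2 * he + (N - 1) * h4

theorem ND (P : Par c mu lam N sb cb r2) {e : ℝ} (he : e ^ 2 = 1) (x : ℝ) :
    4 * N * (Real.cos x * cb + e * Real.sin x * sb) * (Real.sin x * cb - e * Real.cos x * sb) =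
      2 * Real.sin (2 * x) - 2 * e * lam * Real.cos (2 * x) := by
  rw [Real.cos_two_mul', Real.sin_two_mul]
  have h1 := P.Ncs
  have h3 := P.lam'
  linear_combination 4 * Real.sin x * Real.cos x * h1 - 4 * N * Real.sin x * Real.cos x * sb ^ 2 * he
    + (2 * e * Real.cos x ^ 2 - 2 * e * Real.sin x ^ 2) * h3

theorem cone (P : Par c mu lam N sb cb r2) {e : ℝ} (he : e ^ 2 = 1) {h : ℝ} (x : ℝ) :
    fa lam sb cb r2 e h x ^ 2 + fb lam sb cb r2 e h x ^ 2 = 2 * fR lam e h x ^ 2 := by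
  unfold fa fb
  linear_combination (fR lam e h x ^ 2 * ((Real.cos x * cb + e * Real.sin x * sb) ^ 2 +
    (Real.sin x * cb - e * Real.cos x * sb) ^ 2)) * P.r22 + 2 * fR lam e h x ^ 2 * al_be P he x

theorem a_sq (P : Par c mu lam N sb cb r2) {e : ℝ} (he : e ^ 2 = 1) {h : ℝ} (x : ℝ) :
    N * fa lam sb cb r2 e h x ^ 2 = N * fR lam e h x ^ 2 + fR lam e h x ^ 2 * fC lam e x := by
  unfold fa
  linear_combination (N * fR lam e h x ^ 2 * (Real.cos x * cb + e * Real.sin x * sb) ^ 2) * P.r22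
    + fR lam e h x ^ 2 * NC P he x

theorem lev (P : Par c mu lam N sb cb r2) {e : ℝ} (he : e ^ 2 = 1) {h : ℝ} (hh : 1 < h)
    (hs : N * (h - 1) < 1) (x : ℝ) :
    h = 1 + 2 * fR lam e h x - N * fR lam e h x ^ 2 + N * fa lam sb cb r2 e h x ^ 2 := by
  have h1 := a_sq P he (h := h) x
  have h2 := RC P he hh hs x
  have h3 := R_mul P he hh hs x
  linear_combination (-1 : ℝ) * h1 - fR lam e h x * h2 - h3

theorem NR_lt (P : Par c mu lam N sb cb r2) {e : ℝ} (he : e ^ 2 = 1) {h : ℝ} (hh : 1 < h)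
    (hs : N * (h - 1) < 1) (x : ℝ) : 0 < 1 - N * fR lam e h x := by
  have h1 := D_pos P he hh hs x
  have h2 := R_mul P he hh hs x
  have h3 := R_pos P he hh hs x
  have h4 := P.N0
  have h5 : N * fR lam e h x + N * fR lam e h x * fD lam e h x = N * (h - 1) := by
    linear_combination N * h2
  have h6 : 0 < N * fR lam e h x * fD lam e h x := by positivity
  linarith

theorem FF (P : Par c mu lam N sb cb r2) {e : ℝ} (he : e ^ 2 = 1) {h : ℝ} (hh : 1 < h)
    (hs : N * (h - 1) < 1) (x : ℝ) :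
    0 < 1 - N * fR lam e h x + N * fa lam sb cb r2 e h x ∧
      0 < 1 - N * fR lam e h x - N * fa lam sb cb r2 e h x := by
  have h1 := lev P he hh hs x
  have h2 := NR_lt P he hh hs x
  have h3 : (1 - N * fR lam e h x + N * fa lam sb cb r2 e h x) *
      (1 - N * fR lam e h x - N * fa lam sb cb r2 e h x) = 1 - N * (h - 1) := by
    linear_combination N * h1
  have h4 : 0 < (1 - N * fR lam e h x + N * fa lam sb cb r2 e h x) *
      (1 - N * fR lam e h x - N * fa lam sb cb r2 e h x) := by rw [h3]; linarith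
  rcases mul_pos_iff.1 h4 with h5 | h5
  · exact h5
  · exfalso
    linarith [h5.1, h5.2]

theorem v_eq (P : Par c mu lam N sb cb r2) {e : ℝ} (he : e ^ 2 = 1) {h : ℝ} (x : ℝ) :
    fb lam sb cb r2 e h x * cb + e * fa lam sb cb r2 e h x * sb = r2 * fR lam e h x * Real.sin x := by
  unfold fa fb
  linear_combination (r2 * fR lam e h x * Real.sin x) * P.cs
    + (r2 * fR lam e h x * Real.sin x * sb ^ 2) * he

theorem dC (lam e x : ℝ) : HasDerivAt (fC lam e)
    (-(2 * Real.sin (2 * x) - 2 * e * lam * Real.cos (2 * x))) x := by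
  have h0 : HasDerivAt (fun x : ℝ => 2 * x) 2 x := by
    simpa using (hasDerivAt_id x).const_mul (2 : ℝ)
  have h1 := h0.cos
  have h2 := h0.sin.const_mul (e * lam)
  refine (h1.add h2).congr_deriv ?_
  ring

theorem dD (P : Par c mu lam N sb cb r2) {e : ℝ} (he : e ^ 2 = 1) {h : ℝ} (hh : 1 < h)
    (hs : N * (h - 1) < 1) (x : ℝ) : HasDerivAt (fD lam e h)
    ((h - 1) * (-(2 * Real.sin (2 * x) - 2 * e * lam * Real.cos (2 * x))) / (2 * fD lam e h x)) x := by
  have h1 := ((dC lam e x).const_mul (h - 1)).const_add 1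
  exact h1.sqrt (D_arg P he hh hs x).ne'

theorem dR (P : Par c mu lam N sb cb r2) {e : ℝ} (he : e ^ 2 = 1) {h : ℝ} (hh : 1 < h)
    (hs : N * (h - 1) < 1) (x : ℝ) : HasDerivAt (fR lam e h)
    (1 / (2 * fD lam e h x) * (4 * N * fR lam e h x ^ 2 * (Real.cos x * cb + e * Real.sin x * sb) *
      (Real.sin x * cb - e * Real.cos x * sb))) x := by
  have h1 := D_pos P he hh hs x
  have h2 := R_mul P he hh hs x
  have h3 := ((hasDerivAt_const x (h - 1)).div ((dD P he hh hs x).const_add 1) (by positivity))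
  refine h3.congr_deriv ?_
  have h4 := ND P he x
  have h5 : fR lam e h x = (h - 1) / (1 + fD lam e h x) := rfl
  have h6 : 4 * N * fR lam e h x ^ 2 * (Real.cos x * cb + e * Real.sin x * sb) *
      (Real.sin x * cb - e * Real.cos x * sb) =
      fR lam e h x ^ 2 * (2 * Real.sin (2 * x) - 2 * e * lam * Real.cos (2 * x)) := by
    linear_combination fR lam e h x ^ 2 * h4
  rw [h6, h5]
  have h7 : (1 + fD lam e h x) ≠ 0 := by positivity
  field_simp
  ring

theorem dal (e x : ℝ) : HasDerivAt (fun x => Real.cos x * cb + e * Real.sin x * sb)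
    (-(Real.sin x * cb - e * Real.cos x * sb)) x := by
  refine (((Real.hasDerivAt_cos x).mul_const cb).add
    (((Real.hasDerivAt_sin x).const_mul e).mul_const sb)).congr_deriv ?_
  ring

theorem dbe (e x : ℝ) : HasDerivAt (fun x => Real.sin x * cb - e * Real.cos x * sb)
    (Real.cos x * cb + e * Real.sin x * sb) x := by
  refine (((Real.hasDerivAt_sin x).mul_const cb).sub
    (((Real.hasDerivAt_cos x).const_mul e).mul_const sb)).congr_deriv ?_
  ring

theorem da (P : Par c mu lam N sb cb r2) {e : ℝ} (he : e ^ 2 = 1) {h : ℝ} (hh : 1 < h)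
    (hs : N * (h - 1) < 1) (x : ℝ) : HasDerivAt (fa lam sb cb r2 e h)
    (1 / (2 * fD lam e h x) * (-2 * fb lam sb cb r2 e h x * (1 - N * fR lam e h x))) x := by
  have h1 := D_pos P he hh hs x
  have h2 := (((dR P he hh hs x).const_mul r2).mul (dal (cb := cb) (sb := sb) e x))
  refine h2.congr_deriv ?_
  have h3 := RC P he hh hs x
  have h4 := NC P he x
  unfold fb
  field_simp
  linear_combination (2 * r2 * fR lam e h x * (Real.sin x * cb - e * Real.cos x * sb)) *
    (h3 + fR lam e h x * h4)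

theorem db (P : Par c mu lam N sb cb r2) {e : ℝ} (he : e ^ 2 = 1) {h : ℝ} (hh : 1 < h)
    (hs : N * (h - 1) < 1) (x : ℝ) : HasDerivAt (fb lam sb cb r2 e h)
    (1 / (2 * fD lam e h x) * (2 * fa lam sb cb r2 e h x * (1 + N * fR lam e h x))) x := by
  have h1 := D_pos P he hh hs x
  have h2 := (((dR P he hh hs x).const_mul r2).mul (dbe (cb := cb) (sb := sb) e x))
  refine h2.congr_deriv ?_
  have h3 := RC P he hh hs x
  have h4 := NC P he x
  have h5 := al_be P he x
  unfold fa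
  field_simp
  linear_combination (-(2 * r2 * fR lam e h x * (Real.cos x * cb + e * Real.sin x * sb))) *
    (h3 + fR lam e h x * h4 - 2 * N * fR lam e h x * h5)

end SlF

open SlF

/-- **Slices for `h < 1 + 1 / N`.** -/
theorem slcF (P : Par c mu lam N sb cb r2) {e : ℝ} (he : e ^ 2 = 1) {h : ℝ} (hh : 1 < h)
    (hs : N * (h - 1) < 1) : Slc N sb cb r2 e h 0 Real.pi (fR lam e h) (fa lam sb cb r2 e h)
      (fb lam sb cb r2 e h) (fun x => 1 / (2 * fD lam e h x)) := by
  have hC0 : fC lam e 0 = 1 := by unfold fC; simp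
  have hD0 : fD lam e h 0 = Real.sqrt h := by
    unfold fD
    rw [hC0]
    congr 1
    ring
  have hR0 : fR lam e h 0 = ra h := by
    have h1 := R_mul P he hh hs 0
    rw [hD0] at h1
    have h2 : ra h * (1 + Real.sqrt h) = h - 1 := by
      unfold ra
      linear_combination Real.sq_sqrt (by linarith : (0 : ℝ) ≤ h)
    have h3 : (1 + Real.sqrt h) ≠ 0 := by positivity
    exact mul_right_cancel₀ h3 (h1.trans h2.symm)
  refine ⟨Real.pi_pos, fun x _ => (dR P he hh hs x).continuousAt.continuousWithinAt,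
    fun x _ => (da P he hh hs x).continuousAt.continuousWithinAt,
    fun x _ => (db P he hh hs x).continuousAt.continuousWithinAt, fun x _ => ?_,
    fun x _ => da P he hh hs x, fun x _ => db P he hh hs x, fun x _ => ?_,
    fun x _ => cone P he x, fun x _ => lev P he hh hs x, fun x _ => R_pos P he hh hs x,
    fun x _ => (FF P he hh hs x).1, fun x hx => ?_, hR0, ?_, ?_⟩
  · refine (dR P he hh hs x).congr_deriv ?_
    congr 1
    unfold fa fb
    linear_combination (-(2 * N * fR lam e h x ^ 2 * (Real.cos x * cb + e * Real.sin x * sb) *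
      (Real.sin x * cb - e * Real.cos x * sb))) * P.r22
  · have h1 := D_pos P he hh hs x
    positivity
  · rw [v_eq P he x]
    have h1 := R_pos P he hh hs x
    have h2 := P.r20
    have h3 := Real.sin_pos_of_pos_of_lt_pi hx.1 hx.2
    positivity
  · unfold fa
    rw [hR0]
    simp
  · unfold fb
    rw [hR0]
    simp
    ring

theorem slcF_NR (P : Par c mu lam N sb cb r2) {e : ℝ} (he : e ^ 2 = 1) {h : ℝ} (hh : 1 < h)
    (hs : N * (h - 1) < 1) (x : ℝ) : 0 < 1 - N * fR lam e h x := NR_lt P he hh hs x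

theorem slcF_Fm (P : Par c mu lam N sb cb r2) {e : ℝ} (he : e ^ 2 = 1) {h : ℝ} (hh : 1 < h)
    (hs : N * (h - 1) < 1) (x : ℝ) : 0 < 1 - N * fR lam e h x - N * fa lam sb cb r2 e h x :=
  (FF P he hh hs x).2

theorem slcF_v (P : Par c mu lam N sb cb r2) {e : ℝ} (he : e ^ 2 = 1) {h : ℝ} (x : ℝ) :
    fb lam sb cb r2 e h x * cb + e * fa lam sb cb r2 e h x * sb = r2 * fR lam e h x * Real.sin x :=
  v_eq P he x

/-- Points of the level curve in the parametrisation. -/
theorem slcF_point (P : Par c mu lam N sb cb r2) {e : ℝ} (he : e ^ 2 = 1) {h : ℝ} (hh : 1 < h)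
    (hs : N * (h - 1) < 1) {R a b : ℝ} (hR : 0 < R) (hc : a ^ 2 + b ^ 2 = 2 * R ^ 2)
    (hl : h = 1 + 2 * R - N * R ^ 2 + N * a ^ 2) (hNR : N * R < 1)
    (hv : 0 ≤ b * cb + e * a * sb) :
    ∃ x ∈ Icc 0 Real.pi, fR lam e h x = R ∧ fa lam sb cb r2 e h x = a ∧
      fb lam sb cb r2 e h x = b ∧ (0 < b * cb + e * a * sb → x ∈ Ioo 0 Real.pi) ∧
      (b * cb + e * a * sb = 0 → a < 0 → x = Real.pi) := by
  have hr2 := P.r20
  have hr22 := P.r22
  have hN := P.N0
  obtain ⟨S, hSd⟩ : ∃ S, S = a * cb - e * b * sb := ⟨_, rfl⟩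
  obtain ⟨v, hvd⟩ : ∃ v, v = b * cb + e * a * sb := ⟨_, rfl⟩
  rw [← hvd] at hv
  rw [← hvd]
  have hrR : 0 < r2 * R := by positivity
  have hSv : S ^ 2 + v ^ 2 = (r2 * R) ^ 2 := by
    rw [hSd, hvd]
    linear_combination (a ^ 2 + b ^ 2) * P.cs + (a ^ 2 + b ^ 2) * sb ^ 2 * he + hc
      - R ^ 2 * hr22
  have h1 : -1 ≤ S / (r2 * R) := by
    rw [le_div_iff₀ hrR]
    nlinarith [sq_nonneg v]
  have h2 : S / (r2 * R) ≤ 1 := by
    rw [div_le_iff₀ hrR]
    nlinarith [sq_nonneg v]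
  have hcos : Real.cos (Real.arccos (S / (r2 * R))) = S / (r2 * R) := Real.cos_arccos h1 h2
  have hsin : Real.sin (Real.arccos (S / (r2 * R))) = v / (r2 * R) := by
    rw [Real.sin_arccos]
    have h3 : 1 - (S / (r2 * R)) ^ 2 = (v / (r2 * R)) ^ 2 := by
      field_simp
      linear_combination (-1 : ℝ) * hSv
    rw [h3]
    exact Real.sqrt_sq (div_nonneg hv hrR.le)
  have hmem : Real.arccos (S / (r2 * R)) ∈ Icc 0 Real.pi :=
    ⟨Real.arccos_nonneg _, Real.arccos_le_pi _⟩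
  generalize Real.arccos (S / (r2 * R)) = x at *
  have hal : r2 * R * (Real.cos x * cb + e * Real.sin x * sb) = a := by
    rw [hcos, hsin]
    field_simp
    rw [hSd, hvd]
    linear_combination a * P.cs + a * sb ^ 2 * he
  have hbe : r2 * R * (Real.sin x * cb - e * Real.cos x * sb) = b := by
    rw [hcos, hsin]
    field_simp
    rw [hSd, hvd]
    linear_combination b * P.cs + b * sb ^ 2 * he
  have hNC := NC P he x
  have hC : R ^ 2 * fC lam e x = N * (a ^ 2 - R ^ 2) := by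
    rw [← hNC, ← hal]
    linear_combination (-(N * R ^ 2 * (Real.cos x * cb + e * Real.sin x * sb) ^ 2)) * hr22
  have hh1 : h - 1 = 2 * R + R ^ 2 * fC lam e x := by rw [hC, hl]; ring
  have hpos : 0 < 1 + R * fC lam e x := by
    have h3 : 0 < R * (1 + R * fC lam e x) := by
      have : R * (1 + R * fC lam e x) = R * (1 - N * R) + N * a ^ 2 := by
        linear_combination hC
      rw [this]
      have : 0 < R * (1 - N * R) := mul_pos hR (by linarith)
      have : 0 ≤ N * a ^ 2 := by positivity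
      linarith
    exact pos_of_mul_pos_right h3 hR.le
  have hD : fD lam e h x = 1 + R * fC lam e x := by
    unfold fD
    rw [hh1, show 1 + (2 * R + R ^ 2 * fC lam e x) * fC lam e x = (1 + R * fC lam e x) ^ 2 by ring]
    exact Real.sqrt_sq hpos.le
  have hRx : fR lam e h x = R := by
    have h3 := R_mul P he hh hs x
    have h4 : R * (1 + fD lam e h x) = h - 1 := by rw [hD, hh1]; ring
    have h5 : 1 + fD lam e h x ≠ 0 := by
      have := D_pos P he hh hs x
      positivity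
    exact mul_right_cancel₀ h5 (h3.trans h4.symm)
  refine ⟨x, hmem, hRx, ?_, ?_, ?_, ?_⟩
  · unfold fa; rw [hRx]; exact hal
  · unfold fb; rw [hRx]; exact hbe
  · intro hv0
    have h3 : 0 < Real.sin x := by rw [hsin]; exact div_pos hv0 hrR
    refine ⟨lt_of_le_of_ne hmem.1 ?_, lt_of_le_of_ne hmem.2 ?_⟩
    · intro h4; rw [← h4, Real.sin_zero] at h3; exact lt_irrefl _ h3
    · intro h4; rw [h4, Real.sin_pi] at h3; exact lt_irrefl _ h3
  · intro hv0 ha
    rw [hv0, zero_div] at hsin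
    by_contra hne
    have h4 : x < Real.pi := lt_of_le_of_ne hmem.2 hne
    rcases hmem.1.eq_or_lt with h5 | h5
    · rw [← h5, Real.cos_zero, Real.sin_zero] at hal
      have h6 := P.cb0
      have : 0 < r2 * R * (1 * cb + e * 0 * sb) := by
        rw [mul_zero, zero_mul, add_zero, one_mul]; positivity
      linarith
    · exact absurd hsin (Real.sin_pos_of_pos_of_lt_pi h5 h4).ne'

theorem fC_mirror (lam e x : ℝ) : fC lam (-e) (Real.pi - x) = fC lam e x := by
  unfold fC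
  rw [show 2 * (Real.pi - x) = 2 * Real.pi - 2 * x by ring, Real.cos_two_pi_sub, Real.sin_two_pi_sub]
  ring

theorem fD_mirror (lam e h x : ℝ) : fD lam (-e) h (Real.pi - x) = fD lam e h x := by
  unfold fD; rw [fC_mirror]

theorem fR_mirror (lam e h x : ℝ) : fR lam (-e) h (Real.pi - x) = fR lam e h x := by
  unfold fR; rw [fD_mirror]

theorem fa_mirror (lam sb cb r2 e h x : ℝ) :
    fa lam sb cb r2 (-e) h (Real.pi - x) = -fa lam sb cb r2 e h x := by
  unfold fa; rw [fR_mirror, Real.cos_pi_sub, Real.sin_pi_sub]; ring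

theorem fb_mirror (lam sb cb r2 e h x : ℝ) :
    fb lam sb cb r2 (-e) h (Real.pi - x) = fb lam sb cb r2 e h x := by
  unfold fb; rw [fR_mirror, Real.cos_pi_sub, Real.sin_pi_sub]; ring

namespace SlF

theorem sv_mirror (P : Par c mu lam N sb cb r2) {h x : ℝ} :
    sv sb cb (-1) (fa lam sb cb r2 (-1) h) (fb lam sb cb r2 (-1) h) (Real.pi - x) =
      sv sb cb 1 (fa lam sb cb r2 1 h) (fb lam sb cb r2 1 h) x := by
  unfold sv
  rw [v_eq P (by norm_num : (-1 : ℝ) ^ 2 = 1), v_eq P (by norm_num : (1 : ℝ) ^ 2 = 1),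
    fR_mirror, Real.sin_pi_sub]

/-- a sum `f x + g (π - x)` with zero derivative is constant -/
theorem const_sum {f g f' g' : ℝ → ℝ} (hf : ContinuousOn f (Icc 0 Real.pi))
    (hg : ContinuousOn g (Icc 0 Real.pi)) (df : ∀ x ∈ Ioo 0 Real.pi, HasDerivAt f (f' x) x)
    (dg : ∀ x ∈ Ioo 0 Real.pi, HasDerivAt g (g' x) x)
    (heq : ∀ x ∈ Ioo 0 Real.pi, g' (Real.pi - x) = f' x) (f0 : f 0 = 0) (g0 : g 0 = 0) :
    (∀ x ∈ Icc 0 Real.pi, f x + g (Real.pi - x) = f Real.pi) ∧ f Real.pi = g Real.pi := by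
  have hmap : MapsTo (fun x => Real.pi - x) (Icc 0 Real.pi) (Icc 0 Real.pi) := by
    intro x hx
    exact ⟨by linarith [hx.2], by linarith [hx.1]⟩
  have hcont : ContinuousOn (fun x => f x + g (Real.pi - x)) (Icc 0 Real.pi) :=
    hf.add (hg.comp (by fun_prop) hmap)
  have hd : ∀ x ∈ Ioo 0 Real.pi, HasDerivAt (fun x => f x + g (Real.pi - x)) 0 x := by
    intro x hx
    have hx' : Real.pi - x ∈ Ioo 0 Real.pi := ⟨by linarith [hx.2], by linarith [hx.1]⟩
    have h1 : HasDerivAt (fun x => Real.pi - x) (-1) x := by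
      simpa using (hasDerivAt_id x).const_sub Real.pi
    have h2 := (dg _ hx').comp x h1
    refine ((df x hx).add h2).congr_deriv ?_
    rw [heq x hx]; ring
  have hdf : DifferentiableOn ℝ (fun x => f x + g (Real.pi - x)) (interior (Icc 0 Real.pi)) := by
    rw [interior_Icc]
    exact fun x hx => (hd x hx).differentiableAt.differentiableWithinAt
  have hm : MonotoneOn (fun x => f x + g (Real.pi - x)) (Icc 0 Real.pi) := by
    refine monotoneOn_of_deriv_nonneg (convex_Icc _ _) hcont hdf fun x hx => ?_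
    rw [interior_Icc] at hx
    rw [(hd x hx).deriv]
  have ha : AntitoneOn (fun x => f x + g (Real.pi - x)) (Icc 0 Real.pi) := by
    refine antitoneOn_of_deriv_nonpos (convex_Icc _ _) hcont hdf fun x hx => ?_
    rw [interior_Icc] at hx
    rw [(hd x hx).deriv]
  have hpi : Real.pi ∈ Icc 0 Real.pi := ⟨Real.pi_pos.le, le_rfl⟩
  have key : ∀ x ∈ Icc 0 Real.pi, f x + g (Real.pi - x) = f Real.pi := by
    intro x hx
    have h1 := hm hx hpi hx.2
    have h2 := ha hx hpi hx.2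
    simp only [sub_self, g0, add_zero] at h1 h2
    exact le_antisymm h1 h2
  refine ⟨key, ?_⟩
  have h3 := key 0 ⟨le_rfl, Real.pi_pos.le⟩
  rw [f0, zero_add, sub_zero] at h3
  exact h3.symm

end SlF

/-- Total `T`, `z` of the slices and the mirror. -/
theorem slcF_T_tot (P : Par c mu lam N sb cb r2) {h : ℝ} (hh : 1 < h) (hs : N * (h - 1) < 1) :
    (∀ x ∈ Icc 0 Real.pi,
      sT N sb cb r2 1 h (fR lam 1 h) (fa lam sb cb r2 1 h) (fb lam sb cb r2 1 h) x +
        sT N sb cb r2 (-1) h (fR lam (-1) h) (fa lam sb cb r2 (-1) h) (fb lam sb cb r2 (-1) h)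
          (Real.pi - x) =
      sT N sb cb r2 1 h (fR lam 1 h) (fa lam sb cb r2 1 h) (fb lam sb cb r2 1 h) Real.pi) ∧
    sT N sb cb r2 1 h (fR lam 1 h) (fa lam sb cb r2 1 h) (fb lam sb cb r2 1 h) Real.pi =
      sT N sb cb r2 (-1) h (fR lam (-1) h) (fa lam sb cb r2 (-1) h) (fb lam sb cb r2 (-1) h)
        Real.pi := by
  have s1 := slcF P (by norm_num : (1 : ℝ) ^ 2 = 1) hh hs
  have s2 := slcF P (by norm_num : (-1 : ℝ) ^ 2 = 1) hh hs
  refine const_sum (s1.T_cont P hh) (s2.T_cont P hh) (s1.T_deriv P hh) (s2.T_deriv P hh)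
    (fun x _ => ?_) s1.T_start s2.T_start
  rw [sv_mirror P, fD_mirror]

theorem slcF_Z_tot (P : Par c mu lam N sb cb r2) {h : ℝ} (hh : 1 < h) (hs : N * (h - 1) < 1) :
    (∀ x ∈ Icc 0 Real.pi,
      sZ N lam sb cb r2 1 h (fR lam 1 h) (fa lam sb cb r2 1 h) (fb lam sb cb r2 1 h) x +
        sZ N lam sb cb r2 (-1) h (fR lam (-1) h) (fa lam sb cb r2 (-1) h) (fb lam sb cb r2 (-1) h)
          (Real.pi - x) =
      sZ N lam sb cb r2 1 h (fR lam 1 h) (fa lam sb cb r2 1 h) (fb lam sb cb r2 1 h) Real.pi) ∧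
    sZ N lam sb cb r2 1 h (fR lam 1 h) (fa lam sb cb r2 1 h) (fb lam sb cb r2 1 h) Real.pi =
      sZ N lam sb cb r2 (-1) h (fR lam (-1) h) (fa lam sb cb r2 (-1) h) (fb lam sb cb r2 (-1) h)
        Real.pi := by
  have h1 : (1 : ℝ) ^ 2 = 1 := by norm_num
  have h2 : (-1 : ℝ) ^ 2 = 1 := by norm_num
  have s1 := slcF P h1 hh hs
  have s2 := slcF P h2 hh hs
  refine const_sum (s1.Z_cont P hh) (s2.Z_cont P hh) (s1.Z_deriv P h1 hh) (s2.Z_deriv P h2 hh)
    (fun x _ => ?_) (s1.Z_start P h1) (s2.Z_start P h2)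
  rw [sv_mirror P, fD_mirror]

end B92.KC
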