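import Mathlib
import Pool.Agent.Lib.B92KC.Slc
import Pool.Agent.Lib.B92KC.SlF
import Pool.Agent.Lib.B92KC.KCmp
import Pool.Agent.Lib.B92KC.Geo
import Pool.Agent.Lib.B92.Slice

/-!
# MP_b92fc8_an, case kappa < -1 : comparison of the two sectors at a level `h`, `N (h - 1) < 1`
-/

set_option autoImplicit false

open Set Filter Topology

noncomputable section

namespace B92.KC

variable {c mu lam N sb cb r2 : ℝ}

/-- Lower bound for `u` on the oval. -/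
theorem u_ge (P : Par c mu lam N sb cb r2) {e : ℝ} (he : e ^ 2 = 1) {R a b v h : ℝ}
    (hab : a ^ 2 + b ^ 2 = 2 * R ^ 2) (hv : v = b * cb + e * a * sb)
    (hh : h = 1 + 2 * R - N * R ^ 2 + N * a ^ 2) (hR : 0 < R)
    (hp : 0 ≤ 1 - N * R + N * a) (hm : 0 ≤ 1 - N * R - N * a) (h1 : 0 < 1 - N * R) :
    1 - N * (h - 1) ≤ 2 * h - 2 * N ^ 2 * v ^ 2 := by
  rw [u_ab P he hab hv hh]
  have hN := P.N0
  have hl := P.lam0
  have hlN := P.lamN
  have hNa : N * |a| ≤ 1 - N * R := by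
    rcases abs_cases a with ⟨h, _⟩ | ⟨h, _⟩ <;> rw [h] <;> linarith
  have hb : |b| ≤ 3 / 2 * R := by
    apply abs_le_of_sq_le_sq _ (by positivity)
    nlinarith [sq_nonneg a]
  have hterm : 2 * e * N * lam * a * b ≤ 2 * lam * (1 - N * R) * (3 / 2 * R) := by
    calc 2 * e * N * lam * a * b ≤ |2 * e * N * lam * a * b| := le_abs_self _
      _ = 2 * lam * (N * |a|) * |b| := by
          rw [abs_mul, abs_mul, abs_mul, abs_mul, abs_mul, abs_e he, abs_of_pos hN, abs_of_pos hl,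
            abs_two]
          ring
      _ ≤ 2 * lam * (1 - N * R) * (3 / 2 * R) := by
          apply mul_le_mul _ hb (abs_nonneg _) (by positivity)
          exact mul_le_mul_of_nonneg_left hNa (by positivity)
  have h2 : 1 ≤ 2 * (1 + (N + 2) * R) - 2 * lam * (3 / 2 * R) := by nlinarith
  have h3 : (1 - N * R) * 1 ≤ (1 - N * R) * (2 * (1 + (N + 2) * R) - 2 * lam * (3 / 2 * R)) :=
    mul_le_mul_of_nonneg_left h2 h1.le
  have h4 : 0 ≤ 4 * N * a ^ 2 := by positivity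
  have h5 : 1 - N * (h - 1) ≤ (1 - N * R) * 1 := by
    have e1 : 1 - N * (h - 1) = (1 - N * R) ^ 2 - (N * a) ^ 2 := by rw [hh]; ring
    have e2 : 0 < N * R := mul_pos hN hR
    rw [e1]
    nlinarith [sq_nonneg (N * a)]
  nlinarith

/-- Matched pairs, `N (h - 1) < 1`, first half. -/
theorem lo_half (P : Par c mu lam N sb cb r2) {h : ℝ} (hh : 1 < h) (hs : N * (h - 1) < 1)
    {x y : ℝ} (hx : x ∈ Ioo 0 Real.pi) (hy : y ∈ Ioo 0 Real.pi)
    (hT : sT N sb cb r2 1 h (fR lam 1 h) (fa lam sb cb r2 1 h) (fb lam sb cb r2 1 h) x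
      = sT N sb cb r2 (-1) h (fR lam (-1) h) (fa lam sb cb r2 (-1) h) (fb lam sb cb r2 (-1) h) y)
    (hhalf : 2 * sT N sb cb r2 1 h (fR lam 1 h) (fa lam sb cb r2 1 h) (fb lam sb cb r2 1 h) x
      ≤ sT N sb cb r2 1 h (fR lam 1 h) (fa lam sb cb r2 1 h) (fb lam sb cb r2 1 h) Real.pi) :
    sZ N lam sb cb r2 (-1) h (fR lam (-1) h) (fa lam sb cb r2 (-1) h) (fb lam sb cb r2 (-1) h) y
      < sZ N lam sb cb r2 1 h (fR lam 1 h) (fa lam sb cb r2 1 h) (fb lam sb cb r2 1 h) x := by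
  have s := slcF P (e := 1) (by norm_num) hh hs
  have s' := slcF P (e := -1) (by norm_num) hh hs
  have hTt := (slcF_T_tot P hh hs).1
  set T1 := sT N sb cb r2 1 h (fR lam 1 h) (fa lam sb cb r2 1 h) (fb lam sb cb r2 1 h) with hT1
  set T2 := sT N sb cb r2 (-1) h (fR lam (-1) h) (fa lam sb cb r2 (-1) h)
    (fb lam sb cb r2 (-1) h) with hT2
  have hp := ra_pos hh
  have hcb := P.cb0
  have hr2 := P.r20
  have sr := s.restrict (x := x) ⟨hx.1, hx.2.le⟩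
  have sr' := s'.restrict (x := y) ⟨hy.1, hy.2.le⟩
  have hmono := s.T_mono P hh
  have hmono' := s'.T_mono P hh
  refine slices_lt P hh sr sr' hT ?_
  intro p hp1 q hq1 hpq
  have hpI : p ∈ Icc 0 Real.pi := ⟨hp1.1.le, hp1.2.le.trans hx.2.le⟩
  have hqI : q ∈ Icc 0 Real.pi := ⟨hq1.1.le, hq1.2.le.trans hy.2.le⟩
  have hxI : x ∈ Icc 0 Real.pi := Ioo_subset_Icc_self hx
  have hTp : T1 p < T1 x := hmono hpI hxI hp1.2
  -- the pair
  have hpair : ∀ p ∈ Ioo 0 Real.pi, ∀ q ∈ Ioo 0 Real.pi, T2 q = T1 p → _ := fun p hp q hq hpq =>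
    pair P (s.R0 p (Ioo_subset_Icc_self hp)) (s'.R0 q (Ioo_subset_Icc_self hq))
      (s.cone p (Ioo_subset_Icc_self hp)) (s'.cone q (Ioo_subset_Icc_self hq))
      (s.lev p (Ioo_subset_Icc_self hp)) (s'.lev q (Ioo_subset_Icc_self hq)) hh
      (s.F0 p (Ioo_subset_Icc_self hp)) (s'.F0 q (Ioo_subset_Icc_self hq))
      (by have := s.v0 p hp; linarith) (by have := s'.v0 q hq; linarith)
      (match_log P hh (s'.R0 q (Ioo_subset_Icc_self hq)) (s'.cone q (Ioo_subset_Icc_self hq))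
        (s'.lev q (Ioo_subset_Icc_self hq)) hpq.symm)
  have hsum : 0 < fa lam sb cb r2 1 h p + fa lam sb cb r2 (-1) h q := by
    by_contra hcon
    push Not at hcon
    obtain ⟨S1, hS1, hS10, -, hS1l, hS1i, hS1d⟩ := exists_inv s.lt (s.T_cont P hh)
      (s.T_deriv P hh) s.T_rate
    obtain ⟨S2, hS2, hS20, -, hS2l, hS2i, hS2d⟩ := exists_inv s'.lt (s'.T_cont P hh)
      (s'.T_deriv P hh) s'.T_rate
    rw [← hT1] at hS10 hS1l hS1i hS1d
    rw [← hT2] at hS20 hS2l hS2i hS2d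
    have t10 : T1 0 = 0 := s.T_start
    have t20 : T2 0 = 0 := s'.T_start
    have hpi0 : (0:ℝ) ∈ Icc 0 Real.pi := ⟨le_rfl, Real.pi_pos.le⟩
    have hpiI : Real.pi ∈ Icc 0 Real.pi := ⟨Real.pi_pos.le, le_rfl⟩
    have ttot : T2 Real.pi = T1 Real.pi := by
      have := hTt 0 hpi0
      rw [t10, sub_zero] at this
      linarith
    have hTp0 : 0 < T1 p := by rw [← t10]; exact hmono hpi0 hpI hp1.1
    have hTxpi : T1 x < T1 Real.pi := hmono hxI hpiI hx.2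
    set f : ℝ → ℝ := fun t => fa lam sb cb r2 1 h (S1 t) + fa lam sb cb r2 (-1) h (S2 t) with hf
    have hfc : ContinuousOn f (Icc 0 (T1 p)) := by
      refine ContinuousOn.add ?_ ?_
      · refine s.ca.comp hS1.continuousOn fun t ht => (hS1i t ⟨by rw [t10]; exact ht.1, ?_⟩).1
        linarith [ht.2]
      · refine s'.ca.comp hS2.continuousOn fun t ht => (hS2i t ⟨by rw [t20]; exact ht.1, ?_⟩).1
        rw [ttot]; linarith [ht.2]
    have hf0 : 0 < f 0 := by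
      have e1 : S1 0 = 0 := by rw [t10] at hS10; exact hS10
      have e2 : S2 0 = 0 := by rw [t20] at hS20; exact hS20
      simp only [hf]
      rw [e1, e2, s.sa, s'.sa]
      positivity
    have hf1 : f (T1 p) ≤ 0 := by
      simp only [hf]
      have hpq' : T2 q = T1 p := hpq
      rw [hS1l p hpI, ← hpq', hS2l q hqI]
      exact hcon
    obtain ⟨t, ht, hft⟩ : ∃ t ∈ Icc 0 (T1 p), f t = 0 := by
      have := intermediate_value_Icc' hTp0.le hfc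
      have h3 : (0:ℝ) ∈ Icc (f (T1 p)) (f 0) := ⟨hf1, hf0.le⟩
      obtain ⟨t, ht, ht2⟩ := this h3
      exact ⟨t, ht, ht2⟩
    have ht0 : 0 < t := by
      rcases ht.1.eq_or_lt with h6 | h6
      · rw [← h6] at hft; linarith
      · exact h6
    have g1 := hS1i t ⟨by rw [t10]; exact ht.1, by linarith [ht.2]⟩
    have g2 := hS2i t ⟨by rw [t20]; exact ht.1, by rw [ttot]; linarith [ht.2]⟩
    have k1 := hS1d t ⟨by rw [t10]; exact ht0, by linarith [ht.2]⟩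
    have k2 := hS2d t ⟨by rw [t20]; exact ht0, by rw [ttot]; linarith [ht.2]⟩
    obtain ⟨m1, m2, m3⟩ := (hpair (S1 t) k1.1 (S2 t) k2.1 (by rw [g1.2, g2.2])).2.2.1 hft
    have hmir : T2 (S2 t) = T2 (Real.pi - S1 t) := by
      simp only [hT2, sT]
      rw [m1, m2, m3, fR_mirror lam 1 h (S1 t), fa_mirror lam sb cb r2 1 h (S1 t),
        fb_mirror lam sb cb r2 1 h (S1 t)]
    have := hTt (S1 t) (Ioo_subset_Icc_self k1.1)
    rw [← hmir, g1.2, g2.2] at this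
    linarith [ht.2]
  have h5 := (hpair p ⟨hp1.1, hp1.2.trans hx.2⟩ q ⟨hq1.1, hq1.2.trans hy.2⟩ hpq).1 hsum
  simp only [sv]
  linarith

theorem lo_all (P : Par c mu lam N sb cb r2) {h : ℝ} (hh : 1 < h) (hs : N * (h - 1) < 1)
    {x y : ℝ} (hx : x ∈ Ioo 0 Real.pi) (hy : y ∈ Ioo 0 Real.pi)
    (hT : sT N sb cb r2 1 h (fR lam 1 h) (fa lam sb cb r2 1 h) (fb lam sb cb r2 1 h) x
      = sT N sb cb r2 (-1) h (fR lam (-1) h) (fa lam sb cb r2 (-1) h)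
        (fb lam sb cb r2 (-1) h) y) :
    sZ N lam sb cb r2 (-1) h (fR lam (-1) h) (fa lam sb cb r2 (-1) h) (fb lam sb cb r2 (-1) h) y
      < sZ N lam sb cb r2 1 h (fR lam 1 h) (fa lam sb cb r2 1 h) (fb lam sb cb r2 1 h) x := by
  rcases le_or_gt (2 * sT N sb cb r2 1 h (fR lam 1 h) (fa lam sb cb r2 1 h)
    (fb lam sb cb r2 1 h) x) (sT N sb cb r2 1 h (fR lam 1 h) (fa lam sb cb r2 1 h)
    (fb lam sb cb r2 1 h) Real.pi) with h1 | h1
  · exact lo_half P hh hs hx hy hT h1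
  · have hTt := (slcF_T_tot P hh hs).1
    have hZt := (slcF_Z_tot P hh hs).1
    have hy' : Real.pi - y ∈ Ioo 0 Real.pi := ⟨by linarith [hy.2], by linarith [hy.1]⟩
    have hx' : Real.pi - x ∈ Ioo 0 Real.pi := ⟨by linarith [hx.2], by linarith [hx.1]⟩
    have e1 := hTt x (Ioo_subset_Icc_self hx)
    have e2 := hTt (Real.pi - y) (Ioo_subset_Icc_self hy')
    have e3 := hZt x (Ioo_subset_Icc_self hx)
    have e4 := hZt (Real.pi - y) (Ioo_subset_Icc_self hy')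
    rw [sub_sub_cancel] at e2 e4
    have := lo_half P hh hs hy' hx' (by linarith) (by linarith)
    linarith

/-- **Comparison at a level `h` with `N (h - 1) < 1`.** -/
theorem comp_lo (P : Par c mu lam N sb cb r2) {h : ℝ} (hh : 1 < h) (hs : N * (h - 1) < 1)
    {R1 a1 b1 R2 a2 b2 : ℝ} (hR1 : 0 < R1) (c1 : a1 ^ 2 + b1 ^ 2 = 2 * R1 ^ 2)
    (l1 : h = 1 + 2 * R1 - N * R1 ^ 2 + N * a1 ^ 2) (F1 : N * R1 < 1)
    (v1 : 0 < b1 * cb + 1 * a1 * sb)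
    (hR2 : 0 < R2) (c2 : a2 ^ 2 + b2 ^ 2 = 2 * R2 ^ 2)
    (l2 : h = 1 + 2 * R2 - N * R2 ^ 2 + N * a2 ^ 2) (F2 : N * R2 < 1)
    (v2 : 0 < b2 * cb + -1 * a2 * sb)
    (hT : TT N sb cb r2 (-1) h R2 a2 b2 ≤ TT N sb cb r2 1 h R1 a1 b1) :
    ZZ N lam sb cb r2 (-1) h R2 a2 b2
      + (1 - N * (h - 1)) * (TT N sb cb r2 1 h R1 a1 b1 - TT N sb cb r2 (-1) h R2 a2 b2)
      < ZZ N lam sb cb r2 1 h R1 a1 b1 := by
  obtain ⟨x1, hx1, e1, e2, e3, e4, -⟩ := slcF_point P (e := 1) (by norm_num) hh hs hR1 c1 l1 F1 v1.le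
  obtain ⟨y1, hy1, e1', e2', e3', e4', -⟩ :=
    slcF_point P (e := -1) (by norm_num) hh hs hR2 c2 l2 F2 v2.le
  have s := slcF P (e := 1) (by norm_num) hh hs
  have s' := slcF P (e := -1) (by norm_num) hh hs
  have hx1o := e4 v1
  have hy1o := e4' v2
  have t1 : sT N sb cb r2 1 h (fR lam 1 h) (fa lam sb cb r2 1 h) (fb lam sb cb r2 1 h) x1
      = TT N sb cb r2 1 h R1 a1 b1 := by simp only [sT, e1, e2, e3]
  have t2 : sT N sb cb r2 (-1) h (fR lam (-1) h) (fa lam sb cb r2 (-1) h)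
      (fb lam sb cb r2 (-1) h) y1 = TT N sb cb r2 (-1) h R2 a2 b2 := by
    simp only [sT, e1', e2', e3']
  have z1 : sZ N lam sb cb r2 1 h (fR lam 1 h) (fa lam sb cb r2 1 h) (fb lam sb cb r2 1 h) x1
      = ZZ N lam sb cb r2 1 h R1 a1 b1 := by simp only [sZ, e1, e2, e3]
  have z2 : sZ N lam sb cb r2 (-1) h (fR lam (-1) h) (fa lam sb cb r2 (-1) h)
      (fb lam sb cb r2 (-1) h) y1 = ZZ N lam sb cb r2 (-1) h R2 a2 b2 := by
    simp only [sZ, e1', e2', e3']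
  rw [← t1, ← t2] at hT ⊢
  rw [← z1, ← z2]
  have hpi0 : (0:ℝ) ∈ Icc 0 Real.pi := ⟨le_rfl, Real.pi_pos.le⟩
  have hpos := s'.T_mono P hh hpi0 hy1 hy1o.1
  rw [s'.T_start] at hpos
  obtain ⟨x, hx, hxT⟩ : ∃ x ∈ Icc 0 x1,
      sT N sb cb r2 1 h (fR lam 1 h) (fa lam sb cb r2 1 h) (fb lam sb cb r2 1 h) x
      = sT N sb cb r2 (-1) h (fR lam (-1) h) (fa lam sb cb r2 (-1) h)
        (fb lam sb cb r2 (-1) h) y1 := by
    have := intermediate_value_Icc hx1.1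
      ((s.T_cont P hh).mono (Icc_subset_Icc_right hx1.2))
    have h3 : sT N sb cb r2 (-1) h (fR lam (-1) h) (fa lam sb cb r2 (-1) h)
        (fb lam sb cb r2 (-1) h) y1 ∈ Icc
        (sT N sb cb r2 1 h (fR lam 1 h) (fa lam sb cb r2 1 h) (fb lam sb cb r2 1 h) 0)
        (sT N sb cb r2 1 h (fR lam 1 h) (fa lam sb cb r2 1 h) (fb lam sb cb r2 1 h) x1) :=
      ⟨by rw [s.T_start]; exact hpos.le, hT⟩
    obtain ⟨x, hx, hx2⟩ := this h3
    exact ⟨x, hx, hx2⟩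
  have hxgt : 0 < x := by
    rcases hx.1.eq_or_lt with h3 | h3
    · rw [← h3, s.T_start] at hxT
      linarith
    · exact h3
  have hxo : x ∈ Ioo 0 Real.pi := ⟨hxgt, hx.2.trans_lt hx1o.2⟩
  have key := lo_all P hh hs hxo hy1o hxT
  have hZ := s.Z_mono (lam := lam) P (by norm_num) hh (u0 := 1 - N * (h - 1)) (fun y hy => by
    have hy' := Ioo_subset_Icc_self hy
    have hNR := slcF_NR P (e := 1) (by norm_num) hh hs y
    have hFm := slcF_Fm P (e := 1) (by norm_num) hh hs y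
    exact u_ge P (e := 1) (by norm_num) (s.cone y hy') rfl (s.lev y hy') (s.R0 y hy')
      (s.F0 y hy').le hFm.le hNR) (Ioo_subset_Icc_self hxo) hx1 hx.2
  rw [hxT] at hZ
  linarith

/-- The sector `-1` at its end, the sector `1` not at its end. -/
theorem end_lo (P : Par c mu lam N sb cb r2) {h : ℝ} (hh : 1 < h) (hs : N * (h - 1) < 1)
    {R1 a1 b1 R2 a2 b2 : ℝ} (hR1 : 0 < R1) (c1 : a1 ^ 2 + b1 ^ 2 = 2 * R1 ^ 2)
    (l1 : h = 1 + 2 * R1 - N * R1 ^ 2 + N * a1 ^ 2) (F1 : N * R1 < 1)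
    (v1 : 0 < b1 * cb + 1 * a1 * sb)
    (hR2 : 0 < R2) (c2 : a2 ^ 2 + b2 ^ 2 = 2 * R2 ^ 2)
    (l2 : h = 1 + 2 * R2 - N * R2 ^ 2 + N * a2 ^ 2) (F2 : N * R2 < 1)
    (v2 : b2 * cb + -1 * a2 * sb = 0) (ha2 : a2 < 0) :
    ZZ N lam sb cb r2 1 h R1 a1 b1 < ZZ N lam sb cb r2 (-1) h R2 a2 b2 := by
  obtain ⟨x1, hx1, e1, e2, e3, e4, -⟩ := slcF_point P (e := 1) (by norm_num) hh hs hR1 c1 l1 F1 v1.le
  obtain ⟨y1, hy1, e1', e2', e3', -, e4'⟩ :=
    slcF_point P (e := -1) (by norm_num) hh hs hR2 c2 l2 F2 v2.ge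
  have s := slcF P (e := 1) (by norm_num) hh hs
  have hx1o := e4 v1
  have hy1o := e4' v2 ha2
  have z1 : sZ N lam sb cb r2 1 h (fR lam 1 h) (fa lam sb cb r2 1 h) (fb lam sb cb r2 1 h) x1
      = ZZ N lam sb cb r2 1 h R1 a1 b1 := by simp only [sZ, e1, e2, e3]
  have z2 : sZ N lam sb cb r2 (-1) h (fR lam (-1) h) (fa lam sb cb r2 (-1) h)
      (fb lam sb cb r2 (-1) h) y1 = ZZ N lam sb cb r2 (-1) h R2 a2 b2 := by
    simp only [sZ, e1', e2', e3']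
  rw [← z1, ← z2, hy1o]
  have hpi0 : (0:ℝ) ∈ Icc 0 Real.pi := ⟨le_rfl, Real.pi_pos.le⟩
  have hpiI : Real.pi ∈ Icc 0 Real.pi := ⟨Real.pi_pos.le, le_rfl⟩
  have hZt := (slcF_Z_tot P hh hs).1 0 hpi0
  rw [sub_zero, s.Z_start P (by norm_num), zero_add] at hZt
  rw [hZt]
  have hZ := s.Z_mono (lam := lam) P (by norm_num) hh (u0 := 1 - N * (h - 1)) (fun y hy => by
    have hy' := Ioo_subset_Icc_self hy
    have hNR := slcF_NR P (e := 1) (by norm_num) hh hs y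
    have hFm := slcF_Fm P (e := 1) (by norm_num) hh hs y
    exact u_ge P (e := 1) (by norm_num) (s.cone y hy') rfl (s.lev y hy') (s.R0 y hy')
      (s.F0 y hy').le hFm.le hNR) hx1 hpiI hx1.2
  have hTm := s.T_mono P hh hx1 hpiI hx1o.2
  have : 0 < (1 - N * (h - 1)) * (sT N sb cb r2 1 h (fR lam 1 h) (fa lam sb cb r2 1 h)
    (fb lam sb cb r2 1 h) Real.pi - sT N sb cb r2 1 h (fR lam 1 h) (fa lam sb cb r2 1 h)
    (fb lam sb cb r2 1 h) x1) := mul_pos (by linarith) (by linarith)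
  linarith

/-- Both sectors at their ends. -/
theorem end_eq (P : Par c mu lam N sb cb r2) {h : ℝ} (hh : 1 < h) (hs : N * (h - 1) < 1)
    {R1 a1 b1 R2 a2 b2 : ℝ} (hR1 : 0 < R1) (c1 : a1 ^ 2 + b1 ^ 2 = 2 * R1 ^ 2)
    (l1 : h = 1 + 2 * R1 - N * R1 ^ 2 + N * a1 ^ 2) (F1 : N * R1 < 1)
    (v1 : b1 * cb + 1 * a1 * sb = 0) (ha1 : a1 < 0)
    (hR2 : 0 < R2) (c2 : a2 ^ 2 + b2 ^ 2 = 2 * R2 ^ 2)
    (l2 : h = 1 + 2 * R2 - N * R2 ^ 2 + N * a2 ^ 2) (F2 : N * R2 < 1)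
    (v2 : b2 * cb + -1 * a2 * sb = 0) (ha2 : a2 < 0) :
    ZZ N lam sb cb r2 1 h R1 a1 b1 = ZZ N lam sb cb r2 (-1) h R2 a2 b2 := by
  obtain ⟨x1, hx1, e1, e2, e3, -, e4⟩ := slcF_point P (e := 1) (by norm_num) hh hs hR1 c1 l1 F1 v1.ge
  obtain ⟨y1, hy1, e1', e2', e3', -, e4'⟩ :=
    slcF_point P (e := -1) (by norm_num) hh hs hR2 c2 l2 F2 v2.ge
  have s := slcF P (e := 1) (by norm_num) hh hs
  have hx1o := e4 v1 ha1
  have hy1o := e4' v2 ha2
  have z1 : sZ N lam sb cb r2 1 h (fR lam 1 h) (fa lam sb cb r2 1 h) (fb lam sb cb r2 1 h) x1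
      = ZZ N lam sb cb r2 1 h R1 a1 b1 := by simp only [sZ, e1, e2, e3]
  have z2 : sZ N lam sb cb r2 (-1) h (fR lam (-1) h) (fa lam sb cb r2 (-1) h)
      (fb lam sb cb r2 (-1) h) y1 = ZZ N lam sb cb r2 (-1) h R2 a2 b2 := by
    simp only [sZ, e1', e2', e3']
  rw [← z1, ← z2, hy1o, hx1o]
  have hpi0 : (0:ℝ) ∈ Icc 0 Real.pi := ⟨le_rfl, Real.pi_pos.le⟩
  have hZt := (slcF_Z_tot P hh hs).1 0 hpi0
  rw [sub_zero, s.Z_start P (by norm_num), zero_add] at hZt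
  exact hZt.symm

end B92.KC
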