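import Mathlib
import Pool.Agent.Lib.B92KC.Par
import Pool.Agent.Lib.B92KC.Prim

/-!
# MP_b92fc8_an, case kappa < -1 : the field in the rotated variables, `Z` along orbits
-/

set_option autoImplicit false

open Set Filter Topology

noncomputable section

namespace B92.KC

variable {c mu lam N sb cb r2 e : ℝ}

/-- `mu R' = r2 (...)`. -/
def gR (c lam r2 e R S v : ℝ) : ℝ :=
  -(v * (1 + 3 * R)) + e * lam * R * S + r2 * c * (v * S + e * lam * (v ^ 2 - R ^ 2))

def gS (c lam r2 e R S v : ℝ) : ℝ :=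
  -(2 * v * S) + 2 * e * lam * R ^ 2 + e * lam * v ^ 2
    - r2 * c * (v * (1 - R) + e * lam * R * S)

def gv (c lam r2 e h R S v : ℝ) : ℝ :=
  1 - h - R ^ 2 - 3 * v ^ 2 + r2 * c * (S * (1 + R) + e * lam * R * v)

theorem XR_eq (P : Par c mu lam N sb cb r2) {U Y w : ℝ} (hc : U ^ 2 = Y ^ 2 + w ^ 2) :
    (XY (-c) (e * (mu * lam)) U Y w + c * XU (-c) (e * (mu * lam)) U Y w) / 2
      = r2 / mu * gR c lam r2 e (vR c U Y) (vS c r2 U Y) (vv mu r2 w) := by
  have h1 := P.r22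
  have h2 := P.mu2
  have h3 := P.r20.ne'
  have h4 := P.mu0.ne'
  have h5 : r2 * vv mu r2 w = mu * w := by simp only [vv]; field_simp
  have h6 : r2 * vS c r2 U Y = U + c * Y := by simp only [vS]; field_simp
  rw [div_mul_eq_mul_div, eq_div_iff h4]
  have h7 : r2 * gR c lam r2 e (vR c U Y) (vS c r2 U Y) (vv mu r2 w)
      = -((mu * w) * (1 + 3 * vR c U Y)) + e * lam * vR c U Y * (U + c * Y)
        + c * ((mu * w) * (U + c * Y) + e * lam * ((mu * w) ^ 2 - 2 * vR c U Y ^ 2)) := by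
    rw [← h5, ← h6]; simp only [gR]
    linear_combination (-(c * e * lam * vR c U Y ^ 2)) * h1
  rw [h7]
  simp only [vR, XY, XU]
  linear_combination (e * lam * ((-(U * Y) + c * (w ^ 2 - Y ^ 2)) / 2 - c * w ^ 2)) * h2
    + (e * lam * ((c ^ 2 - 1) * c / 2)) * hc

theorem XS_eq (P : Par c mu lam N sb cb r2) {U Y w : ℝ} (hc : U ^ 2 = Y ^ 2 + w ^ 2) :
    (XU (-c) (e * (mu * lam)) U Y w + c * XY (-c) (e * (mu * lam)) U Y w) / r2
      = r2 / mu * gS c lam r2 e (vR c U Y) (vS c r2 U Y) (vv mu r2 w) := by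
  have h1 := P.r22
  have h2 := P.mu2
  have h3 := P.r20.ne'
  have h4 := P.mu0.ne'
  have h5 : r2 * vv mu r2 w = mu * w := by simp only [vv]; field_simp
  have h6 : r2 * vS c r2 U Y = U + c * Y := by simp only [vS]; field_simp
  have h7 : r2 ^ 2 * gS c lam r2 e (vR c U Y) (vS c r2 U Y) (vv mu r2 w)
      = -(2 * (mu * w) * (U + c * Y)) + 4 * e * lam * vR c U Y ^ 2 + e * lam * (mu * w) ^ 2
        - 2 * c * ((mu * w) * (1 - vR c U Y) + e * lam * vR c U Y * (U + c * Y)) := by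
    rw [← h5, ← h6]; simp only [gS]
    linear_combination (2 * e * lam * vR c U Y ^ 2
      - c * r2 * (vv mu r2 w * (1 - vR c U Y) + e * lam * vR c U Y * vS c r2 U Y)) * h1
  have h8 : (XU (-c) (e * (mu * lam)) U Y w + c * XY (-c) (e * (mu * lam)) U Y w) * mu
      = r2 ^ 2 * gS c lam r2 e (vR c U Y) (vS c r2 U Y) (vv mu r2 w) := by
    rw [h7]
    simp only [vR, XY, XU]
    linear_combination (e * lam * ((w ^ 2 - Y ^ 2) - c * U * Y - w ^ 2)) * h2
  rw [div_mul_eq_mul_div, div_eq_div_iff h3 h4]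
  linear_combination h8

theorem Xv_eq (P : Par c mu lam N sb cb r2) {U Y w : ℝ} (hc : U ^ 2 = Y ^ 2 + w ^ 2) :
    mu * Xw (-c) (e * (mu * lam)) U Y w / r2
      = r2 / mu * gv c lam r2 e (fh (-c) (e * (mu * lam)) U Y w) (vR c U Y) (vS c r2 U Y)
        (vv mu r2 w) := by
  have h1 := P.r22
  have h2 := P.mu2
  have h3 := P.r20.ne'
  have h4 := P.mu0.ne'
  have h5 : r2 * vv mu r2 w = mu * w := by simp only [vv]; field_simp
  have h6 : r2 * vS c r2 U Y = U + c * Y := by simp only [vS]; field_simp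
  have h7 : r2 ^ 2 * gv c lam r2 e (fh (-c) (e * (mu * lam)) U Y w) (vR c U Y) (vS c r2 U Y)
        (vv mu r2 w)
      = 2 - 2 * fh (-c) (e * (mu * lam)) U Y w - 2 * vR c U Y ^ 2 - 3 * (mu * w) ^ 2
        + 2 * c * ((U + c * Y) * (1 + vR c U Y) + e * lam * vR c U Y * (mu * w)) := by
    rw [← h5, ← h6]; simp only [gv]
    linear_combination (1 - fh (-c) (e * (mu * lam)) U Y w - vR c U Y ^ 2
      + c * r2 * (vS c r2 U Y * (1 + vR c U Y) + e * lam * vR c U Y * vv mu r2 w)) * h1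
  have h8 : mu ^ 2 * Xw (-c) (e * (mu * lam)) U Y w
      = r2 ^ 2 * gv c lam r2 e (fh (-c) (e * (mu * lam)) U Y w) (vR c U Y) (vS c r2 U Y)
        (vv mu r2 w) := by
    rw [h7]
    simp only [vR, Xw, fh, fA, fS]
    linear_combination (2 * Y - 2 * U ^ 2 + 3 * Y ^ 2 + c * U * Y + 3 * w ^ 2
      + e * lam * mu * U * w) * h2 + (-(2 * (c ^ 2 - 1)) : ℝ) * hc
  rw [div_mul_eq_mul_div, div_eq_div_iff h3 h4]
  linear_combination h8

/-- `u` in the rotated variables. -/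
theorem u_Sv (P : Par c mu lam N sb cb r2) (he : e ^ 2 = 1) {U Y w : ℝ} :
    fu (-c) (e * (mu * lam)) U Y w
      = 2 * fh (-c) (e * (mu * lam)) U Y w - 2 * N ^ 2 * vv mu r2 w ^ 2 := by
  have h1 := P.r22
  have h2 := P.mu2
  have h3 := P.r20.ne'
  have h4 := P.N2
  have h5 : vv mu r2 w ^ 2 = mu ^ 2 * w ^ 2 / 2 := by simp only [vv]; rw [div_pow, h1]; ring
  rw [h5]
  simp only [fu, eta]
  linear_combination (-(mu ^ 2 * lam ^ 2 * w ^ 2)) * he + (mu ^ 2 * w ^ 2) * h4 + w ^ 2 * h2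

/-- The polynomial identity behind `Z' = (5 T + const) h'`. -/
theorem prim_identity (P : Par c mu lam N sb cb r2) (he : e ^ 2 = 1) {h R S v : ℝ}
    (hc : S ^ 2 + v ^ 2 = 2 * R ^ 2) (hh : h = (1 + R) ^ 2 - v ^ 2 + e * lam * S * v) :
    2 * gR c lam r2 e R S v * S - 3 * R * gS c lam r2 e R S v
      - e * lam * (gR c lam r2 e R S v * v + R * gv c lam r2 e h R S v) - gS c lam r2 e R S v
      = r2 * c / 2 * (v * (2 * h - 2 * N ^ 2 * v ^ 2)) := by
  have h1 := P.r22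
  have h4 := P.N2
  simp only [gR, gS, gv]
  rw [hh, h4]
  linear_combination (2 * e * lam * R + 2 * r2 * c * v) * hc
    - (r2 * c * lam ^ 2 * v ^ 3) * he

end B92.KC
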