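import Mathlib
import Pool.Agent.Lib.B92KC.Par
import Pool.Agent.Lib.B92KC.Orb
import Pool.Agent.Lib.B92KC.Geo
import Pool.Agent.Lib.B92.Uniq
import Pool.Agent.Lib.B92.Star
import Pool.Agent.Lib.B92.KBa

/-!
# MP_b92fc8_an, case kappa < -1 : `u > 0` and `F+ > 0` along every arc (Claim U)
-/

set_option autoImplicit false

open Set Filter Topology

noncomputable section

namespace B92.KC

variable {c mu lam N sb cb r2 e : ℝ}

/-- First time at which a continuous function is not positive. -/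
theorem exists_first {g : ℝ → ℝ} (hg : Continuous g) {α β : ℝ} (hα : 0 < g α)
    (h : ∃ t ∈ Icc α β, g t ≤ 0) : ∃ T ∈ Ioc α β, g T = 0 ∧ ∀ s ∈ Ico α T, 0 < g s := by
  obtain ⟨t, ht, htg⟩ := h
  have hc1 : IsCompact (Icc α β ∩ g ⁻¹' (Iic 0)) :=
    isCompact_Icc.inter_right (isClosed_Iic.preimage hg)
  obtain ⟨T, hT, hmin⟩ := hc1.exists_isMinOn ⟨t, ht, htg⟩ continuousOn_id
  have hTα : α < T := lt_of_le_of_ne hT.1.1 (fun h => by
    have h2 : g T ≤ 0 := hT.2
    rw [← h] at h2
    linarith)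
  have hpos : ∀ s ∈ Ico α T, 0 < g s := by
    intro s hs
    by_contra hcon
    push Not at hcon
    have : T ≤ s := hmin ⟨⟨hs.1, hs.2.le.trans hT.1.2⟩, hcon⟩
    exact absurd hs.2 (not_lt.2 this)
  refine ⟨T, ⟨hTα, hT.1.2⟩, le_antisymm hT.2 ?_, hpos⟩
  have hcl : T ∈ closure (Ico α T) := by
    rw [closure_Ico hTα.ne]; exact ⟨hTα.le, le_rfl⟩
  exact (closure_minimal (fun s hs => (hpos s hs).le) (isClosed_Ici.preimage hg)) hcl

/-- `Y a = U a` and `Y b = - U b`. -/
theorem arc_rays (hc : 1 < c) {l : ℝ} {U Y w : ℝ → ℝ} {α β : ℝ} (ha : Arc (-c) l U Y w α β) :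
    Y α = U α ∧ Y β = -U β := by
  have hUa := ha.sol.pos α
  have hUb := ha.sol.pos β
  constructor
  · rcases ha.entrance with h | h
    · exact h.1
    · have h2 := h.2
      rw [h.1] at h2
      simp only [fA] at h2
      nlinarith
  · rcases ha.exit with h | h
    · exact h.1
    · have h2 := h.2
      rw [h.1] at h2
      simp only [fA] at h2
      nlinarith

/-- `F+ = 1 - N R + N a` along the arc. -/
def Fp (c mu N sb cb r2 e U Y w : ℝ) : ℝ := 1 - N * vR c U Y + N * va c mu sb cb r2 e U Y w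
def Fm (c mu N sb cb r2 e U Y w : ℝ) : ℝ := 1 - N * vR c U Y - N * va c mu sb cb r2 e U Y w

theorem FpFm (P : Par c mu lam N sb cb r2) (he : e ^ 2 = 1) {U Y w : ℝ}
    (hc : U ^ 2 = Y ^ 2 + w ^ 2) :
    Fp c mu N sb cb r2 e U Y w * Fm c mu N sb cb r2 e U Y w
      = 1 - N * (fh (-c) (e * (mu * lam)) U Y w - 1) := by
  rw [h_ab P he hc]
  simp only [Fp, Fm]; ring

theorem vR_pos (hc1 : 1 < c) {U Y w : ℝ} (hc : U ^ 2 = Y ^ 2 + w ^ 2) (hU : 0 < U) :
    0 < vR c U Y := by
  unfold vR
  have h1 : -U ≤ Y := by nlinarith [sq_nonneg w]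
  nlinarith

/-- `u` in terms of `R, a, b`. -/
theorem fu_ab (P : Par c mu lam N sb cb r2) (he : e ^ 2 = 1) {U Y w : ℝ}
    (hc : U ^ 2 = Y ^ 2 + w ^ 2) :
    fu (-c) (e * (mu * lam)) U Y w
      = 2 * (1 - N * vR c U Y) * (1 + (N + 2) * vR c U Y)
        + 4 * N * va c mu sb cb r2 e U Y w ^ 2
        - 2 * e * N * lam * va c mu sb cb r2 e U Y w * vb c mu sb cb r2 e U Y w := by
  rw [u_Sv P he]
  exact u_ab P he (cone_ab P he hc) (v_ab P he) (h_ab P he hc)

theorem tau_deriv (P : Par c mu lam N sb cb r2) {k l : ℝ} (hk : k = -c) {U Y w : ℝ → ℝ}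
    (hs : Sol k l U Y w) {t : ℝ} (hw : w t ≠ 0) :
    HasDerivAt (fun s => vS c r2 (U s) (Y s) / vv mu r2 (w s))
      (-((c * U t + Y t) * (2 * U t + k * (w t ^ 2 - Y t ^ 2) + U t * Y t + 2 * l * Y t * w t))
        / (mu * w t ^ 2)) t := by
  have h3 := P.r20.ne'
  have h4 := P.mu0.ne'
  have e1 : (fun s => vS c r2 (U s) (Y s) / vv mu r2 (w s))
      =ᶠ[𝓝 t] fun s => (U s + c * Y s) / (mu * w s) := by
    refine Eventually.of_forall fun s => ?_
    simp only [vS, vv]
    rcases eq_or_ne (w s) 0 with h | h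
    · simp [h]
    · field_simp
  have h5 := ((hs.dU t).add ((hs.dY t).const_mul c)).div ((hs.dw t).const_mul mu)
    (mul_ne_zero h4 hw)
  refine HasDerivAt.congr_of_eventuallyEq (h5.congr_deriv ?_) e1
  have hc := hs.cone t
  simp only [Pi.add_apply]
  rw [div_eq_div_iff (pow_ne_zero 2 (mul_ne_zero h4 hw)) (mul_ne_zero h4 (pow_ne_zero 2 hw))]
  rw [hk]
  simp only [XU, XY, Xw]
  linear_combination (mu ^ 2 * w t ^ 2 * (2 * U t + 2 * c * Y t + 2 * c - l * w t)) * hc

/-- `S / v` does not increase along an arc. -/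
theorem tau_antitone (P : Par c mu lam N sb cb r2) {l : ℝ} {U Y w : ℝ → ℝ} {α β : ℝ}
    (ha : Arc (-c) l U Y w α β) :
    AntitoneOn (fun s => vS c r2 (U s) (Y s) / vv mu r2 (w s)) (Ioo α β) := by
  obtain ⟨h1, h2⟩ := arc_rays P.c1 ha
  have hstar := ha.star h1 h2
  have hd : ∀ t ∈ Ioo α β, HasDerivAt (fun s => vS c r2 (U s) (Y s) / vv mu r2 (w s))
      (-((c * U t + Y t) * (2 * U t + -c * (w t ^ 2 - Y t ^ 2) + U t * Y t + 2 * l * Y t * w t))
        / (mu * w t ^ 2)) t := fun t ht => tau_deriv P rfl ha.sol (ha.wpos t ht).ne'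
  refine antitoneOn_of_deriv_nonpos (convex_Ioo α β)
    (fun t ht => (hd t ht).continuousAt.continuousWithinAt) (fun t ht => ?_) (fun t ht => ?_)
  · rw [interior_Ioo] at ht
    exact (hd t ht).differentiableAt.differentiableWithinAt
  · rw [interior_Ioo] at ht
    rw [(hd t ht).deriv]
    have h3 := hstar t (Ioo_subset_Icc_self ht)
    have h4 : 0 < c * U t + Y t := by
      have := vR_pos P.c1 (ha.sol.cone t) (ha.sol.pos t)
      unfold vR at this; linarith
    have h5 := ha.wpos t ht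
    have h6 := P.mu0
    have : 0 ≤ (c * U t + Y t) * (2 * U t + -c * (w t ^ 2 - Y t ^ 2) + U t * Y t
        + 2 * l * Y t * w t) / (mu * w t ^ 2) := by positivity
    rw [neg_div]; linarith

/-- **Claim U.** -/
theorem arc_upos (P : Par c mu lam N sb cb r2) (he : e ^ 2 = 1) {U Y w : ℝ → ℝ} {α β : ℝ}
    (ha : Arc (-c) (e * (mu * lam)) U Y w α β) :
    ∀ t ∈ Icc α β, 0 < Fp c mu N sb cb r2 e (U t) (Y t) (w t) ∧
      0 < fu (-c) (e * (mu * lam)) (U t) (Y t) (w t) := by
  have hN := P.N0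
  have hcone := ha.sol.cone
  have hU := ha.sol.pos
  have hsb := P.sb0
  have hcb := P.cb0
  obtain ⟨hra, hrb⟩ := arc_rays P.c1 ha
  have cU := ha.sol.contU
  have cY := ha.sol.contY
  have cw := ha.sol.contw
  set l := e * (mu * lam) with hl
  set F : ℝ → ℝ := fun t => Fp c mu N sb cb r2 e (U t) (Y t) (w t) with hF
  set G : ℝ → ℝ := fun t => Fm c mu N sb cb r2 e (U t) (Y t) (w t) with hG
  set u : ℝ → ℝ := fun t => fu (-c) l (U t) (Y t) (w t) with hu
  set h : ℝ → ℝ := fun t => fh (-c) l (U t) (Y t) (w t) with hh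
  have hFc : Continuous F := by
    simp only [hF, Fp, vR, va, vS, vv]; fun_prop
  have hGc : Continuous G := by
    simp only [hG, Fm, vR, va, vS, vv]; fun_prop
  have hud : ∀ t, HasDerivAt u (-(2 * w t * u t) + 2 * eta (-c) l * w t
      * Xw (-c) l (U t) (Y t) (w t)) t := fun t => hasDerivAt_u ha.sol t
  have huc : Continuous u := continuous_iff_continuousAt.2 fun t => (hud t).continuousAt
  have hhd : ∀ t, HasDerivAt h (-(w t) * u t) t := fun t => hasDerivAt_h ha.sol t
  have hFG : ∀ t, F t * G t = 1 - N * (h t - 1) := fun t => FpFm P he (hcone t)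
  have heta : eta (-c) l < 0 := by
    have h1 := P.mu2
    have h2 := P.c1
    simp only [eta]
    nlinarith [sq_nonneg l]
  -- ends
  have hua : 0 < u α := by
    have := ha.hpos α ⟨le_rfl, ha.lt.le⟩
    simp only [hu, fu, ha.wa] at this ⊢
    linarith
  have hub : 0 < u β := by
    have := ha.hpos β ⟨ha.lt.le, le_rfl⟩
    simp only [hu, fu, ha.wb] at this ⊢
    linarith
  have hFa : 0 < F α := by
    simp only [hF, Fp, va, vS, vv, vR, hra, ha.wa]
    have h1 : (U α + c * U α) / r2 * cb = (1 + c) * U α / 2 * (r2 * cb) := by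
      have := P.r22
      have := P.r20.ne'
      field_simp
      linear_combination (-(1 + c) * U α) * P.r22
    have h2 : 1 < r2 * cb := by
      have h3 := P.cb2
      have h4 := P.r22
      have h5 : (r2 * cb) ^ 2 = 1 + 1 / N := by
        have : (r2 * cb) ^ 2 = 2 * cb ^ 2 := by rw [mul_pow, h4]
        rw [this]; field_simp; linarith
      have h6 : 0 < r2 * cb := mul_pos P.r20 hcb
      have h7 : 0 < 1 / N := by positivity
      nlinarith
    have h8 := hU α
    have h9 := P.c1
    have h10 : (U α + c * U α) / 2 = (1 + c) * U α / 2 := by ring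
    rw [h1, h10]
    have h11 : 0 < (1 + c) * U α / 2 := by positivity
    have : 1 - N * ((1 + c) * U α / 2) + N * ((1 + c) * U α / 2 * (r2 * cb) + e * (mu * 0 / r2) * sb)
        = 1 + N * ((1 + c) * U α / 2) * (r2 * cb - 1) := by ring
    rw [this]
    have h12 : 0 < r2 * cb - 1 := by linarith
    positivity
  by_contra hcon
  push Not at hcon
  obtain ⟨t0, ht0, hneg⟩ := hcon
  -- the first bad time
  obtain ⟨T, hT, hgT, hgpos⟩ := exists_first (g := fun t => min (F t) (u t))
    (hFc.min huc) (α := α) (β := β) (lt_min hFa hua) (by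
      refine ⟨t0, ht0, ?_⟩
      rcases le_or_gt (F t0) 0 with h1 | h1
      · exact (min_le_left _ _).trans h1
      · exact (min_le_right _ _).trans (hneg h1))
  have hFpos : ∀ s ∈ Ico α T, 0 < F s := fun s hs => (lt_min_iff.1 (hgpos s hs)).1
  have hupos : ∀ s ∈ Ico α T, 0 < u s := fun s hs => (lt_min_iff.1 (hgpos s hs)).2
  have hFT : 0 ≤ F T := by
    have : (0:ℝ) ≤ min (F T) (u T) := hgT.ge
    exact this.trans (min_le_left _ _)
  have huT : 0 ≤ u T := by
    have : (0:ℝ) ≤ min (F T) (u T) := hgT.ge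
    exact this.trans (min_le_right _ _)
  -- `h` is strictly decreasing on `[α, T]`
  have hanti : StrictAntiOn h (Icc α T) := by
    apply strictAntiOn_of_deriv_neg (convex_Icc α T)
      (fun x _ => (hhd x).continuousAt.continuousWithinAt)
    intro x hx
    rw [interior_Icc] at hx
    rw [(hhd x).deriv]
    have h1 := hupos x ⟨hx.1.le, hx.2⟩
    have h2 := ha.wpos x ⟨hx.1, hx.2.trans_le hT.2⟩
    nlinarith
  have huab : ∀ t, u t = 2 * (1 - N * vR c (U t) (Y t)) * (1 + (N + 2) * vR c (U t) (Y t))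
        + 4 * N * va c mu sb cb r2 e (U t) (Y t) (w t) ^ 2
        - 2 * e * N * lam * va c mu sb cb r2 e (U t) (Y t) (w t)
          * vb c mu sb cb r2 e (U t) (Y t) (w t) := fun t => fu_ab P he (hcone t)
  -- `u(T) = 0`
  have huT0 : u T = 0 := by
    rcases huT.eq_or_lt with h1 | h1
    · exact h1.symm
    · exfalso
      have hFT0 : F T = 0 := by
        rcases min_choice (F T) (u T) with h2 | h2
        · rw [h2] at hgT; exact hgT
        · rw [h2] at hgT; linarith
      have hGT : G T ≤ 0 := by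
        -- G < 0 on (α, T)
        have hGneg : ∀ s ∈ Ioo α T, G s ≤ 0 := by
          intro s hs
          have h3 := hFG s
          have h4 := hFG T
          rw [hFT0, zero_mul] at h4
          have h5 := hanti ⟨hs.1.le, hs.2.le⟩ ⟨hT.1.le, le_rfl⟩ hs.2
          have h6 : F s * G s < 0 := by rw [h3]; nlinarith
          have h7 := hFpos s ⟨hs.1.le, hs.2⟩
          by_contra hcon'
          push Not at hcon'
          exact absurd h6 (not_lt.2 (mul_pos h7 hcon').le)
        have hcl : T ∈ closure (Ioo α T) := by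
          rw [closure_Ioo hT.1.ne]; exact ⟨hT.1.le, le_rfl⟩
        exact (closure_minimal (fun s hs => hGneg s hs) (isClosed_Iic.preimage hGc)) hcl
      rcases hGT.eq_or_lt with h3 | h3
      · -- saddle : u = 0
        have h4 : 1 - N * vR c (U T) (Y T) = 0 := by
          simp only [hF, hG, Fp, Fm] at hFT0 h3; linarith
        have h5 : va c mu sb cb r2 e (U T) (Y T) (w T) = 0 := by
          simp only [hF, hG, Fp, Fm] at hFT0 h3
          have : N * va c mu sb cb r2 e (U T) (Y T) (w T) = 0 := by linarith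
          exact (mul_eq_zero.1 this).resolve_left hN.ne'
        have h6 := huab T
        rw [h4, h5] at h6
        simp at h6
        linarith
      · have h4 := G2 P he (cone_ab P he (hcone T)) hFT0 h3
        rw [← huab T] at h4
        linarith
  have hTβ : T < β := lt_of_le_of_ne hT.2 (fun h1 => by rw [h1] at huT0; linarith)
  have hwT : 0 < w T := ha.wpos T ⟨hT.1, hTβ⟩
  -- `u'(T) ≤ 0`, so `Xw(T) ≥ 0`
  have hud0 : -(2 * w T * u T) + 2 * eta (-c) l * w T * Xw (-c) l (U T) (Y T) (w T) ≤ 0 :=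
    deriv_nonpos_of_pos_left hT.1 (hud T) huT0 (fun s hs => hupos s ⟨hs.1.le, hs.2⟩)
  have hXw : 0 ≤ Xw (-c) l (U T) (Y T) (w T) := by
    rw [huT0] at hud0
    by_contra hcon'
    push Not at hcon'
    have : 0 < 2 * eta (-c) l * w T * Xw (-c) l (U T) (Y T) (w T) := by
      have h1 : 2 * eta (-c) l * w T < 0 := by nlinarith
      exact mul_pos_of_neg_of_neg h1 hcon'
    linarith
  -- variables at `T`
  have hR := vR_pos P.c1 (hcone T) (hU T)
  have hvT : 0 < vv mu r2 (w T) := by
    unfold vv; have := P.mu0; have := P.r20; positivity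
  have hSv := cone_Sv P (hcone T)
  have hhSv : h T = (1 + vR c (U T) (Y T)) ^ 2 - vv mu r2 (w T) ^ 2
      + e * lam * vS c r2 (U T) (Y T) * vv mu r2 (w T) := h_Sv P
  have huSv : 2 * h T - 2 * N ^ 2 * vv mu r2 (w T) ^ 2 = 0 := by
    have := u_Sv (U := U T) (Y := Y T) (w := w T) P he
    rw [← this]; exact huT0
  -- `F(T) > 0`
  have hFT0 : 0 < F T := by
    rcases hFT.eq_or_lt with h1 | h1
    · exfalso
      -- saddle
      have hGT : G T = 0 := by
        rcases lt_trichotomy (G T) 0 with h3 | h3 | h3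
        · have h4 := G2 P he (cone_ab P he (hcone T)) h1.symm h3
          rw [← huab T] at h4
          linarith
        · exact h3
        · have h5 : 0 < 1 - N * vR c (U T) (Y T) := by
            simp only [hF, hG, Fp, Fm] at h1 h3; linarith
          have h4 := G1 P he (cone_ab P he (hcone T)) hR h1.le h3.le h5
          rw [← huab T] at h4
          linarith
      have h4 : 1 - N * vR c (U T) (Y T) = 0 := by
        simp only [hF, hG, Fp, Fm] at h1 hGT; linarith
      have h5 : va c mu sb cb r2 e (U T) (Y T) (w T) = 0 := by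
        simp only [hF, hG, Fp, Fm] at h1 hGT
        have : N * va c mu sb cb r2 e (U T) (Y T) (w T) = 0 := by linarith
        exact (mul_eq_zero.1 this).resolve_left hN.ne'
      -- `gv < 0`
      have hgv : gv c lam r2 e (h T) (vR c (U T) (Y T)) (vS c r2 (U T) (Y T)) (vv mu r2 (w T)) < 0 := by
        have hSb := S_ab (U := U T) (Y := Y T) (w := w T) P he
        have hvb := v_ab (U := U T) (Y := Y T) (w := w T) P he
        rw [h5] at hSb hvb
        have h6 : vS c r2 (U T) (Y T) * (1 + vR c (U T) (Y T))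
            + e * lam * vR c (U T) (Y T) * vv mu r2 (w T) = 0 := by
          rw [hSb, hvb]
          have h7 := P.lamcb
          linear_combination (e * vR c (U T) (Y T) * vb c mu sb cb r2 e (U T) (Y T) (w T)) * h7
            - (e * vb c mu sb cb r2 e (U T) (Y T) (w T) * sb) * h4
        have h8 : h T = 1 + 2 * vR c (U T) (Y T) - N * vR c (U T) (Y T) ^ 2 := by
          have := h_ab P he (hcone T)
          rw [h5] at this
          simp only [hh]
          rw [this]; ring
        simp only [gv]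
        rw [h6, h8]
        have h9 : N * vR c (U T) (Y T) ^ 2 = vR c (U T) (Y T) := by
          have : N * vR c (U T) (Y T) = 1 := by linarith
          rw [sq, ← mul_assoc, this, one_mul]
        nlinarith [sq_nonneg (vR c (U T) (Y T)), sq_nonneg (vv mu r2 (w T))]
      have h10 := Xv_eq (e := e) P (hcone T)
      have h11 : mu * Xw (-c) l (U T) (Y T) (w T) / r2 < 0 := by
        rw [h10]
        exact mul_neg_of_pos_of_neg (div_pos P.r20 P.mu0) hgv
      have h12 : 0 ≤ mu * Xw (-c) l (U T) (Y T) (w T) / r2 :=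
        div_nonneg (mul_nonneg P.mu0.le hXw) P.r20.le
      linarith
    · exact h1
  -- `G(T) < 0`
  have hGT : G T < 0 := by
    by_contra hcon'
    push Not at hcon'
    have h5 : 0 < 1 - N * vR c (U T) (Y T) := by
      simp only [hF, hG, Fp, Fm] at hFT0 hcon'; linarith
    have h4 := G1 P he (cone_ab P he (hcone T)) hR hFT0.le hcon' h5
    rw [← huab T] at h4
    linarith
  have haT : 0 < va c mu sb cb r2 e (U T) (Y T) (w T) := by
    simp only [hF, hG, Fp, Fm] at hFT0 hGT
    have : 0 < N * va c mu sb cb r2 e (U T) (Y T) (w T) := by linarith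
    exact pos_of_mul_pos_right this hN.le
  have hg := gamma_g_pos P he hR hvT hSv hhSv huSv haT
  -- `Xw(T) > 0`
  have hXw0 : 0 < Xw (-c) l (U T) (Y T) (w T) := by
    rcases hXw.eq_or_lt with h1 | h1
    · exfalso
      have h2 := ha.sol.not_stationary (t₀ := T) huT0 h1.symm (by
        have h3 : fS (-c) (U T) (Y T) * (1 - fA (-c) (U T) (Y T)) - l * fA (-c) (U T) (Y T) * w T
            = r2 * (vS c r2 (U T) (Y T) * (1 + vR c (U T) (Y T))
              + e * lam * vR c (U T) (Y T) * vv mu r2 (w T)) := by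
          have h4 := P.r20.ne'
          simp only [fS, fA, vS, vR, vv, hl]
          field_simp
          ring
        rw [h3]
        exact (mul_pos P.r20 hg).ne') β
      rw [ha.wb] at h2
      linarith
    · exact h1
  have hud1 : -(2 * w T * u T) + 2 * eta (-c) l * w T * Xw (-c) l (U T) (Y T) (w T) < 0 := by
    rw [huT0]
    have h1 : 2 * eta (-c) l * w T < 0 := by nlinarith
    have := mul_neg_of_neg_of_pos h1 hXw0
    linarith
  -- `u < 0` just after `T`
  obtain ⟨d, hdT, hdneg⟩ : ∃ d, T < d ∧ ∀ s ∈ Ioo T d, u s < 0 ∧ s < β := by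
    have h1 := (hud T).hasDerivWithinAt (s := Ioi T)
    have h2 := (hasDerivWithinAt_iff_tendsto_slope' (by simp)).1 h1
    have h3 : ∀ᶠ s in 𝓝[>] T, slope u T s < 0 := h2.eventually (gt_mem_nhds hud1)
    have h4 : ∀ᶠ s in 𝓝[>] T, s ∈ Ioo T β := Ioo_mem_nhdsGT hTβ
    have h5 : ∀ᶠ s in 𝓝[>] T, u s < 0 ∧ s < β := by
      filter_upwards [h3, h4] with s hs1 hs2
      refine ⟨?_, hs2.2⟩
      rw [slope_def_field, huT0, sub_zero] at hs1
      by_contra hcon'
      push Not at hcon'
      have : 0 ≤ u s / (s - T) := div_nonneg hcon' (by linarith [hs2.1])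
      linarith
    obtain ⟨d, hd1, hd2⟩ := (mem_nhdsGT_iff_exists_Ioo_subset).1 h5
    exact ⟨d, hd1, fun s hs => hd2 hs⟩
  obtain ⟨t1, ht1⟩ : ∃ t1, t1 ∈ Ioo T d := ⟨(T + d) / 2, by constructor <;> linarith⟩
  have hut1 := (hdneg t1 ht1).1
  -- the component of `{u < 0}` containing `t1` starts at `T`
  obtain ⟨s1, s2, hs1α, hs1, hs2, hs2β, hus1, hus2, huneg⟩ :=
    exists_neg_interval huc (a := α) (b := β) (t := t1) (hT.1.trans ht1.1) (hdneg t1 ht1).2 hua hub
      hut1
  have hs1T : s1 = T := by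
    apply le_antisymm
    · by_contra hcon'
      push Not at hcon'
      have := (hdneg s1 ⟨hcon', hs1.trans ht1.2⟩).1
      linarith
    · by_contra hcon'
      push Not at hcon'
      have := huneg T ⟨hcon', ht1.1.trans hs2⟩
      linarith
  rw [hs1T] at hus1 huneg
  have hTs2 : T < s2 := ht1.1.trans hs2
  -- `h` is strictly increasing on `[T, s2]`
  have hmono : StrictMonoOn h (Icc T s2) := by
    apply strictMonoOn_of_deriv_pos (convex_Icc T s2)
      (fun x _ => (hhd x).continuousAt.continuousWithinAt)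
    intro x hx
    rw [interior_Icc] at hx
    rw [(hhd x).deriv]
    have h1 := huneg x hx
    have h2 := ha.wpos x ⟨hT.1.trans hx.1, hx.2.trans hs2β⟩
    nlinarith
  have hFGneg : ∀ s ∈ Icc T s2, F s * G s < 0 := by
    intro s hs
    have h1 : h T ≤ h s := hmono.monotoneOn ⟨le_rfl, hTs2.le⟩ hs hs.1
    have h2 := hFG T
    have h3 := hFG s
    have h4 : F T * G T < 0 := mul_neg_of_pos_of_neg hFT0 hGT
    rw [h3]
    rw [h2] at h4
    nlinarith
  have hFpos2 : 0 < F s2 := by
    by_contra hcon'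
    push Not at hcon'
    obtain ⟨x, hx, hx0⟩ := intermediate_value_Icc' hTs2.le hFc.continuousOn
      (show (0:ℝ) ∈ Icc (F s2) (F T) from ⟨hcon', hFT0.le⟩)
    have := hFGneg x hx
    rw [hx0, zero_mul] at this
    exact lt_irrefl _ this
  have hGneg2 : G s2 < 0 := by
    have := hFGneg s2 ⟨hTs2.le, le_rfl⟩
    by_contra hcon'
    push Not at hcon'
    exact absurd this (not_lt.2 (mul_nonneg hFpos2.le hcon'))
  have ha2 : 0 < va c mu sb cb r2 e (U s2) (Y s2) (w s2) := by
    simp only [hF, hG, Fp, Fm] at hFpos2 hGneg2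
    have : 0 < N * va c mu sb cb r2 e (U s2) (Y s2) (w s2) := by linarith
    exact pos_of_mul_pos_right this hN.le
  have hw2 : 0 < w s2 := ha.wpos s2 ⟨hT.1.trans hTs2, hs2β⟩
  have hv2 : 0 < vv mu r2 (w s2) := by
    unfold vv; have := P.mu0; have := P.r20; positivity
  have htau := tau_antitone P ha ⟨hT.1, hTβ⟩ ⟨hT.1.trans hTs2, hs2β⟩ hTs2.le
  have huSv2 : 2 * h s2 - 2 * N ^ 2 * vv mu r2 (w s2) ^ 2 = 0 := by
    have := u_Sv (U := U s2) (Y := Y s2) (w := w s2) P he
    rw [← this]; exact hus2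
  have hfin := gamma_mono P he hR hvT hSv hhSv huSv
    (vR_pos P.c1 (hcone s2) (hU s2)) hv2 (cone_Sv P (hcone s2)) (h_Sv P) huSv2 ha2 htau
  have := hmono ⟨le_rfl, hTs2.le⟩ ⟨hTs2.le, le_rfl⟩ hTs2
  exact absurd this (not_lt.2 hfin)

end B92.KC
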