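import Mathlib
import Pool.Agent.Lib.B92KC.Par
import Pool.Agent.Lib.B92KC.Prim
import Pool.Agent.Lib.B92KC.Orb
import Pool.Agent.Lib.B92KC.Base
import Pool.Agent.Lib.B92KC.UPos
import Pool.Agent.Lib.B92KC.Slc

/-!
# MP_b92fc8_an, case kappa < -1 : `T` and `z` along arcs
-/

set_option autoImplicit false

open Set Filter Topology

noncomputable section

namespace B92.KC

variable {c mu lam N sb cb r2 e : ℝ}

/-- `h` along an orbit. -/
def oh (c mu lam e : ℝ) (U Y w : ℝ → ℝ) (t : ℝ) : ℝ := fh (-c) (e * (mu * lam)) (U t) (Y t) (w t)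

/-- `T` along an orbit. -/
def oT (c mu lam N sb cb r2 e : ℝ) (U Y w : ℝ → ℝ) (t : ℝ) : ℝ :=
  TT N sb cb r2 e (oh c mu lam e U Y w t) (vR c (U t) (Y t))
    (va c mu sb cb r2 e (U t) (Y t) (w t)) (vb c mu sb cb r2 e (U t) (Y t) (w t))

/-- `z` along an orbit. -/
def oZ (c mu lam N sb cb r2 e : ℝ) (U Y w : ℝ → ℝ) (t : ℝ) : ℝ :=
  ZZ N lam sb cb r2 e (oh c mu lam e U Y w t) (vR c (U t) (Y t))
    (va c mu sb cb r2 e (U t) (Y t) (w t)) (vb c mu sb cb r2 e (U t) (Y t) (w t))

/-- The exit and the entrance in the rotated variables. -/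
theorem ray_a_vals (P : Par c mu lam N sb cb r2) {U Y w : ℝ} (hY : Y = U) (hw : w = 0) :
    vv mu r2 w = 0 ∧ vS c r2 U Y = r2 * vR c U Y ∧
      va c mu sb cb r2 e U Y w = r2 * vR c U Y * cb ∧
      vb c mu sb cb r2 e U Y w = -(e * (r2 * vR c U Y) * sb) ∧
      fh (-c) (e * (mu * lam)) U Y w = (1 + vR c U Y) ^ 2 := by
  have h3 := P.r20.ne'
  have h1 : vv mu r2 w = 0 := by simp [vv, hw]
  have h2 : vS c r2 U Y = r2 * vR c U Y := by
    simp only [vS, vR, hY]
    field_simp
    linear_combination (-(U * (1 + c))) * P.r22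
  refine ⟨h1, h2, ?_, ?_, ?_⟩
  · simp only [va]; rw [h1, h2]; ring
  · simp only [vb]; rw [h1, h2]; ring
  · rw [h_Sv P, h1]; ring

theorem ray_b_vals (P : Par c mu lam N sb cb r2) {U Y w : ℝ} (hY : Y = -U) (hw : w = 0) :
    vv mu r2 w = 0 ∧ vS c r2 U Y = -(r2 * vR c U Y) ∧
      va c mu sb cb r2 e U Y w = -(r2 * vR c U Y * cb) ∧
      fh (-c) (e * (mu * lam)) U Y w = (1 + vR c U Y) ^ 2 := by
  have h3 := P.r20.ne'
  have h1 : vv mu r2 w = 0 := by simp [vv, hw]
  have h2 : vS c r2 U Y = -(r2 * vR c U Y) := by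
    simp only [vS, vR, hY]
    field_simp
    linear_combination (U * (c - 1)) * P.r22
  refine ⟨h1, h2, ?_, ?_⟩
  · simp only [va]; rw [h1, h2]; ring
  · rw [h_Sv P, h1]; ring

section

variable {U Y w : ℝ → ℝ} {α β : ℝ}

theorem oh_cont (ha : Sol (-c) (e * (mu * lam)) U Y w) : Continuous (oh c mu lam e U Y w) :=
  continuous_iff_continuousAt.2 fun t => (hasDerivAt_h ha t).continuousAt

theorem oh_anti (P : Par c mu lam N sb cb r2) (he : e ^ 2 = 1)
    (ha : Arc (-c) (e * (mu * lam)) U Y w α β) : StrictAntiOn (oh c mu lam e U Y w) (Icc α β) := by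
  apply strictAntiOn_of_deriv_neg (convex_Icc _ _) (oh_cont ha.sol).continuousOn
  intro t ht
  rw [interior_Icc] at ht
  have h1 := hasDerivAt_h ha.sol t
  have h2 : HasDerivAt (oh c mu lam e U Y w)
    (-(w t) * fu (-c) (e * (mu * lam)) (U t) (Y t) (w t)) t := h1
  rw [h2.deriv]
  have h3 := ha.wpos t ht
  have h4 := (arc_upos P he ha t (Ioo_subset_Icc_self ht)).2
  have := mul_pos h3 h4
  linarith

theorem oh_gt_one (P : Par c mu lam N sb cb r2) (he : e ^ 2 = 1)
    (ha : Arc (-c) (e * (mu * lam)) U Y w α β) : ∀ t ∈ Icc α β, 1 < oh c mu lam e U Y w t := by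
  intro t ht
  have hb : β ∈ Icc α β := ⟨ha.lt.le, le_rfl⟩
  have h1 : oh c mu lam e U Y w β ≤ oh c mu lam e U Y w t :=
    (oh_anti P he ha).antitoneOn ht hb ht.2
  obtain ⟨-, hrb⟩ := arc_rays P.c1 ha
  have h2 := (ray_b_vals (e := e) P hrb ha.wb).2.2.2
  have h3 := vR_pos P.c1 (ha.sol.cone β) (ha.sol.pos β)
  have h4 : 1 < oh c mu lam e U Y w β := by
    simp only [oh]; rw [h2]; nlinarith
  linarith

theorem o_cone (P : Par c mu lam N sb cb r2) (he : e ^ 2 = 1)
    (hs : Sol (-c) (e * (mu * lam)) U Y w) (t : ℝ) :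
    va c mu sb cb r2 e (U t) (Y t) (w t) ^ 2 + vb c mu sb cb r2 e (U t) (Y t) (w t) ^ 2
      = 2 * vR c (U t) (Y t) ^ 2 := cone_ab P he (hs.cone t)

theorem o_lev (P : Par c mu lam N sb cb r2) (he : e ^ 2 = 1)
    (hs : Sol (-c) (e * (mu * lam)) U Y w) (t : ℝ) :
    oh c mu lam e U Y w t = 1 + 2 * vR c (U t) (Y t) - N * vR c (U t) (Y t) ^ 2
      + N * va c mu sb cb r2 e (U t) (Y t) (w t) ^ 2 := h_ab P he (hs.cone t)

theorem o_v (P : Par c mu lam N sb cb r2) (he : e ^ 2 = 1) (t : ℝ) :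
    vb c mu sb cb r2 e (U t) (Y t) (w t) * cb + e * va c mu sb cb r2 e (U t) (Y t) (w t) * sb
      = mu * w t / r2 := (v_ab P he).symm

theorem o_G (P : Par c mu lam N sb cb r2) (he : e ^ 2 = 1)
    (ha : Arc (-c) (e * (mu * lam)) U Y w α β) : ∀ t ∈ Icc α β,
      0 < 1 + N * vR c (U t) (Y t) + N * vb c mu sb cb r2 e (U t) (Y t) (w t) := fun t ht =>
  G_pos P.N0 (vR_pos P.c1 (ha.sol.cone t) (ha.sol.pos t)) (oh_gt_one P he ha t ht)
    (o_cone P he ha.sol t) (o_lev P he ha.sol t)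

theorem oT_cont (P : Par c mu lam N sb cb r2) (he : e ^ 2 = 1)
    (ha : Arc (-c) (e * (mu * lam)) U Y w α β) :
    ContinuousOn (oT c mu lam N sb cb r2 e U Y w) (Icc α β) := by
  have cU := ha.sol.contU
  have cY := ha.sol.contY
  have cw := ha.sol.contw
  have cR : Continuous fun t => vR c (U t) (Y t) := by unfold vR; fun_prop
  have ca : Continuous fun t => va c mu sb cb r2 e (U t) (Y t) (w t) := by
    unfold va vS vv; fun_prop
  have cb' : Continuous fun t => vb c mu sb cb r2 e (U t) (Y t) (w t) := by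
    unfold vb vS vv; fun_prop
  have hG := o_G P he ha
  have hF := fun t ht => (arc_upos P he ha t ht).1
  have hlogG : ContinuousOn (fun t => Real.log (1 + N * vR c (U t) (Y t)
      + N * vb c mu sb cb r2 e (U t) (Y t) (w t))) (Icc α β) :=
    ContinuousOn.log (by fun_prop) fun x hx => (hG x hx).ne'
  have hlogF : ContinuousOn (fun t => Real.log (1 - N * vR c (U t) (Y t)
      + N * va c mu sb cb r2 e (U t) (Y t) (w t))) (Icc α β) :=
    ContinuousOn.log (by fun_prop) fun x hx => (hF x hx).ne'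
  have hb : ContinuousOn (fun t => Tb N sb cb r2 e (oh c mu lam e U Y w t)) (Icc α β) := by
    intro t ht
    exact (ContinuousAt.comp (f := oh c mu lam e U Y w)
      (continuousAt_Tb P he (oh_gt_one P he ha t ht))
      (oh_cont ha.sol).continuousAt).continuousWithinAt
  unfold oT TT Th
  fun_prop

/-- The derivative of `z` along an arc. -/
theorem oZ_deriv (P : Par c mu lam N sb cb r2) (he : e ^ 2 = 1)
    (ha : Arc (-c) (e * (mu * lam)) U Y w α β) : ∀ t ∈ Icc α β,
      HasDerivAt (oZ c mu lam N sb cb r2 e U Y w)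
        ((5 * oT c mu lam N sb cb r2 e U Y w t + (1 - c) / r2)
          * (-(w t) * fu (-c) (e * (mu * lam)) (U t) (Y t) (w t))) t := by
  intro t ht
  have hs := ha.sol
  have hcone := hs.cone
  have hr2 := P.r20.ne'
  have hr22 := P.r22
  have hmu := P.mu0.ne'
  set l := e * (mu * lam) with hl
  set hd := -(w t) * fu (-c) l (U t) (Y t) (w t) with hhd
  have dh : HasDerivAt (oh c mu lam e U Y w) hd t := hasDerivAt_h hs t
  -- derivatives
  have dR : HasDerivAt (fun s => vR c (U s) (Y s))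
      ((XY (-c) l (U t) (Y t) (w t) + c * XU (-c) l (U t) (Y t) (w t)) / 2) t :=
    ((hs.dY t).add ((hs.dU t).const_mul c)).div_const 2
  have dS : HasDerivAt (fun s => vS c r2 (U s) (Y s))
      ((XU (-c) l (U t) (Y t) (w t) + c * XY (-c) l (U t) (Y t) (w t)) / r2) t :=
    ((hs.dU t).add ((hs.dY t).const_mul c)).div_const r2
  have dv : HasDerivAt (fun s => vv mu r2 (w s)) (mu * Xw (-c) l (U t) (Y t) (w t) / r2) t :=
    ((hs.dw t).const_mul mu).div_const r2
  have eR := XR_eq (e := e) P (hcone t)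
  have eS := XS_eq (e := e) P (hcone t)
  have ev := Xv_eq (e := e) P (hcone t)
  rw [← hl] at eR eS ev
  rw [eR] at dR
  rw [eS] at dS
  rw [ev] at dv
  set R' := r2 / mu * gR c lam r2 e (vR c (U t) (Y t)) (vS c r2 (U t) (Y t)) (vv mu r2 (w t))
    with hR'
  set S' := r2 / mu * gS c lam r2 e (vR c (U t) (Y t)) (vS c r2 (U t) (Y t)) (vv mu r2 (w t))
    with hS'
  set v' := r2 / mu * gv c lam r2 e (fh (-c) l (U t) (Y t) (w t)) (vR c (U t) (Y t))
    (vS c r2 (U t) (Y t)) (vv mu r2 (w t)) with hv'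
  have da : HasDerivAt (fun s => va c mu sb cb r2 e (U s) (Y s) (w s))
      (S' * cb + e * v' * sb) t := (dS.mul_const cb).add ((dv.const_mul e).mul_const sb)
  have db : HasDerivAt (fun s => vb c mu sb cb r2 e (U s) (Y s) (w s))
      (v' * cb - e * S' * sb) t := (dv.mul_const cb).sub ((dS.const_mul e).mul_const sb)
  -- the two differentiated identities
  have e3 : hd = 2 * R' - 2 * N * vR c (U t) (Y t) * R'
      + 2 * N * va c mu sb cb r2 e (U t) (Y t) (w t) * (S' * cb + e * v' * sb) := by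
    have h1 : HasDerivAt (oh c mu lam e U Y w) (2 * R'
        - N * (2 * vR c (U t) (Y t) * R')
        + N * (2 * va c mu sb cb r2 e (U t) (Y t) (w t) * (S' * cb + e * v' * sb))) t := by
      have h2 := (((dR.const_mul 2).const_add 1).sub ((dR.pow 2).const_mul N)).add
        ((da.pow 2).const_mul N)
      refine (h2.congr_deriv ?_).congr_of_eventuallyEq (Eventually.of_forall fun s => ?_)
      · simp
      · simp only [Pi.add_apply, Pi.sub_apply, Pi.pow_apply]
        exact o_lev P he hs s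
    rw [dh.unique h1]; ring
  have e4 : va c mu sb cb r2 e (U t) (Y t) (w t) * (S' * cb + e * v' * sb)
      + vb c mu sb cb r2 e (U t) (Y t) (w t) * (v' * cb - e * S' * sb)
      = 2 * vR c (U t) (Y t) * R' := by
    have h1 := (da.pow 2).add (db.pow 2)
    have h2 := (dR.pow 2).const_mul 2
    have h3 : (fun s => va c mu sb cb r2 e (U s) (Y s) (w s)) ^ 2
        + (fun s => vb c mu sb cb r2 e (U s) (Y s) (w s)) ^ 2
        = fun s => 2 * ((fun s => vR c (U s) (Y s)) ^ 2) s := by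
      funext s
      simp only [Pi.add_apply, Pi.pow_apply]
      exact o_cone P he hs s
    rw [h3] at h1
    have h4 := h1.unique h2
    simp only [Nat.cast_ofNat, Nat.add_one_sub_one, pow_one] at h4
    linarith
  have key := hasDerivAt_Zh P he dh dR dS dv da db rfl rfl rfl rfl (o_lev P he hs t)
    (o_cone P he hs t) e3 e4 (arc_upos P he ha t ht).1 (o_G P he ha t ht)
  have hgt := oh_gt_one P he ha t ht
  have kb := (hasDerivAt_Zb P he hgt).comp t dh
  have kk := key.sub kb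
  have hfun : oZ c mu lam N sb cb r2 e U Y w = (fun s => Zh N lam sb cb e (oh c mu lam e U Y w s)
      (vR c (U s) (Y s)) (vS c r2 (U s) (Y s)) (vv mu r2 (w s))
      (va c mu sb cb r2 e (U s) (Y s) (w s)) (vb c mu sb cb r2 e (U s) (Y s) (w s)))
      - (Zb N lam sb cb r2 e ∘ oh c mu lam e U Y w) := by
    funext s
    simp only [oZ, ZZ, Pi.sub_apply, Function.comp_apply]
    rw [← S_ab P he, ← v_ab P he]
  rw [hfun]
  refine kk.congr_deriv ?_
  -- the bracket
  have hbr : 2 * R' * vS c r2 (U t) (Y t) - 3 * vR c (U t) (Y t) * S'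
      - e * lam * (R' * vv mu r2 (w t) + vR c (U t) (Y t) * v') - S' = -(c / r2) * hd := by
    have h1 := prim_identity P he (cone_Sv P (hcone t)) (h_Sv (e := e) P (w := w t)
      (U := U t) (Y := Y t))
    rw [← hl] at h1
    have h2 : vv mu r2 (w t) = mu * w t / r2 := rfl
    have h3 := u_Sv P he (U := U t) (Y := Y t) (w := w t)
    rw [← hl] at h3
    have h4 : 2 * R' * vS c r2 (U t) (Y t) - 3 * vR c (U t) (Y t) * S'
      - e * lam * (R' * vv mu r2 (w t) + vR c (U t) (Y t) * v') - S'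
      = r2 / mu * (r2 * c / 2 * (vv mu r2 (w t) * (2 * fh (-c) l (U t) (Y t) (w t)
        - 2 * N ^ 2 * vv mu r2 (w t) ^ 2))) := by
      rw [← h1, hR', hS', hv']; ring
    rw [h4, ← h3, hhd, h2]
    field_simp
    linear_combination (c * w t * fu (-c) l (U t) (Y t) (w t)) * hr22
  rw [hbr]
  simp only [oT, TT]
  field_simp
  ring

end

end B92.KC
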