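import Mathlib
import Pool.Agent.Lib.B92KC.OrbZ
import Pool.Agent.Lib.B92KC.KCmp
import Pool.Agent.Lib.B92KC.KLo
import Pool.Agent.Lib.B92.KInv
import Pool.Agent.Lib.B92.Cmp
import Pool.Agent.Lib.B92.Assemble

/-!
# MP_b92fc8_an, case kappa < -1 : comparison of the arcs from a common entrance
-/

set_option autoImplicit false

open Set Filter Topology

noncomputable section

namespace B92.KC

variable {c mu lam N sb cb r2 e : ℝ}

theorem NR_lt {N R a h : ℝ} (hl : h = 1 + 2 * R - N * R ^ 2 + N * a ^ 2)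
    (hF : 0 < 1 - N * R + N * a) (hs : N * (h - 1) < 1) : N * R < 1 := by
  have h1 : (1 - N * R + N * a) * (1 - N * R - N * a) = 1 - N * (h - 1) := by rw [hl]; ring
  have h2 : 0 < 1 - N * R - N * a := by
    by_contra hcon
    push Not at hcon
    have := mul_nonpos_of_nonneg_of_nonpos hF.le hcon
    linarith
  linarith

section

variable {U Y w : ℝ → ℝ} {α β : ℝ}

/-- The data of an interior point of an arc. -/
theorem arc_pt (P : Par c mu lam N sb cb r2) (he : e ^ 2 = 1)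
    (ha : Arc (-c) (e * (mu * lam)) U Y w α β) {t x : ℝ} (ht : t ∈ Ioo α β)
    (hx : oh c mu lam e U Y w t = x) : ∃ R a b : ℝ, 0 < R ∧ a ^ 2 + b ^ 2 = 2 * R ^ 2 ∧
      x = 1 + 2 * R - N * R ^ 2 + N * a ^ 2 ∧ 0 < 1 - N * R + N * a ∧
      0 < b * cb + e * a * sb ∧ 0 < 2 * x - 2 * N ^ 2 * (b * cb + e * a * sb) ^ 2 ∧
      oT c mu lam N sb cb r2 e U Y w t = TT N sb cb r2 e x R a b ∧
      oZ c mu lam N sb cb r2 e U Y w t = ZZ N lam sb cb r2 e x R a b := by
  have hI := Ioo_subset_Icc_self ht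
  have h1 := arc_upos P he ha t hI
  have h2 := u_Sv P he (U := U t) (Y := Y t) (w := w t)
  refine ⟨vR c (U t) (Y t), va c mu sb cb r2 e (U t) (Y t) (w t),
    vb c mu sb cb r2 e (U t) (Y t) (w t), vR_pos P.c1 (ha.sol.cone t) (ha.sol.pos t),
    o_cone P he ha.sol t, ?_, h1.1, ?_, ?_, ?_, ?_⟩
  · rw [← hx]; exact o_lev P he ha.sol t
  · rw [o_v P he]
    have := ha.wpos t ht
    have := P.mu0
    have := P.r20
    positivity
  · rw [← v_ab P he, ← hx]
    have h3 := h1.2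
    rw [h2] at h3
    exact h3
  · simp only [oT, hx]
  · simp only [oZ, hx]

/-- The data of the end point of an arc. -/
theorem arc_end (P : Par c mu lam N sb cb r2) (he : e ^ 2 = 1)
    (ha : Arc (-c) (e * (mu * lam)) U Y w α β) {x : ℝ}
    (hx : oh c mu lam e U Y w β = x) : ∃ R a b : ℝ, 0 < R ∧ a ^ 2 + b ^ 2 = 2 * R ^ 2 ∧
      x = 1 + 2 * R - N * R ^ 2 + N * a ^ 2 ∧ N * (x - 1) < 1 ∧ N * R < 1 ∧
      b * cb + e * a * sb = 0 ∧ a < 0 ∧
      oT c mu lam N sb cb r2 e U Y w β = TT N sb cb r2 e x R a b ∧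
      oZ c mu lam N sb cb r2 e U Y w β = ZZ N lam sb cb r2 e x R a b := by
  have hI : β ∈ Icc α β := ⟨ha.lt.le, le_rfl⟩
  have h1 := (arc_upos P he ha β hI).1
  obtain ⟨-, hrb⟩ := arc_rays P.c1 ha
  obtain ⟨q1, q2, q3, q4⟩ := ray_b_vals (e := e) P hrb ha.wb
  have hR := vR_pos P.c1 (ha.sol.cone β) (ha.sol.pos β)
  have hN := P.N0
  have hcb := P.cb0
  have hr2 := P.r20
  have hl : x = 1 + 2 * vR c (U β) (Y β) - N * vR c (U β) (Y β) ^ 2
      + N * va c mu sb cb r2 e (U β) (Y β) (w β) ^ 2 := by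
    rw [← hx]; exact o_lev P he ha.sol β
  have hF : 0 < 1 - N * vR c (U β) (Y β) + N * va c mu sb cb r2 e (U β) (Y β) (w β) := h1
  have hs : N * (x - 1) < 1 := by
    have h2 : (1 - N * vR c (U β) (Y β) + N * va c mu sb cb r2 e (U β) (Y β) (w β))
        * (1 - N * vR c (U β) (Y β) - N * va c mu sb cb r2 e (U β) (Y β) (w β))
        = 1 - N * (x - 1) := by rw [hl]; ring
    have h3 : 0 < 1 - N * vR c (U β) (Y β) - N * va c mu sb cb r2 e (U β) (Y β) (w β) := by
      rw [q3]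
      have := base_F P hR.le
      linarith
    have := mul_pos hF h3
    linarith
  refine ⟨vR c (U β) (Y β), va c mu sb cb r2 e (U β) (Y β) (w β),
    vb c mu sb cb r2 e (U β) (Y β) (w β), hR, o_cone P he ha.sol β, hl, hs, NR_lt hl hF hs, ?_, ?_,
    ?_, ?_⟩
  · rw [o_v P he, ha.wb]; simp
  · rw [q3]
    have : 0 < r2 * vR c (U β) (Y β) * cb := by positivity
    linarith
  · simp only [oT, hx]
  · simp only [oZ, hx]

/-- `z = 0` at the entrance. -/
theorem arc_start (P : Par c mu lam N sb cb r2) (he : e ^ 2 = 1)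
    (ha : Arc (-c) (e * (mu * lam)) U Y w α β) :
    oZ c mu lam N sb cb r2 e U Y w α = 0 := by
  obtain ⟨hra, -⟩ := arc_rays P.c1 ha
  obtain ⟨q1, q2, q3, q4, q5⟩ := ray_a_vals (e := e) P hra ha.wa
  have hR := vR_pos P.c1 (ha.sol.cone α) (ha.sol.pos α)
  have h1 : oh c mu lam e U Y w α = (1 + vR c (U α) (Y α)) ^ 2 := q5
  have h2 : ra (oh c mu lam e U Y w α) = vR c (U α) (Y α) := by
    rw [h1]; unfold ra
    rw [Real.sqrt_sq (by linarith)]; ring
  simp only [oZ, ZZ, Zb]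
  rw [q3, q4, h2, base_S P he, base_v, sub_self]

end

/-- Comparison of two interior points at the same level. -/
theorem comp_pt (P : Par c mu lam N sb cb r2) {U Y w U' Y' w' : ℝ → ℝ} {α β α' β' : ℝ}
    (h1 : Arc (-c) (1 * (mu * lam)) U Y w α β) (h2 : Arc (-c) (-1 * (mu * lam)) U' Y' w' α' β')
    {t t' x : ℝ} (ht : t ∈ Ioo α β) (ht' : t' ∈ Ioo α' β') (hx : oh c mu lam 1 U Y w t = x)
    (hx' : oh c mu lam (-1) U' Y' w' t' = x)
    (hT : oT c mu lam N sb cb r2 (-1) U' Y' w' t' ≤ oT c mu lam N sb cb r2 1 U Y w t) :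
    oZ c mu lam N sb cb r2 (-1) U' Y' w' t' < oZ c mu lam N sb cb r2 1 U Y w t ∧
      (N * (x - 1) < 1 → oZ c mu lam N sb cb r2 (-1) U' Y' w' t' + (1 - N * (x - 1))
        * (oT c mu lam N sb cb r2 1 U Y w t - oT c mu lam N sb cb r2 (-1) U' Y' w' t')
        < oZ c mu lam N sb cb r2 1 U Y w t) := by
  have hgt : 1 < x := by
    rw [← hx]; exact oh_gt_one P (by norm_num) h1 t (Ioo_subset_Icc_self ht)
  obtain ⟨R, a, b, g1, g2, g3, g4, g5, g6, g7, g8⟩ := arc_pt P (by norm_num) h1 ht hx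
  obtain ⟨R', a', b', k1, k2, k3, k4, k5, k6, k7, k8⟩ := arc_pt P (by norm_num) h2 ht' hx'
  rw [g7, k7] at hT ⊢
  rw [g8, k8]
  rcases le_or_gt 1 (N * (x - 1)) with hs | hs
  · exact ⟨comp_hi P hgt hs g1 g2 g3 g4 g5 g6 k1 k2 k3 k4 k5 hT, fun h => absurd h (not_lt.2 hs)⟩
  · have key := comp_lo P hgt hs g1 g2 g3 (NR_lt g3 g4 hs) g5 k1 k2 k3 (NR_lt k3 k4 hs) k5 hT
    refine ⟨?_, fun _ => key⟩
    have : 0 ≤ (1 - N * (x - 1)) * (TT N sb cb r2 1 x R a b - TT N sb cb r2 (-1) x R' a' b') :=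
      mul_nonneg (by linarith) (by linarith)
    linarith

/-- **The order of the exits.** -/
theorem exit_lt (P : Par c mu lam N sb cb r2) {U Y w U' Y' w' : ℝ → ℝ} {α β α' β' : ℝ}
    (h1 : Arc (-c) (1 * (mu * lam)) U Y w α β) (h2 : Arc (-c) (-1 * (mu * lam)) U' Y' w' α' β')
    (hU : U α = U' α') (hY : Y α = Y' α') : U' β' < U β := by
  by_contra hcon
  push Not at hcon
  have he1 : (1:ℝ) ^ 2 = 1 := by norm_num
  have he2 : (-1:ℝ) ^ 2 = 1 := by norm_num
  have hc1 := P.c1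
  obtain ⟨hra, hrb⟩ := arc_rays P.c1 h1
  obtain ⟨hra', hrb'⟩ := arc_rays P.c1 h2
  set H1 := oh c mu lam 1 U Y w with hH1
  set H2 := oh c mu lam (-1) U' Y' w' with hH2
  set Z1 := oZ c mu lam N sb cb r2 1 U Y w with hZ1
  set Z2 := oZ c mu lam N sb cb r2 (-1) U' Y' w' with hZ2
  set T1 := oT c mu lam N sb cb r2 1 U Y w with hT1
  set T2 := oT c mu lam N sb cb r2 (-1) U' Y' w' with hT2
  -- levels at the ends
  have hstart : H1 α = H2 α' := by
    have e1 := (ray_a_vals (e := 1) P hra h1.wa).2.2.2.2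
    have e2 := (ray_a_vals (e := -1) P hra' h2.wa).2.2.2.2
    simp only [hH1, hH2, oh]
    rw [e1, e2, hU, hY]
  have hend : H1 β ≤ H2 β' := by
    have e1 := (ray_b_vals (e := 1) P hrb h1.wb).2.2.2
    have e2 := (ray_b_vals (e := -1) P hrb' h2.wb).2.2.2
    have p1 := vR_pos P.c1 (h1.sol.cone β) (h1.sol.pos β)
    have p2 : vR c (U β) (Y β) ≤ vR c (U' β') (Y' β') := by
      simp only [vR, hrb, hrb']
      nlinarith
    simp only [hH1, hH2, oh]
    rw [e1, e2]
    nlinarith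
  have I1 := fun t (ht : t ∈ Ioo α β) => Ioo_subset_Icc_self ht
  have I2 := fun t (ht : t ∈ Ioo α' β') => Ioo_subset_Icc_self ht
  obtain ⟨φ1, a1, a2, a3, a4, a5, a6, a7, a8, a9⟩ := graph_anti (h := H1) (Z := Z1) (T := T1)
    (h' := fun t => -(w t) * fu (-c) (1 * (mu * lam)) (U t) (Y t) (w t)) (c := (1 - c) / r2)
    h1.lt (oh_cont h1.sol).continuousOn
    (fun t ht => (oZ_deriv P he1 h1 t ht).continuousAt.continuousWithinAt) (oT_cont P he1 h1)
    (fun t _ => hasDerivAt_h h1.sol t)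
    (fun t ht => by
      have := mul_pos (h1.wpos t ht) (arc_upos P he1 h1 t (I1 t ht)).2
      linarith)
    (fun t ht => oZ_deriv P he1 h1 t (I1 t ht))
  obtain ⟨φ2, b1, b2, b3, b4, b5, b6, b7, b8, b9⟩ := graph_anti (h := H2) (Z := Z2) (T := T2)
    (h' := fun t => -(w' t) * fu (-c) (-1 * (mu * lam)) (U' t) (Y' t) (w' t))
    (c := (1 - c) / r2)
    h2.lt (oh_cont h2.sol).continuousOn
    (fun t ht => (oZ_deriv P he2 h2 t ht).continuousAt.continuousWithinAt) (oT_cont P he2 h2)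
    (fun t _ => hasDerivAt_h h2.sol t)
    (fun t ht => by
      have := mul_pos (h2.wpos t ht) (arc_upos P he2 h2 t (I2 t ht)).2
      linarith)
    (fun t ht => oZ_deriv P he2 h2 t (I2 t ht))
  set h0 := H1 α with hh0
  set hm := H2 β' with hhm
  rw [← hstart] at b1 b2 b3 b5 b6 b7 b8 b9
  set y : ℝ → ℝ := fun x => Z1 (φ1 x) - Z2 (φ2 x) with hy
  have yc : ContinuousOn y (Icc hm h0) :=
    (a7.mono (Icc_subset_Icc_left hend)).sub b7
  have yd : ∀ x ∈ Ioo hm h0, HasDerivAt y (5 * (T1 (φ1 x) - T2 (φ2 x))) x := by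
    intro x hx
    refine ((a9 x ⟨hend.trans_lt hx.1, hx.2⟩).sub (b9 x hx)).congr_deriv ?_
    ring
  have y0 : y h0 = 0 := by
    simp only [hy]
    rw [a5, b5, hZ1, hZ2, arc_start P he1 h1, arc_start P he2 h2, sub_self]
  have hcomp : ∀ x ∈ Ioo hm h0, T2 (φ2 x) ≤ T1 (φ1 x) → 0 < y x ∧ (N * (x - 1) < 1 →
      (1 - N * (x - 1)) * (T1 (φ1 x) - T2 (φ2 x)) < y x) := by
    intro x hx hT
    have hx1 : x ∈ Ioo (H1 β) h0 := ⟨hend.trans_lt hx.1, hx.2⟩
    have := comp_pt P h1 h2 (a3 x hx1) (b3 x hx) (a2 x (Ioo_subset_Icc_self hx1)).2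
      (b2 x (Ioo_subset_Icc_self hx)).2 hT
    refine ⟨by simp only [hy]; linarith [this.1], fun hs => ?_⟩
    have h3 := this.2 hs
    simp only [hy]; linarith
  have ypos : ∀ x ∈ Ioo hm h0, 0 < y x := by
    intro x hx
    have hsub : Icc x h0 ⊆ Icc hm h0 := Icc_subset_Icc_left hx.1.le
    have key := neg_of_deriv_gt (f := fun s => -y s) (f' := fun s => -(5 * (T1 (φ1 s) - T2 (φ2 s))))
      (a := x) (b := h0) (C := 0) (yc.mono hsub).neg (by simp only [y0, neg_zero, le_refl])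
      (fun s hs => ((yd s ⟨hx.1.trans_le hs.1, hs.2⟩).neg).hasDerivWithinAt)
      (fun s hs hs0 => by
        have hs' : s ∈ Ioo hm h0 := ⟨hx.1.trans_le hs.1, hs.2⟩
        have h3 : T1 (φ1 s) < T2 (φ2 s) := by
          by_contra hc
          push Not at hc
          have := (hcomp s hs' hc).1
          linarith
        linarith) x ⟨le_rfl, hx.2⟩
    simpa using key
  have hmm : hm ∈ Icc hm h0 := ⟨le_rfl, b1.le⟩
  -- the end of the second arc
  obtain ⟨R', a', b', k1, k2, k3, k4, k5, k6, k7, k8, k9⟩ := arc_end P he2 h2 (x := hm) rfl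
  have hgt : 1 < hm := oh_gt_one P he2 h2 β' ⟨h2.lt.le, le_rfl⟩
  have ym : 0 ≤ y hm := by
    have hcl : hm ∈ closure (Ioo hm h0) := by
      rw [closure_Ioo b1.ne]; exact hmm
    have hcw : ContinuousWithinAt y (Ioo hm h0) hm := (yc hm hmm).mono Ioo_subset_Icc_self
    exact ContinuousWithinAt.closure_le hcl continuousWithinAt_const hcw fun x hx => (ypos x hx).le
  rcases hend.eq_or_lt with heq | hlt
  · -- simultaneous end
    obtain ⟨R, a, b, g1, g2, g3, g4, g5, g6, g7, g8, g9⟩ := arc_end P he1 h1 (x := hm) heq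
    have hym : y hm = 0 := by
      simp only [hy]
      rw [b4]
      have : φ1 hm = β := by rw [← heq]; exact a4
      rw [this, hZ1, hZ2, g9, k9,
        end_eq P hgt k4 g1 g2 g3 g5 g6 g7 k1 k2 k3 k5 k6 k7, sub_self]
    have hN := P.N0
    have hmin : hm < min h0 (1 + 1 / N) := by
      refine lt_min b1 ?_
      have : N * (1 + 1 / N - 1) = 1 := by field_simp; ring
      by_contra hc
      push Not at hc
      have : N * (1 + 1 / N - 1) ≤ N * (hm - 1) := mul_le_mul_of_nonneg_left (by linarith) hN.le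
      linarith
    set h3 := (hm + min h0 (1 + 1 / N)) / 2 with hh3
    have h31 : hm < h3 := by rw [hh3]; linarith
    have h32 : h3 < min h0 (1 + 1 / N) := by rw [hh3]; linarith
    have h33 : h3 < h0 := h32.trans_le (min_le_left _ _)
    have h34 : N * (h3 - 1) < 1 := by
      have h35 : h3 < 1 + 1 / N := h32.trans_le (min_le_right _ _)
      have h36 : N * (1 + 1 / N - 1) = 1 := by field_simp; ring
      have : N * (h3 - 1) < N * (1 + 1 / N - 1) := mul_lt_mul_of_pos_left (by linarith) hN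
      linarith
    have hu1 : 0 < 1 - N * (h3 - 1) := by linarith
    have key := neg_of_deriv_lt (f := y) (f' := fun s => 5 * (T1 (φ1 s) - T2 (φ2 s)))
      (a := hm) (b := h3) (C := 5 / (1 - N * (h3 - 1))) (yc.mono (Icc_subset_Icc_right h33.le))
      hym.le (fun s hs => (yd s ⟨hs.1, hs.2.trans_lt h33⟩).hasDerivWithinAt)
      (fun s hs _ => by
        have hs' : s ∈ Ioo hm h0 := ⟨hs.1, hs.2.trans_lt h33⟩
        have hp := ypos s hs'
        rcases le_or_gt (T2 (φ2 s)) (T1 (φ1 s)) with hT | hT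
        · have hNs : N * (s - 1) ≤ N * (h3 - 1) :=
            mul_le_mul_of_nonneg_left (by linarith [hs.2]) hN.le
          have e1 := (hcomp s hs' hT).2 (by linarith)
          have e2 : (1 - N * (h3 - 1)) * (T1 (φ1 s) - T2 (φ2 s))
              ≤ (1 - N * (s - 1)) * (T1 (φ1 s) - T2 (φ2 s)) :=
            mul_le_mul_of_nonneg_right (by linarith) (by linarith)
          rw [div_mul_eq_mul_div, lt_div_iff₀ hu1]
          linarith
        · have : 0 < 5 / (1 - N * (h3 - 1)) * y s := by positivity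
          linarith) h3 ⟨h31, le_rfl⟩
    have := ypos h3 ⟨h31, h33⟩
    linarith
  · -- the second arc ends first
    have hx1 : hm ∈ Ioo (H1 β) h0 := ⟨hlt, b1⟩
    obtain ⟨R, a, b, g1, g2, g3, g4, g5, g6, g7, g8⟩ := arc_pt P he1 h1 (a3 hm hx1)
      (a2 hm (Ioo_subset_Icc_self hx1)).2
    have key := end_lo P hgt k4 g1 g2 g3 (NR_lt g3 g4 k4) g5 k1 k2 k3 k5 k6 k7
    have : y hm < 0 := by
      simp only [hy]
      rw [b4, hZ1, hZ2, g8, k9]
      linarith
    linarith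

end B92.KC
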