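import Mathlib
import Pool.Agent.Lib.B92KC.Comp

/-!
# MP_b92fc8_an, case kappa < -1 : no periodic orbit
-/

set_option autoImplicit false

open Set Filter Topology

noncomputable section

namespace B92.KC

/-- **No periodic orbit for `kappa < -1`.** -/
theorem no_orbit {k l : ℝ} (hk : k < -1) (hl : 0 < l) {U Y w : ℝ → ℝ} {P : ℝ}
    (hs : Sol k l U Y w) (hP : 0 < P)
    (pU : ∀ t, U (t + P) = U t) (pY : ∀ t, Y (t + P) = Y t) (pw : ∀ t, w (t + P) = w t)
    (hneg : ∃ t, w t < 0) (hpos : ∃ t, 0 < w t) : False := by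
  obtain ⟨mu, lam, N, sb, cb, r2, hp, hlm⟩ := exists_par hk hl
  have heta : eta k l ≠ 0 := by
    have : eta k l < 0 := by
      unfold eta; nlinarith [sq_nonneg l]
    exact this.ne
  refine no_orbit_entrance hl heta (fun _ _ => True) (fun U _ => -U) (fun _ _ _ _ _ _ => trivial)
    ?_ hs hP pU pY pw hneg hpos
  intro U Y w a b U' Y' w' a' b' h1 h2 hU hY _ _
  have e1 : Arc (-(-k)) (1 * (mu * lam)) U Y w a b := by rw [neg_neg, one_mul, ← hlm]; exact h1
  have e2 : Arc (-(-k)) (-1 * (mu * lam)) U' Y' w' a' b' := by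
    rw [neg_neg, neg_one_mul, ← hlm]; exact h2
  have := exit_lt hp e1 e2 hU hY
  linarith

end B92.KC
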